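import Pool.Agent.H37.LES.Defs
import Pool.Agent.H36.MHD.Limit

/-!
# MP_544ca6_an, module L12: the limit objects
-/

open MeasureTheory Set Filter Topology
open scoped ContDiff ENNReal
open H36.MHD

noncomputable section

namespace H37.LES

namespace Lim

section general

variable {α : Type*} [MeasurableSpace α] {μ : Measure α}

lemma norm_toLp_sq {f : α → ℝ} (hf : MemLp f 2 μ) :
    ‖hf.toLp f‖ ^ 2 = ∫ z, (f z) ^ 2 ∂μ := by
  rw [← real_inner_self_eq_norm_sq, L2.inner_def]
  refine integral_congr_ae ?_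
  filter_upwards [hf.coeFn_toLp] with z hz
  rw [hz]; simp [pow_two]

lemma inner_toLp {f g : α → ℝ} (hf : MemLp f 2 μ) (hg : MemLp g 2 μ) :
    inner ℝ (hf.toLp f) (hg.toLp g) = ∫ z, f z * g z ∂μ := by
  rw [L2.inner_def]
  refine integral_congr_ae ?_
  filter_upwards [hf.coeFn_toLp, hg.coeFn_toLp] with z hz hz'
  rw [hz, hz']; simp [mul_comm]

lemma int_mul {f g : α → ℝ} (hf : MemLp f 2 μ) (hg : MemLp g 2 μ) :
    Integrable (fun z => f z * g z) μ := hf.integrable_mul hg

lemma int_sq {f : α → ℝ} (hf : MemLp f 2 μ) : Integrable (fun z => (f z) ^ 2) μ := by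
  simpa [pow_two] using int_mul hf hf

/-- convergence in `L²` with a rate -/
lemma l2_limit (g : ℕ → α → ℝ) (hg : ∀ n, MemLp (g n) 2 μ)
    (h : ∀ n, ∫ z, (g (n + 1) z - g n z) ^ 2 ∂μ ≤ (1 / 16) ^ n) :
    ∃ H : α → ℝ, Measurable H ∧ MemLp H 2 μ ∧
      ∀ n, ∫ z, (g n z - H z) ^ 2 ∂μ ≤ 2 * (1 / 16) ^ n := by
  have hd : ∀ n, dist ((hg n).toLp (g n)) ((hg (n + 1)).toLp (g (n + 1))) ≤ 1 * (1 / 4) ^ n := by
    intro n
    rw [dist_comm, dist_eq_norm, ← MemLp.toLp_sub, one_mul]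
    refine abs_le_of_sq_le_sq' ?_ (by positivity) |>.2
    rw [norm_toLp_sq]
    refine (h n).trans (le_of_eq ?_)
    rw [← pow_mul, mul_comm, pow_mul]; norm_num
  obtain ⟨L, hL⟩ := cauchySeq_tendsto_of_complete
    (cauchySeq_of_le_geometric (1 / 4) 1 (by norm_num) hd)
  refine ⟨L, (Lp.stronglyMeasurable L).measurable, Lp.memLp L, fun n => ?_⟩
  have h1 := dist_le_of_le_geometric_of_tendsto (1 / 4) 1 (by norm_num) hd hL n
  have h2 : (hg n).toLp (g n) - L = ((hg n).sub (Lp.memLp L)).toLp _ := by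
    rw [MemLp.toLp_sub (hg n) (Lp.memLp L), Lp.toLp_coeFn]
  have h3 := norm_toLp_sq ((hg n).sub (Lp.memLp L))
  simp only [Pi.sub_apply] at h3
  rw [← h3, ← h2]
  rw [dist_eq_norm] at h1
  have h4 : ‖(hg n).toLp (g n) - L‖ ^ 2 ≤ (1 * (1 / 4) ^ n / (1 - 1 / 4)) ^ 2 :=
    pow_le_pow_left₀ (norm_nonneg _) h1 2
  refine h4.trans ?_
  have h5 : ((1 : ℝ) * (1 / 4) ^ n / (1 - 1 / 4)) ^ 2 = 16 / 9 * (1 / 16) ^ n := by
    rw [div_pow, mul_pow, ← pow_mul, mul_comm n 2, pow_mul]; norm_num; ring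
  rw [h5]
  have : (0 : ℝ) < (1 / 16) ^ n := by positivity
  nlinarith

/-- sum of two `L²`-null sequences -/
lemma l2_add {a b : ℕ → α → ℝ} (ha : ∀ n, MemLp (a n) 2 μ) (hb : ∀ n, MemLp (b n) 2 μ)
    (ha0 : Tendsto (fun n => ∫ z, (a n z) ^ 2 ∂μ) atTop (𝓝 0))
    (hb0 : Tendsto (fun n => ∫ z, (b n z) ^ 2 ∂μ) atTop (𝓝 0)) :
    Tendsto (fun n => ∫ z, (a n z + b n z) ^ 2 ∂μ) atTop (𝓝 0) := by
  have h0 : Tendsto (fun n => 2 * (∫ z, (a n z) ^ 2 ∂μ) + 2 * ∫ z, (b n z) ^ 2 ∂μ) atTop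
      (𝓝 0) := by simpa using (ha0.const_mul 2).add (hb0.const_mul 2)
  refine squeeze_zero (fun n => integral_nonneg fun z => sq_nonneg _) (fun n => ?_) h0
  rw [← integral_const_mul, ← integral_const_mul, ← integral_add
    ((int_sq (ha n)).const_mul 2) ((int_sq (hb n)).const_mul 2)]
  refine integral_mono (int_sq ((ha n).add (hb n)))
    (((int_sq (ha n)).const_mul 2).add ((int_sq (hb n)).const_mul 2)) fun z => ?_
  have := sq_nonneg (a n z - b n z)
  show (a n z + b n z) ^ 2 ≤ 2 * (a n z) ^ 2 + 2 * (b n z) ^ 2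
  nlinarith

/-- weak convergence of products -/
lemma l2_mul {a : ℕ → α → ℝ} {f w : α → ℝ} (ha : ∀ n, MemLp (a n) 2 μ) (hf : MemLp f 2 μ)
    (hw : MemLp w 2 μ) (h0 : Tendsto (fun n => ∫ z, (a n z - f z) ^ 2 ∂μ) atTop (𝓝 0)) :
    Tendsto (fun n => ∫ z, a n z * w z ∂μ) atTop (𝓝 (∫ z, f z * w z ∂μ)) := by
  rw [tendsto_iff_norm_sub_tendsto_zero]
  have h1 : Tendsto (fun n => Real.sqrt (∫ z, (a n z - f z) ^ 2 ∂μ) * ‖hw.toLp w‖) atTop
      (𝓝 0) := by
    have := (Real.continuous_sqrt.tendsto 0).comp h0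
    rw [Real.sqrt_zero] at this
    simpa using this.mul_const ‖hw.toLp w‖
  refine squeeze_zero (fun n => norm_nonneg _) (fun n => ?_) h1
  rw [← integral_sub (int_mul (ha n) hw) (int_mul hf hw)]
  have h2 : ∫ z, (a n z * w z - f z * w z) ∂μ
      = inner ℝ (((ha n).sub hf).toLp _) (hw.toLp w) := by
    rw [inner_toLp]
    refine integral_congr_ae (Eventually.of_forall fun z => ?_)
    simp only [Pi.sub_apply]; ring
  rw [h2, Real.norm_eq_abs]
  refine (abs_real_inner_le_norm _ _).trans ?_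
  gcongr
  refine Real.le_sqrt_of_sq_le ?_
  rw [norm_toLp_sq]
  simp only [Pi.sub_apply]; exact le_rfl

/-- slices of a rapidly null sequence -/
lemma slices {β : Type*} [MeasurableSpace β] {ν : Measure β} [SFinite μ] [SFinite ν]
    (d : ℕ → α × β → ℝ) (hm : ∀ n, Measurable (d n)) (hd : ∀ n, MemLp (d n) 2 (μ.prod ν))
    (h : ∀ n, ∫ z, (d n z) ^ 2 ∂(μ.prod ν) ≤ 2 * (1 / 16) ^ n) :
    ∀ᵐ t ∂μ, (∀ n, MemLp (fun x => d n (t, x)) 2 ν) ∧
      Tendsto (fun n => ∫ x, (d n (t, x)) ^ 2 ∂ν) atTop (𝓝 0) := by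
  have h1 : ∀ᵐ t ∂μ, ∀ n, Integrable (fun x => (d n (t, x)) ^ 2) ν :=
    ae_all_iff.2 fun n => (int_sq (hd n)).prod_right_ae
  have hI : ∀ n, Integrable (fun t => ∫ x, (d n (t, x)) ^ 2 ∂ν) μ := fun n =>
    (int_sq (hd n)).integral_prod_left
  have hI0 : ∀ n t, 0 ≤ ∫ x, (d n (t, x)) ^ 2 ∂ν := fun n t =>
    integral_nonneg fun x => sq_nonneg _
  have h2 : ∫⁻ t, ∑' n, ENNReal.ofReal (∫ x, (d n (t, x)) ^ 2 ∂ν) ∂μ ≠ ⊤ := by
    rw [lintegral_tsum fun n => (hI n).aestronglyMeasurable.aemeasurable.ennreal_ofReal]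
    have h3 : ∀ n, ∫⁻ t, ENNReal.ofReal (∫ x, (d n (t, x)) ^ 2 ∂ν) ∂μ
        ≤ ENNReal.ofReal (2 * (1 / 16) ^ n) := by
      intro n
      rw [← ofReal_integral_eq_lintegral_ofReal (hI n) (Eventually.of_forall (hI0 n))]
      refine ENNReal.ofReal_le_ofReal ?_
      have := integral_prod (μ := μ) (ν := ν) (fun z => (d n z) ^ 2) (int_sq (hd n))
      rw [← this]; exact h n
    refine ne_top_of_le_ne_top ?_ (ENNReal.tsum_le_tsum h3)
    rw [← ENNReal.ofReal_tsum_of_nonneg (fun n => by positivity)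
      ((summable_geometric_of_lt_one (by norm_num) (by norm_num)).mul_left 2)]
    exact ENNReal.ofReal_ne_top
  have h4 := ae_lt_top' (AEMeasurable.tsum fun n =>
    (hI n).aestronglyMeasurable.aemeasurable.ennreal_ofReal) h2
  filter_upwards [h1, h4] with t ht1 ht4
  refine ⟨fun n => ?_, ?_⟩
  · refine (memLp_two_iff_integrable_sq ?_).2 (ht1 n)
    exact ((hm n).comp measurable_prodMk_left).aestronglyMeasurable
  · have h5 := ENNReal.tendsto_atTop_zero_of_tsum_ne_top ht4.ne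
    have h6 := (ENNReal.tendsto_toReal (ENNReal.zero_ne_top)).comp h5
    simp only [ENNReal.toReal_zero, Function.comp_def] at h6
    refine h6.congr fun n => ?_
    rw [ENNReal.toReal_ofReal (hI0 n t)]

end general

/-- weak derivatives of `L²` limits of smooth functions -/
lemma weak_of_approx {Ω : Set V3} (φ : ℕ → V3 → ℝ) (hφ : ∀ n, ContDiff ℝ ∞ (φ n))
    (hc : ∀ n, HasCompactSupport (φ n)) (hs : ∀ n, tsupport (φ n) ⊆ Ω) (v G : V3 → ℝ) (j : Fin 3)
    (hv : MemLp v 2 (volume.restrict Ω)) (hG : MemLp G 2 (volume.restrict Ω))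
    (h1 : Tendsto (fun n => ∫ x in Ω, (φ n x - v x) ^ 2) atTop (𝓝 0))
    (h2 : Tendsto (fun n => ∫ x in Ω, (pd j (φ n) x - G x) ^ 2) atTop (𝓝 0))
    (ψ : V3 → ℝ) (hψ : ContDiff ℝ ∞ ψ) (hψc : HasCompactSupport ψ) :
    ∫ x in Ω, v x * pd j ψ x = - ∫ x in Ω, G x * ψ x := by
  have hpd : HasCompactSupport (pd j ψ) :=
    hψc.mono' ((subset_tsupport _).trans (tsupport_pd_subset ψ j))
  have m1 : ∀ n, MemLp (φ n) 2 (volume.restrict Ω) := fun n =>
    ((hφ n).continuous.memLp_of_hasCompactSupport (hc n)).mono_measure Measure.restrict_le_self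
  have m2 : ∀ n, MemLp (pd j (φ n)) 2 (volume.restrict Ω) := fun n =>
    ((smooth_pd (hφ n) j).continuous.memLp_of_hasCompactSupport
      ((hc n).mono' ((subset_tsupport _).trans (tsupport_pd_subset _ j)))).mono_measure
      Measure.restrict_le_self
  have m3 : MemLp ψ 2 (volume.restrict Ω) :=
    (hψ.continuous.memLp_of_hasCompactSupport hψc).mono_measure Measure.restrict_le_self
  have m4 : MemLp (pd j ψ) 2 (volume.restrict Ω) :=
    ((smooth_pd hψ j).continuous.memLp_of_hasCompactSupport hpd).mono_measure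
      Measure.restrict_le_self
  have t1 := l2_mul m1 hv m4 h1
  have t2 := l2_mul m2 hG m3 h2
  have e : ∀ n, ∫ x in Ω, φ n x * pd j ψ x = - ∫ x in Ω, pd j (φ n) x * ψ x := by
    intro n
    have := int_pd_on (Ω := Ω) (g := fun x => φ n x * ψ x) ((hφ n).mul hψ)
      ((hc n).mul_right) ((tsupport_mul_subset_left).trans (hs n)) j
    rw [← add_eq_zero_iff_eq_neg, ← integral_add (int_mul (m1 n) m4) (int_mul (m2 n) m3), ← this]
    refine integral_congr_ae (Eventually.of_forall fun x => ?_)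
    simp only [pd_mul (hφ n) hψ]
    ring
  refine tendsto_nhds_unique t1 ?_
  simp only [e]
  exact t2.neg

/-- uniform limit of the velocities -/
lemma velocities (P : Prob) (V : ℕ → Fin 3 → X → ℝ) (hV : ∀ n, P.IsPert (V n))
    (h1 : ∀ n i z, |V (n + 1) i z - V n i z| ≤ (1 / 16) ^ n) :
    ∃ U : Fin 3 → X → ℝ, (∀ i, Continuous (U i)) ∧
      (∀ i, ∃ C, ∀ n z, |V n i z| ≤ C ∧ |U i z| ≤ C) ∧
      (∀ i z, Tendsto (fun n => V n i z) atTop (𝓝 (U i z))) := by
  have hsum : Summable (fun n : ℕ => ((1 : ℝ) / 16) ^ n) :=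
    summable_geometric_of_lt_one (by norm_num) (by norm_num)
  have hcont : ∀ i, Continuous (fun z => V 0 i z + ∑' n, (V (n + 1) i z - V n i z)) := fun i =>
    ((hV 0).smooth i).continuous.add (continuous_tsum
      (fun n => ((hV (n + 1)).smooth i).continuous.sub ((hV n).smooth i).continuous) hsum
      (fun n z => by rw [Real.norm_eq_abs]; exact h1 n i z))
  have hlim : ∀ i z, Tendsto (fun n => V n i z) atTop
      (𝓝 (V 0 i z + ∑' n, (V (n + 1) i z - V n i z))) := by
    intro i z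
    have hs : Summable (fun n => V (n + 1) i z - V n i z) :=
      Summable.of_norm_bounded hsum (fun n => by rw [Real.norm_eq_abs]; exact h1 n i z)
    have := (hs.hasSum.tendsto_sum_nat).const_add (V 0 i z)
    refine this.congr fun n => ?_
    rw [Finset.sum_range_sub (fun n => V n i z)]; ring
  refine ⟨_, hcont, fun i => ?_, hlim⟩
  obtain ⟨C, hC⟩ := bdd_cs ((hV 0).smooth i).continuous ((hV 0).compact i)
  have hb : ∀ n z, |V n i z| ≤ C + ∑' k : ℕ, ((1 : ℝ) / 16) ^ k := by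
    intro n z
    have e : V n i z = V 0 i z + ∑ k ∈ Finset.range n, (V (k + 1) i z - V k i z) := by
      rw [Finset.sum_range_sub (fun n => V n i z)]; ring
    rw [e]
    refine (abs_add_le _ _).trans (add_le_add (hC z) ?_)
    refine (Finset.abs_sum_le_sum_abs _ _).trans ?_
    refine (Finset.sum_le_sum fun k _ => h1 k i z).trans ?_
    exact hsum.sum_le_tsum _ (fun k _ => by positivity)
  refine ⟨C + ∑' k : ℕ, ((1 : ℝ) / 16) ^ k, fun n z => ⟨hb n z, ?_⟩⟩
  exact le_of_tendsto ((hlim i z).abs) (Eventually.of_forall fun n => hb n z)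

end Lim

open Lim

theorem limit_objects (P : Prob) (V : ℕ → Fin 3 → X → ℝ) (hV : ∀ n, P.IsPert (V n))
    (h1 : ∀ n i z, |V (n + 1) i z - V n i z| ≤ (1 / 16) ^ n)
    (h2 : ∀ n i j, ∫ z, (dx j (V (n + 1) i) z - dx j (V n i) z) ^ 2 ∂P.μ ≤ (1 / 16) ^ n) :
    ∃ (U : Fin 3 → X → ℝ) (H : Fin 3 → Fin 3 → X → ℝ), (∀ i, Continuous (U i)) ∧
      (∀ i, ∃ C, ∀ n z, |V n i z| ≤ C ∧ |U i z| ≤ C) ∧
      (∀ i z, Tendsto (fun n => V n i z) atTop (𝓝 (U i z))) ∧
      (∀ i j, Measurable (H i j)) ∧ (∀ i j, MemLp (H i j) 2 P.μ) ∧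
      (∀ i j, Tendsto (fun n => ∫ z, (dx j (V n i) z - H i j z) ^ 2 ∂P.μ) atTop (𝓝 0)) ∧
      ∀ᵐ t ∂(volume.restrict (Ioo 0 P.T)),
        InV P.Ω (fun x i => P.w0 x i + U i (t, x)) (fun x i j => P.G0 x i j + H i j (t, x)) := by
  have hcs : ∀ n i j, HasCompactSupport (dx j (V n i)) := fun n i j =>
    ((hV n).compact i).mono' ((subset_tsupport _).trans (tsupport_dx_subset _ j))
  have hc : ∀ n i j, Continuous (dx j (V n i)) := fun n i j =>
    (smooth_dx ((hV n).smooth i) j).continuous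
  have hfin : volume (cyl P.Ω P.T) < ⊤ := cyl_fin P.hb
  have hgm : ∀ n i j, MemLp (dx j (V n i)) 2 P.μ := fun n i j =>
    ((hc n i j).memLp_of_hasCompactSupport (hcs n i j)).mono_measure Measure.restrict_le_self
  obtain ⟨U, hU, hUb, hUlim⟩ := velocities P V hV h1
  choose H hHm hH2 hHr using fun i j => l2_limit (μ := P.μ) (fun n => dx j (V n i))
    (fun n => hgm n i j) (fun n => h2 n i j)
  have hrate : Tendsto (fun n : ℕ => 2 * ((1 : ℝ) / 16) ^ n) atTop (𝓝 0) := by
    simpa using (tendsto_pow_atTop_nhds_zero_of_lt_one (r := (1 / 16 : ℝ)) (by norm_num)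
      (by norm_num)).const_mul 2
  have hHlim : ∀ i j, Tendsto (fun n => ∫ z, (dx j (V n i) z - H i j z) ^ 2 ∂P.μ) atTop (𝓝 0) :=
    fun i j => squeeze_zero (fun n => integral_nonneg fun z => sq_nonneg _) (hHr i j) hrate
  refine ⟨U, H, hU, hUb, hUlim, hHm, hH2, hHlim, ?_⟩
  have hμ : P.μ = (volume.restrict (Ioo 0 P.T)).prod (volume.restrict P.Ω) := by
    rw [Measure.prod_restrict]; rfl
  have hfinΩ : volume P.Ω < ⊤ := om_fin P.hb
  have : IsFiniteMeasure (volume.restrict P.Ω) := ⟨by simpa using hfinΩ⟩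
  -- divergence
  have hdiv : ∀ᵐ z ∂P.μ, ∑ i, H i i z = 0 := by
    have hm : MemLp (fun z => ∑ i, H i i z) 2 P.μ := memLp_finsetSum _ fun i _ => hH2 i i
    have hz : ∫ z, (∑ i, H i i z) ^ 2 ∂P.μ = 0 := by
      refine le_antisymm ?_ (integral_nonneg fun z => sq_nonneg _)
      have hl : Tendsto (fun n => 3 * ∑ i, ∫ z, (dx i (V n i) z - H i i z) ^ 2 ∂P.μ) atTop
          (𝓝 0) := by
        have := (tendsto_finsetSum Finset.univ fun i _ => hHlim i i).const_mul 3
        simpa using this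
      refine ge_of_tendsto' hl fun n => ?_
      have hi : ∀ i, Integrable (fun z => (dx i (V n i) z - H i i z) ^ 2) P.μ := fun i =>
        int_sq ((hgm n i i).sub (hH2 i i))
      rw [← integral_finsetSum _ (fun i _ => hi i), ← integral_const_mul]
      refine integral_mono (int_sq hm) ((integrable_finsetSum _ fun i _ =>
        hi i).const_mul 3) fun z => ?_
      have hd := (hV n).div z
      simp only [Fin.sum_univ_three] at hd ⊢
      have e : H 0 0 z + H 1 1 z + H 2 2 z = -((dx 0 (V n 0) z - H 0 0 z)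
        + (dx 1 (V n 1) z - H 1 1 z) + (dx 2 (V n 2) z - H 2 2 z)) := by linarith
      rw [e]
      nlinarith [sq_nonneg ((dx 0 (V n 0) z - H 0 0 z) - (dx 1 (V n 1) z - H 1 1 z)),
        sq_nonneg ((dx 0 (V n 0) z - H 0 0 z) - (dx 2 (V n 2) z - H 2 2 z)),
        sq_nonneg ((dx 1 (V n 1) z - H 1 1 z) - (dx 2 (V n 2) z - H 2 2 z))]
    have := (integral_eq_zero_iff_of_nonneg (fun z => sq_nonneg _) (int_sq hm)).1 hz
    filter_upwards [this] with z hz'
    simpa using hz'
  rw [hμ] at hdiv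
  have hdiv' := Measure.ae_ae_of_ae_prod hdiv
  -- slices
  have hsl : ∀ i j, ∀ᵐ t ∂(volume.restrict (Ioo 0 P.T)),
      (∀ n, MemLp (fun x => dx j (V n i) (t, x) - H i j (t, x)) 2 (volume.restrict P.Ω)) ∧
      Tendsto (fun n => ∫ x in P.Ω, (dx j (V n i) (t, x) - H i j (t, x)) ^ 2) atTop (𝓝 0) := by
    intro i j
    refine slices (fun n z => dx j (V n i) z - H i j z)
      (fun n => (hc n i j).measurable.sub (hHm i j)) (fun n => ?_) (fun n => ?_)
    · rw [← hμ]; exact (hgm n i j).sub (hH2 i j)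
    · rw [← hμ]; exact hHr i j n
  filter_upwards [hdiv', ae_all_iff.2 fun i => ae_all_iff.2 fun j => hsl i j] with t htd hts
  obtain ⟨⟨⟨hw, hG, hweak⟩, φ, hφ, hφv, hφG⟩, hw0d⟩ := P.hw0
  -- the approximants
  have hVs : ∀ n i, ContDiff ℝ ∞ (fun x : V3 => V n i (t, x)) := fun n i =>
    ((hV n).smooth i).comp (contDiff_prodMk_right t)
  have hVc : ∀ n i, HasCompactSupport (fun x : V3 => V n i (t, x)) := fun n i =>
    slice_compact ((hV n).compact i) t
  have hVsup : ∀ n i, tsupport (fun x : V3 => V n i (t, x)) ⊆ P.Ω := by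
    intro n i
    have hK : IsCompact (Prod.snd '' tsupport (V n i)) :=
      ((hV n).compact i).isCompact.image continuous_snd
    have h3 : tsupport (fun x : V3 => V n i (t, x)) ⊆ Prod.snd '' tsupport (V n i) :=
      closure_minimal (fun x hx => ⟨(t, x), subset_tsupport _ hx, rfl⟩) hK.isClosed
    refine h3.trans ?_
    rintro _ ⟨z, hz, rfl⟩
    exact ((hV n).supp i hz).2
  have hφi : ∀ n i, ContDiff ℝ ∞ (fun x : V3 => φ n x i) := fun n i =>
    (contDiff_pi.1 (hφ n).1) i
  have hφic : ∀ n i, HasCompactSupport (fun x : V3 => φ n x i) := fun n i =>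
    (hφ n).2.1.comp_left (g := fun y : V3 => y i) rfl
  have hφis : ∀ n i, tsupport (fun x : V3 => φ n x i) ⊆ P.Ω := fun n i => by
    refine (closure_mono ?_).trans (hφ n).2.2
    intro x hx hx'
    exact hx (by simp [hx'])
  have hψs : ∀ n i, ContDiff ℝ ∞ (fun x : V3 => φ n x i + V n i (t, x)) := fun n i =>
    (hφi n i).add (hVs n i)
  have hψc : ∀ n i, HasCompactSupport (fun x : V3 => φ n x i + V n i (t, x)) := fun n i =>
    (hφic n i).add (hVc n i)
  have hψsup : ∀ n i, tsupport (fun x : V3 => φ n x i + V n i (t, x)) ⊆ P.Ω := fun n i =>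
    (tsupport_add _ _).trans (union_subset (hφis n i) (hVsup n i))
  -- memberships
  have hwi : ∀ i, MemLp (fun x => P.w0 x i) 2 (volume.restrict P.Ω) := fun i =>
    memLp_pi_iff.1 hw i
  have hGij : ∀ i j, MemLp (fun x => P.G0 x i j) 2 (volume.restrict P.Ω) := fun i j =>
    memLp_pi_iff.1 (memLp_pi_iff.1 hG i) j
  have hUt : ∀ i, MemLp (fun x => U i (t, x)) 2 (volume.restrict P.Ω) := by
    intro i
    obtain ⟨C, hC⟩ := hUb i
    refine MemLp.of_bound ((hU i).comp (Continuous.prodMk_right t)).aestronglyMeasurable C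
      (Eventually.of_forall fun x => ?_)
    rw [Real.norm_eq_abs]; exact (hC 0 (t, x)).2
  have hVt : ∀ n i, MemLp (fun x => V n i (t, x)) 2 (volume.restrict P.Ω) := fun n i =>
    ((hVs n i).continuous.memLp_of_hasCompactSupport (hVc n i)).mono_measure
      Measure.restrict_le_self
  have hφt : ∀ n i, MemLp (fun x => φ n x i) 2 (volume.restrict P.Ω) := fun n i =>
    ((hφi n i).continuous.memLp_of_hasCompactSupport (hφic n i)).mono_measure
      Measure.restrict_le_self
  have hpdc : ∀ (g : V3 → ℝ) (j : Fin 3), ContDiff ℝ ∞ g → HasCompactSupport g →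
      MemLp (pd j g) 2 (volume.restrict P.Ω) := fun g j hg hgc =>
    ((smooth_pd hg j).continuous.memLp_of_hasCompactSupport
      (hgc.mono' ((subset_tsupport _).trans (tsupport_pd_subset _ j)))).mono_measure
      Measure.restrict_le_self
  have hpdV : ∀ n i j x, pd j (fun y : V3 => V n i (t, y)) x = dx j (V n i) (t, x) :=
    fun n i j x => slice_fderiv ((hV n).smooth i) t x j
  have hHt : ∀ i j, MemLp (fun x => H i j (t, x)) 2 (volume.restrict P.Ω) := by
    intro i j
    have h3 := (hpdc _ j (hVs 0 i) (hVc 0 i)).sub ((hts i j).1 0)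
    refine h3.ae_eq (Eventually.of_forall fun x => ?_)
    simp only [Pi.sub_apply, hpdV]; ring
  -- convergence
  have hcv : ∀ i, Tendsto (fun n => ∫ x in P.Ω, ((φ n x i + V n i (t, x))
      - (P.w0 x i + U i (t, x))) ^ 2) atTop (𝓝 0) := by
    intro i
    have h3 : Tendsto (fun n => ∫ x in P.Ω, (V n i (t, x) - U i (t, x)) ^ 2) atTop (𝓝 0) := by
      obtain ⟨C, hC⟩ := hUb i
      have : Tendsto (fun n => ∫ x in P.Ω, (V n i (t, x) - U i (t, x)) ^ 2) atTop
          (𝓝 (∫ x in P.Ω, (0 : ℝ))) := by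
        refine tendsto_integral_of_dominated_convergence (fun _ => (2 * C) ^ 2)
          (fun n => (int_sq ((hVt n i).sub (hUt i))).aestronglyMeasurable)
          (integrable_const _) (fun n => Eventually.of_forall fun x => ?_)
          (Eventually.of_forall fun x => ?_)
        · rw [Real.norm_eq_abs, abs_of_nonneg (sq_nonneg _)]
          refine sq_le_sq' ?_ ?_ <;>
          · have h4 := abs_le.1 (hC n (t, x)).1
            have h5 := abs_le.1 (hC n (t, x)).2
            linarith [h4.1, h4.2, h5.1, h5.2]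
        · have h6 := ((hUlim i (t, x)).sub_const (U i (t, x))).pow 2
          simpa using h6
      simpa using this
    have h7 := l2_add (fun n => (hφt n i).sub (hwi i)) (fun n => (hVt n i).sub (hUt i))
      (by simpa using hφv i) (by simpa using h3)
    refine h7.congr fun n => integral_congr_ae (Eventually.of_forall fun x => ?_)
    simp only [Pi.sub_apply]; ring
  have hcG : ∀ i j, Tendsto (fun n => ∫ x in P.Ω, (pd j (fun y => φ n y i + V n i (t, y)) x
      - (P.G0 x i j + H i j (t, x))) ^ 2) atTop (𝓝 0) := by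
    intro i j
    have h7 := l2_add (fun n => (hpdc _ j (hφi n i) (hφic n i)).sub (hGij i j))
      (fun n => (hts i j).1 n) (by simpa using hφG i j) (hts i j).2
    refine h7.congr fun n => integral_congr_ae (Eventually.of_forall fun x => ?_)
    have h8 : pd j (fun y => φ n y i + V n i (t, y)) x
        = pd j (fun y => φ n y i) x + dx j (V n i) (t, x) := by
      rw [← hpdV]
      unfold pd
      rw [fderiv_fun_add (((hφi n i).differentiable (by simp)) x)
        (((hVs n i).differentiable (by simp)) x)]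
      rfl
    simp only [Pi.sub_apply, h8]; ring
  refine ⟨⟨⟨?_, ?_, ?_⟩, fun n x i => φ n x i + V n i (t, x), fun n => ⟨?_, ?_, ?_⟩, hcv, hcG⟩,
    ?_⟩
  · exact memLp_pi_iff.2 fun i => (hwi i).add (hUt i)
  · exact memLp_pi_iff.2 fun i => memLp_pi_iff.2 fun j => (hGij i j).add (hHt i j)
  · intro ψ hψ hψc' _ i j
    exact weak_of_approx (fun n x => φ n x i + V n i (t, x)) (fun n => hψs n i)
      (fun n => hψc n i) (fun n => hψsup n i) _ _ j ((hwi i).add (hUt i))
      ((hGij i j).add (hHt i j)) (hcv i) (hcG i j) ψ hψ hψc'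
  · exact contDiff_pi.2 fun i => hψs n i
  · refine HasCompactSupport.intro (K := ⋃ i, tsupport (fun x : V3 => φ n x i + V n i (t, x)))
      (isCompact_iUnion fun i => (hψc n i).isCompact) fun x hx => ?_
    ext i
    simp only [mem_iUnion, not_exists] at hx
    exact image_eq_zero_of_notMem_tsupport
      (f := fun x : V3 => φ n x i + V n i (t, x)) (hx i)
  · have h9 : tsupport (fun (x : V3) (i : Fin 3) => φ n x i + V n i (t, x))
        ⊆ ⋃ i, tsupport (fun x : V3 => φ n x i + V n i (t, x)) := by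
      refine closure_minimal (fun x hx => ?_) (isCompact_iUnion fun i =>
        (hψc n i).isCompact).isClosed
      by_contra h10
      simp only [mem_iUnion, not_exists] at h10
      apply hx
      ext i
      exact image_eq_zero_of_notMem_tsupport
        (f := fun x : V3 => φ n x i + V n i (t, x)) (h10 i)
    exact h9.trans (iUnion_subset fun i => hψsup n i)
  · filter_upwards [htd, hw0d] with x hx hx'
    rw [Finset.sum_add_distrib, hx, hx', add_zero]

end H37.LES
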