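import Pool.Agent.H37.LES.Defs
import Pool.Agent.H36.MHD.Limit

/-!
# MP_544ca6_an, module L10: the residual of the initial velocity
-/

open MeasureTheory Set Filter Topology
open scoped ContDiff ENNReal
open H36.MHD

noncomputable section

namespace H37.LES.Zero

lemma mu_prod (P : Prob) :
    P.μ = (volume.restrict (Ioo 0 P.T)).prod (volume.restrict P.Ω) := by
  rw [Measure.prod_restrict]; rfl

lemma memLp_snd (P : Prob) {g : V3 → ℝ} (hg : MemLp g 2 (volume.restrict P.Ω)) :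
    MemLp (fun z : X => g z.2) 2 P.μ := by
  rw [mu_prod]; exact hg.comp_snd _

lemma int_snd (P : Prob) {g : V3 → ℝ} (hg : Integrable g (volume.restrict P.Ω)) :
    Integrable (fun z : X => g z.2) P.μ := by
  rw [mu_prod]; exact hg.comp_snd _

lemma mulI {α : Type*} [MeasurableSpace α] {μ : Measure α} {f g : α → ℝ} (hf : MemLp f 2 μ)
    (hg : MemLp g 2 μ) : Integrable (fun z => f z * g z) μ := hf.integrable_mul hg

lemma sumI {α : Type*} [MeasurableSpace α] {μ : Measure α} {f : Fin 3 → α → ℝ}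
    (hf : ∀ i, Integrable (f i) μ) : Integrable (fun z => ∑ i, f i z) μ :=
  integrable_finsetSum _ fun i _ => hf i

lemma sum_int {α : Type*} [MeasurableSpace α] {μ : Measure α} {f : Fin 3 → α → ℝ}
    (hf : ∀ i, Integrable (f i) μ) : ∫ z, ∑ i, f i z ∂μ = ∑ i, ∫ z, f i z ∂μ :=
  integral_finsetSum _ fun i _ => hf i

lemma int_mul_cs (P : Prob) {g ψ : X → ℝ} (hg : MemLp g 2 P.μ) (hψ : Continuous ψ)
    (hc : HasCompactSupport ψ) : Integrable (fun z => g z * ψ z) P.μ :=
  mulI hg ((hψ.memLp_of_hasCompactSupport hc).mono_measure Measure.restrict_le_self)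

lemma int_mul_cs1 (P : Prob) {g ψ : X → ℝ} (hg : Integrable g P.μ) (hψ : Continuous ψ)
    (hc : HasCompactSupport ψ) : Integrable (fun z => g z * ψ z) P.μ := by
  obtain ⟨C, hC⟩ := bdd_cs hψ hc
  refine hg.mul_bdd (c := C) hψ.aestronglyMeasurable (Eventually.of_forall fun z => ?_)
  rw [Real.norm_eq_abs]; exact hC z

lemma dx_cs {g : X → ℝ} (hc : HasCompactSupport g) (j : Fin 3) : HasCompactSupport (dx j g) :=
  hc.mono' ((subset_tsupport _).trans (tsupport_dx_subset g j))

lemma dt_cs {g : X → ℝ} (hc : HasCompactSupport g) : HasCompactSupport (dt g) :=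
  hc.mono' ((subset_tsupport _).trans (tsupport_dt_subset g))

lemma time_part (P : Prob) {w : V3 → ℝ} (hw : MemLp w 2 (volume.restrict P.Ω)) {g : X → ℝ}
    (hg : ContDiff ℝ ∞ g) (hc : HasCompactSupport g) (hs : tsupport g ⊆ Iio P.T ×ˢ P.Ω) :
    ∫ z, w z.2 * dt g z ∂P.μ = - ∫ x in P.Ω, w x * g (0, x) := by
  have hint := int_mul_cs P (memLp_snd P hw) (smooth_dt hg).continuous (dt_cs hc)
  rw [mu_prod] at hint ⊢
  rw [integral_prod_symm _ hint, ← integral_neg]
  refine integral_congr_ae (Eventually.of_forall fun x => ?_)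
  show ∫ t in Ioo 0 P.T, w x * dt g (t, x) = - (w x * g (0, x))
  rw [integral_const_mul, ← integral_Ioc_eq_integral_Ioo,
    ← intervalIntegral.integral_of_le P.hT.le]
  have hcont : Continuous (fun t : ℝ => dt g (t, x)) :=
    (smooth_dt hg).continuous.comp (continuous_id.prodMk continuous_const)
  rw [intervalIntegral.integral_eq_sub_of_hasDerivAt (fun t _ => slice_deriv hg t x)
    (hcont.intervalIntegrable _ _)]
  rw [eq_zero_of_notMem (z := (P.T, x)) hs (fun h => lt_irrefl P.T (show P.T < P.T from h.1))]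
  ring

lemma div_zero (P : Prob) {φ : Fin 3 → X → ℝ} (hφ : P.IsTest φ) {t : ℝ} (ht : 0 < t) (x : V3)
    (j : Fin 3) : ∑ i, dx i (fun y => dx j (φ i) y) (t, x) = 0 := by
  have h1 : ∑ i, dx i (fun y => dx j (φ i) y) (t, x)
      = dx j (fun y => ∑ i, dx i (φ i) y) (t, x) := by
    rw [dx_sum (fun i => smooth_dx (hφ.smooth i) i)]
    exact Finset.sum_congr rfl fun i _ => dx_comm (hφ.smooth i) i j (t, x)
  rw [h1]
  have h2 : (fun y : X => ∑ i, dx i (φ i) y) =ᶠ[𝓝 (t, x)] fun _ => 0 := by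
    have : ∀ᶠ y : X in 𝓝 (t, x), 0 < y.1 :=
      continuous_fst.tendsto (t, x) |>.eventually (lt_mem_nhds ht)
    filter_upwards [this] with y hy
    exact hφ.div y hy.le
  unfold dx at h2 ⊢
  rw [h2.fderiv_eq]
  simp

lemma space_part (P : Prob) {φ : Fin 3 → X → ℝ} (hφ : P.IsTest φ) :
    ∫ z, ∑ i, ∑ j, P.G0 z.2 j i * dx j (φ i) z ∂P.μ = 0 := by
  obtain ⟨⟨⟨hw, hG, hweak⟩, -⟩, -⟩ := P.hw0
  have hGij : ∀ i j, MemLp (fun x => P.G0 x i j) 2 (volume.restrict P.Ω) := fun i j =>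
    memLp_pi_iff.1 (memLp_pi_iff.1 hG i) j
  have hwi : ∀ i, MemLp (fun x => P.w0 x i) 2 (volume.restrict P.Ω) := fun i =>
    memLp_pi_iff.1 hw i
  have hint : Integrable (fun z : X => ∑ i, ∑ j, P.G0 z.2 j i * dx j (φ i) z) P.μ :=
    integrable_finsetSum _ fun i _ => integrable_finsetSum _ fun j _ =>
      int_mul_cs P (memLp_snd P (hGij j i)) (smooth_dx (hφ.smooth i) j).continuous
        (dx_cs (hφ.compact i) j)
  rw [mu_prod] at hint ⊢
  rw [integral_prod _ hint]
  refine integral_eq_zero_of_ae ?_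
  filter_upwards [ae_restrict_mem measurableSet_Ioo] with t ht
  -- slices of test functions
  have hs : ∀ i j, ContDiff ℝ ∞ (fun y : V3 => dx j (φ i) (t, y)) := fun i j =>
    (smooth_dx (hφ.smooth i) j).comp (contDiff_prodMk_right t)
  have hc : ∀ i j, HasCompactSupport (fun y : V3 => dx j (φ i) (t, y)) := fun i j =>
    slice_compact (dx_cs (hφ.compact i) j) t
  have hsup : ∀ i j, tsupport (fun y : V3 => dx j (φ i) (t, y)) ⊆ P.Ω := by
    intro i j
    have hK : IsCompact (Prod.snd '' tsupport (dx j (φ i))) :=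
      (dx_cs (hφ.compact i) j).isCompact.image continuous_snd
    refine (closure_minimal (fun x hx => ⟨(t, x), subset_tsupport _ hx, rfl⟩)
      hK.isClosed : tsupport (fun y : V3 => dx j (φ i) (t, y))
        ⊆ Prod.snd '' tsupport (dx j (φ i))).trans ?_
    rintro _ ⟨z, hz, rfl⟩
    exact (hφ.supp i (tsupport_dx_subset _ _ hz)).2
  have m1 : ∀ i j, MemLp (fun y : V3 => dx j (φ i) (t, y)) 2 (volume.restrict P.Ω) := fun i j =>
    ((hs i j).continuous.memLp_of_hasCompactSupport (hc i j)).mono_measure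
      Measure.restrict_le_self
  have m2 : ∀ i j, MemLp (pd i (fun y : V3 => dx j (φ i) (t, y))) 2 (volume.restrict P.Ω) :=
    fun i j => ((smooth_pd (hs i j) i).continuous.memLp_of_hasCompactSupport
      ((hc i j).mono' ((subset_tsupport _).trans (tsupport_pd_subset _ i)))).mono_measure
      Measure.restrict_le_self
  have e1 : ∀ i j, ∫ x in P.Ω, P.G0 x j i * dx j (φ i) (t, x)
      = - ∫ x in P.Ω, P.w0 x j * pd i (fun y : V3 => dx j (φ i) (t, y)) x := fun i j => by
    rw [hweak _ (hs i j) (hc i j) (hsup i j) j i, neg_neg]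
  show ∫ x in P.Ω, ∑ i, ∑ j, P.G0 x j i * dx j (φ i) (t, x) = 0
  rw [sum_int fun i => sumI fun j => mulI (hGij j i) (m1 i j)]
  have e2 : ∀ i, ∫ x in P.Ω, ∑ j, P.G0 x j i * dx j (φ i) (t, x)
      = - ∫ x in P.Ω, ∑ j, P.w0 x j * pd i (fun y : V3 => dx j (φ i) (t, y)) x := by
    intro i
    rw [sum_int fun j => mulI (hGij j i) (m1 i j), sum_int fun j => mulI (hwi j) (m2 i j),
      ← Finset.sum_neg_distrib]
    exact Finset.sum_congr rfl fun j _ => e1 i j
  simp only [e2]
  rw [Finset.sum_neg_distrib, ← sum_int fun i => sumI fun j => mulI (hwi j) (m2 i j)]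
  rw [neg_eq_zero]
  refine integral_eq_zero_of_ae (Eventually.of_forall fun x => ?_)
  show ∑ i, ∑ j, P.w0 x j * pd i (fun y : V3 => dx j (φ i) (t, y)) x = 0
  rw [Finset.sum_comm]
  refine Finset.sum_eq_zero fun j _ => ?_
  rw [← Finset.mul_sum]
  have e3 : ∀ i, pd i (fun y : V3 => dx j (φ i) (t, y)) x = dx i (fun y => dx j (φ i) y) (t, x) :=
    fun i => slice_fderiv (smooth_dx (hφ.smooth i) j) t x i
  simp only [e3]
  rw [div_zero P hφ ht.1 x j, mul_zero]

theorem stage_zero_of (P : Prob)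
    (hA : ∃ C, 0 ≤ C ∧ ∀ h : Fin 3 → X → ℝ, (∀ i, Integrable (h i) P.μ) →
      ∃ R, P.IsErr R ∧ P.L1 R ≤ C * ∑ i, ∫ z, |h i z| ∂P.μ ∧
        ∀ φ, P.IsTest φ → ∫ z, ∑ i, h i z * φ i z ∂P.μ = P.Bd R φ) :
    ∃ R, P.IsErr R ∧ ∀ φ, P.IsTest φ → P.Res (fun _ _ => 0) φ = P.Bd R φ := by
  obtain ⟨C, -, hA⟩ := hA
  obtain ⟨⟨⟨hw, hG, -⟩, -⟩, -⟩ := P.hw0
  have hGij : ∀ i j, MemLp (fun x => P.G0 x i j) 2 (volume.restrict P.Ω) := fun i j =>
    memLp_pi_iff.1 (memLp_pi_iff.1 hG i) j
  have hwi : ∀ i, MemLp (fun x => P.w0 x i) 2 (volume.restrict P.Ω) := fun i =>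
    memLp_pi_iff.1 hw i
  have hf : ∀ i, Integrable (fun z => P.f z i) P.μ := fun i => P.hf.eval i
  have hwG : ∀ i j, Integrable (fun z : X => P.w0 z.2 j * P.G0 z.2 i j) P.μ := fun i j =>
    int_snd P (mulI (hwi j) (hGij i j))
  have hGG : ∀ i j l, Integrable (fun z : X => P.G0 z.2 i l * P.G0 z.2 j l) P.μ := fun i j l =>
    int_snd P (mulI (hGij i l) (hGij j l))
  have hG1 : ∀ i j, Integrable (fun z : X => P.G0 z.2 i j) P.μ := fun i j => by
    have hfin : volume P.Ω < ⊤ := om_fin P.hb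
    have : IsFiniteMeasure (volume.restrict P.Ω) := ⟨by simpa using hfin⟩
    exact int_snd P ((hGij i j).integrable (by norm_num))
  obtain ⟨R, hR, -, hR'⟩ := hA (fun i z => (∑ j, P.w0 z.2 j * P.G0 z.2 i j) - P.f z i)
    (fun i => (integrable_finsetSum _ fun j _ => hwG i j).sub (hf i))
  refine ⟨fun i j z => R i j z + P.nu * (P.G0 z.2 i j + P.G0 z.2 j i)
    - P.al * ∑ l, P.G0 z.2 i l * P.G0 z.2 j l, ⟨fun i j => ?_, fun i j z => ?_⟩, fun φ hφ => ?_⟩
  · exact ((hR.int i j).add (((hG1 i j).add (hG1 j i)).const_mul _)).sub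
      ((integrable_finsetSum _ fun l _ => hGG i j l).const_mul _)
  · rw [hR.symm i j z, add_comm (P.G0 z.2 i j)]
    congr 2
    exact Finset.sum_congr rfl fun l _ => mul_comm _ _
  · have c0 : ∀ i, Continuous (φ i) := fun i => (hφ.smooth i).continuous
    have c1 : ∀ i j, Continuous (dx j (φ i)) := fun i j => (smooth_dx (hφ.smooth i) j).continuous
    have c2 : ∀ i, Continuous (dt (φ i)) := fun i => (smooth_dt (hφ.smooth i)).continuous
    have i1 : Integrable (fun z : X => ∑ i, P.w0 z.2 i * dt (φ i) z) P.μ :=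
      integrable_finsetSum _ fun i _ => int_mul_cs P (memLp_snd P (hwi i)) (c2 i)
        (dt_cs (hφ.compact i))
    have i2 : Integrable (fun z : X => ∑ i, ((∑ j, P.w0 z.2 j * P.G0 z.2 i j) - P.f z i) * φ i z)
        P.μ := integrable_finsetSum _ fun i _ => int_mul_cs1 P
          ((integrable_finsetSum _ fun j _ => hwG i j).sub (hf i)) (c0 i) (hφ.compact i)
    have i3 : Integrable (fun z : X => ∑ i, ∑ j, P.G0 z.2 j i * dx j (φ i) z) P.μ :=
      integrable_finsetSum _ fun i _ => integrable_finsetSum _ fun j _ =>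
        int_mul_cs P (memLp_snd P (hGij j i)) (c1 i j) (dx_cs (hφ.compact i) j)
    have i4 : Integrable (fun z : X => ∑ i, ∑ j, (P.nu * (P.G0 z.2 i j + P.G0 z.2 j i)
        - P.al * ∑ l, P.G0 z.2 i l * P.G0 z.2 j l) * dx j (φ i) z) P.μ :=
      integrable_finsetSum _ fun i _ => integrable_finsetSum _ fun j _ =>
        int_mul_cs1 P ((((hG1 i j).add (hG1 j i)).const_mul _).sub
          ((integrable_finsetSum _ fun l _ => hGG i j l).const_mul _)) (c1 i j)
          (dx_cs (hφ.compact i) j)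
    have i5 : Integrable (fun z : X => ∑ i, ∑ j, R i j z * dx j (φ i) z) P.μ :=
      integrable_finsetSum _ fun i _ => integrable_finsetSum _ fun j _ =>
        int_mul_cs1 P (hR.int i j) (c1 i j) (dx_cs (hφ.compact i) j)
    have hE : ∀ z : X, ((-∑ i, P.W (fun _ _ => 0) i z * dt (φ i) z)
        + (∑ i, ∑ j, P.W (fun _ _ => 0) j z * P.G (fun _ _ => 0) i j z * φ i z)
        + P.nu * (∑ i, ∑ j, P.G (fun _ _ => 0) i j z * dx j (φ i) z)
        - P.al * (∑ i, ∑ j, (∑ l, P.G (fun _ _ => 0) i l z * P.G (fun _ _ => 0) j l z)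
          * dx j (φ i) z)
        - ∑ i, P.f z i * φ i z)
        = (((∑ i, ((∑ j, P.w0 z.2 j * P.G0 z.2 i j) - P.f z i) * φ i z)
          - (∑ i, P.w0 z.2 i * dt (φ i) z))
          + (∑ i, ∑ j, (P.nu * (P.G0 z.2 i j + P.G0 z.2 j i)
            - P.al * ∑ l, P.G0 z.2 i l * P.G0 z.2 j l) * dx j (φ i) z))
          - P.nu * (∑ i, ∑ j, P.G0 z.2 j i * dx j (φ i) z) := by
      intro z
      have d0 : ∀ j (z : X), dx j (fun _ : X => (0 : ℝ)) z = 0 := fun j z => by simp [dx]
      simp only [Prob.W, Prob.G, d0, add_zero, Fin.sum_univ_three]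
      ring
    unfold Prob.Res
    rw [integral_congr_ae (Eventually.of_forall hE)]
    have s1 := integral_sub (((i2.sub i1).add i4)) (i3.const_mul P.nu)
    have s2 := integral_add (i2.sub i1) i4
    have s3 := integral_sub i2 i1
    simp only [Pi.sub_apply, Pi.add_apply] at s1 s2 s3
    rw [s1, s2, s3, integral_const_mul, space_part P hφ, hR' φ hφ]
    have hT : ∫ z, ∑ i, P.w0 z.2 i * dt (φ i) z ∂P.μ
        = - ∫ x in P.Ω, ∑ i, P.w0 x i * φ i (0, x) := by
      rw [integral_finsetSum _ fun i _ => int_mul_cs P (memLp_snd P (hwi i)) (c2 i)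
        (dt_cs (hφ.compact i))]
      rw [integral_finsetSum, ← Finset.sum_neg_distrib]
      · exact Finset.sum_congr rfl fun i _ => time_part P (hwi i) (hφ.smooth i) (hφ.compact i)
          (hφ.supp i)
      · intro i _
        have hs0 : Continuous (fun x : V3 => φ i (0, x)) :=
          (c0 i).comp (Continuous.prodMk_right 0)
        exact mulI (hwi i) ((hs0.memLp_of_hasCompactSupport
          (slice_compact (hφ.compact i) 0)).mono_measure Measure.restrict_le_self)
    rw [hT]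
    unfold Prob.Bd
    rw [mul_zero, sub_zero, sub_neg_eq_add, add_assoc, add_comm (∫ x in P.Ω, _) _, ← add_assoc,
      add_sub_cancel_right, ← integral_add i5 i4]
    refine integral_congr_ae (Eventually.of_forall fun z => ?_)
    simp only [Fin.sum_univ_three]
    ring

end H37.LES.Zero
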