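import Mathlib

set_option autoImplicit false

open MeasureTheory Set

namespace Pool.Agent.H63.MS

/-- `A` is symmetric: invariant under some reflection `t ↦ 2 * x - t`. -/
def SymmetricSet (A : Set ℝ) : Prop := ∃ x : ℝ, (fun t => 2 * x - t) '' A = A

/-- `χ` restricted to `[0,1]` is a measurable `r`-colouring of `[0,1]`: all colour classes inside
`[0,1]` are Lebesgue measurable. (The values of `χ` outside `[0,1]` play no role.) -/
def MeasurableColouring (r : ℕ) (χ : ℝ → Fin r) : Prop :=
  ∀ i : Fin r, NullMeasurableSet (Icc (0:ℝ) 1 ∩ {t | χ t = i}) volume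

/-- `ε > 0` is attained by `r`: every measurable `r`-colouring of `[0,1]` has a Lebesgue measurable
symmetric set `A ⊆ [0,1]` inside one colour class with measure at least `ε`. -/
def Attained (r : ℕ) (ε : ℝ) : Prop :=
  0 < ε ∧ ∀ χ : ℝ → Fin r, MeasurableColouring r χ →
    ∃ A : Set ℝ, A ⊆ Icc 0 1 ∧ NullMeasurableSet A volume ∧ SymmetricSet A ∧
      (∃ i : Fin r, ∀ t ∈ A, χ t = i) ∧ ENNReal.ofReal ε ≤ volume A

/-- `ms([0,1], r)`. -/
noncomputable def ms (r : ℕ) : ℝ := sSup {ε : ℝ | Attained r ε}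

end Pool.Agent.H63.MS
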