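import Mathlib

set_option autoImplicit false

open MeasureTheory Set

namespace Pool.Agent.H63.MS

/-- Fubini step: for a measurable `B` inside `[0,1]` whose self-sum representation function is at most `M`,
the double integral of a nonnegative continuous function of the sum is at most `M` times its integral. -/
theorem double_integral_le (B : Set ℝ) (hB : MeasurableSet B) (hB1 : B ⊆ Icc 0 1) (M : ℝ)
    (hM : ∀ s : ℝ, volume.real (B ∩ {x | s - x ∈ B}) ≤ M)
    (ψ : ℝ → ℝ) (hψ : Continuous ψ) (hψ0 : ∀ s, 0 ≤ ψ s) :
    ∫ x in B, ∫ y in B, ψ (x + y) ≤ M * ∫ s in (0:ℝ)..2, ψ s := by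
  classical
  have hvB : volume B ≠ ⊤ := by
    refine ne_top_of_le_ne_top ?_ (measure_mono hB1)
    simp
  have : IsFiniteMeasure (volume.restrict B) := ⟨by
    rw [Measure.restrict_apply_univ]; exact lt_top_iff_ne_top.mpr hvB⟩
  set F : ℝ → ℝ → ℝ := fun x s => B.indicator (fun _ => (1:ℝ)) (s - x) * ψ s with hF
  have inner : ∀ x ∈ B, ∫ y in B, ψ (x + y) = ∫ s in Icc (0:ℝ) 2, F x s := by
    intro x hx
    have e1 : ∫ y in B, ψ (x + y) = ∫ y, B.indicator (fun _ => (1:ℝ)) y * ψ (x + y) := by
      rw [← integral_indicator hB]
      congr 1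
      ext y
      by_cases hy : y ∈ B <;> simp [hy]
    have e2 : ∫ y, B.indicator (fun _ => (1:ℝ)) y * ψ (x + y) = ∫ s, F x s := by
      rw [← integral_sub_right_eq_self (fun y => B.indicator (fun _ => (1:ℝ)) y * ψ (x + y)) x]
      congr 1
      ext s
      simp only [hF]
      rw [add_sub_cancel]
    have e3 : ∫ s, F x s = ∫ s in Icc (0:ℝ) 2, F x s := by
      symm
      apply setIntegral_eq_integral_of_forall_compl_eq_zero
      intro s hs
      have : s - x ∉ B := by
        intro hmem
        apply hs
        have h1 := hB1 hx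
        have h2 := hB1 hmem
        constructor <;> [linarith [h1.1, h2.1]; linarith [h1.2, h2.2]]
      simp [hF, this]
    rw [e1, e2, e3]
  have hint : Integrable (Function.uncurry F) ((volume.restrict B).prod (volume.restrict (Icc (0:ℝ) 2))) := by
    obtain ⟨c, hc⟩ : ∃ c, ∀ s ∈ Icc (0:ℝ) 2, |ψ s| ≤ c := by
      obtain ⟨c, hc⟩ := isCompact_Icc.exists_bound_of_continuousOn (hψ.continuousOn (s := Icc (0:ℝ) 2))
      exact ⟨c, fun s hs => by simpa using hc s hs⟩
    have hmeas : Measurable (Function.uncurry F) := by
      have h1 : Measurable (fun p : ℝ × ℝ => B.indicator (fun _ => (1:ℝ)) (p.2 - p.1)) :=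
        (measurable_const.indicator hB).comp (measurable_snd.sub measurable_fst)
      exact h1.mul (hψ.measurable.comp measurable_snd)
    refine Integrable.mono' (g := fun _ => c) (integrable_const c) hmeas.aestronglyMeasurable ?_
    rw [Measure.prod_restrict]
    refine (ae_restrict_iff' (hB.prod measurableSet_Icc)).mpr (Filter.Eventually.of_forall ?_)
    rintro ⟨x, s⟩ ⟨_, hs⟩
    simp only [Function.uncurry, hF]
    by_cases hy : s - x ∈ B
    · simpa [hy] using hc s hs
    · simp only [Set.indicator_of_notMem hy, zero_mul, norm_zero]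
      exact (abs_nonneg _).trans (hc s hs)
  calc ∫ x in B, ∫ y in B, ψ (x + y) = ∫ x in B, ∫ s in Icc (0:ℝ) 2, F x s :=
        setIntegral_congr_fun hB (fun x hx => inner x hx)
    _ = ∫ s in Icc (0:ℝ) 2, ∫ x in B, F x s := integral_integral_swap hint
    _ ≤ ∫ s in Icc (0:ℝ) 2, M * ψ s := by
        apply setIntegral_mono_on
        · exact hint.swap.integral_prod_left
        · exact ((continuous_const.mul hψ).continuousOn).integrableOn_Icc
        · exact measurableSet_Icc
        · intro s _
          have e : ∫ x in B, F x s = volume.real (B ∩ {x | s - x ∈ B}) * ψ s := by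
            simp only [hF]
            rw [integral_mul_const]
            congr 1
            have hm : MeasurableSet {x : ℝ | s - x ∈ B} := (measurable_const.sub measurable_id) hB
            have : (fun x => B.indicator (fun _ => (1:ℝ)) (s - x)) = ({x : ℝ | s - x ∈ B}).indicator (fun _ => (1:ℝ)) := by
              ext x; rfl
            rw [this, integral_indicator hm, Measure.restrict_restrict hm]
            simp [Measure.real, Set.inter_comm]
          rw [e]
          exact mul_le_mul_of_nonneg_right (hM s) (hψ0 s)
    _ = M * ∫ s in (0:ℝ)..2, ψ s := by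
        rw [integral_const_mul, intervalIntegral.integral_of_le (by norm_num), integral_Icc_eq_integral_Ioc]

end Pool.Agent.H63.MS
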