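import Mathlib

set_option autoImplicit false

open MeasureTheory Set Real

namespace Pool.Agent.H63.MS

/-- The angular frequency used in the lower bound. -/
noncomputable def om : ℝ := 6 * π / 5

/-- The constant `cos (π/5)`. -/
noncomputable def tau : ℝ := Real.cos (π / 5)

/-- The constant `sin (π/5)`. -/
noncomputable def sig : ℝ := Real.sin (π / 5)

/-- The truncated test function. -/
noncomputable def gg (y : ℝ) : ℝ := max 0 (Real.cos y + tau)

lemma gg_nonneg (y : ℝ) : 0 ≤ gg y := le_max_left _ _

lemma gg_ge (y : ℝ) : Real.cos y + tau ≤ gg y := le_max_right _ _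

lemma gg_cont : Continuous gg := by unfold gg; fun_prop

lemma gg_neg (y : ℝ) : gg (-y) = gg y := by simp [gg]

lemma cos_four : Real.cos (4 * π / 5) = - tau := by
  have : 4 * π / 5 = π - π / 5 := by ring
  rw [this, Real.cos_pi_sub, tau]

lemma sin_four : Real.sin (4 * π / 5) = sig := by
  have : 4 * π / 5 = π - π / 5 := by ring
  rw [this, Real.sin_pi_sub, sig]

lemma cos_om : Real.cos om = - tau := by
  have : om = π / 5 + π := by unfold om; ring
  rw [this, Real.cos_add_pi, tau]

lemma sin_om : Real.sin om = - sig := by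
  have : om = π / 5 + π := by unfold om; ring
  rw [this, Real.sin_add_pi, sig]

lemma gg_zero {y : ℝ} (h1 : 4 * π / 5 ≤ y) (h2 : y ≤ om) : gg y = 0 := by
  unfold gg
  apply max_eq_left
  have : Real.cos (π / 5) ≤ Real.cos (|y - π|) := by
    apply Real.cos_le_cos_of_nonneg_of_le_pi (abs_nonneg _)
    · linarith [Real.pi_pos]
    · unfold om at h2
      rw [abs_le]; constructor <;> linarith
  rw [Real.cos_abs, Real.cos_sub_pi] at this
  unfold tau
  linarith

lemma gg_main {y : ℝ} (h1 : |y| ≤ 4 * π / 5) : gg y = Real.cos y + tau := by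
  unfold gg
  apply max_eq_right
  have : Real.cos (4 * π / 5) ≤ Real.cos (|y|) := by
    apply Real.cos_le_cos_of_nonneg_of_le_pi (abs_nonneg _)
    · linarith [Real.pi_pos]
    · exact h1
  rw [Real.cos_abs, cos_four] at this
  linarith

lemma gg_extra {y β : ℝ} (hβ0 : 0 ≤ β) (hβ : β ≤ π / 2) (h1 : om ≤ y) (h2 : y ≤ om + β) :
    gg y = Real.cos y + tau := by
  unfold gg
  apply max_eq_right
  have e : Real.cos y = Real.cos (|2 * π - y|) := by
    rw [Real.cos_abs, Real.cos_two_pi_sub]
  have : Real.cos (4 * π / 5) ≤ Real.cos (|2 * π - y|) := by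
    apply Real.cos_le_cos_of_nonneg_of_le_pi (abs_nonneg _)
    · linarith [Real.pi_pos]
    · unfold om at h1 h2
      rw [abs_le]; constructor <;> linarith [Real.pi_pos]
  rw [← e, cos_four] at this
  linarith

lemma int_gg (β : ℝ) (hβ0 : 0 ≤ β) (hβ : β ≤ π / 2) :
    ∫ y in (-om + β)..(om + β), gg y ≤
      2 * sig + 2 * tau * (4 * π / 5) + (sig * (1 - Real.cos β) + tau * (β - Real.sin β)) := by
  have hpi := Real.pi_pos
  have hii : ∀ a b : ℝ, IntervalIntegrable gg volume a b := fun a b => gg_cont.intervalIntegrable a b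
  have h0 : ∫ y in (-om + β)..(om + β), gg y ≤ ∫ y in (-om)..(om + β), gg y := by
    apply intervalIntegral.integral_mono_interval
    · linarith
    · unfold om; linarith
    · exact le_rfl
    · exact Filter.Eventually.of_forall (fun y => gg_nonneg y)
    · exact hii _ _
  have s1 : ∫ y in (-om)..(om + β), gg y = (∫ y in (-om)..(-(4 * π / 5)), gg y)
      + (∫ y in (-(4 * π / 5))..(4 * π / 5), gg y) + (∫ y in (4 * π / 5)..om, gg y)
      + (∫ y in om..(om + β), gg y) := by
    rw [intervalIntegral.integral_add_adjacent_intervals (hii _ _) (hii _ _),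
      intervalIntegral.integral_add_adjacent_intervals (hii _ _) (hii _ _),
      intervalIntegral.integral_add_adjacent_intervals (hii _ _) (hii _ _)]
  have z1 : ∫ y in (4 * π / 5)..om, gg y = 0 := by
    rw [intervalIntegral.integral_congr (g := fun _ => (0:ℝ))]
    · simp
    · intro y hy
      rw [uIcc_of_le (by unfold om; linarith)] at hy
      exact gg_zero hy.1 hy.2
  have z2 : ∫ y in (-om)..(-(4 * π / 5)), gg y = 0 := by
    have := intervalIntegral.integral_comp_neg (a := 4 * π / 5) (b := om) gg
    rw [← this]
    simp_rw [gg_neg]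
    exact z1
  have m1 : ∫ y in (-(4 * π / 5))..(4 * π / 5), gg y = 2 * sig + 2 * tau * (4 * π / 5) := by
    rw [intervalIntegral.integral_congr (g := fun y => Real.cos y + tau)]
    · rw [intervalIntegral.integral_add (Real.continuous_cos.intervalIntegrable _ _) (continuous_const.intervalIntegrable _ _)]
      simp only [integral_cos, intervalIntegral.integral_const, smul_eq_mul, Real.sin_neg, sin_four]
      ring
    · intro y hy
      rw [uIcc_of_le (by linarith)] at hy
      exact gg_main (abs_le.mpr hy)
  have m2 : ∫ y in om..(om + β), gg y = sig * (1 - Real.cos β) + tau * (β - Real.sin β) := by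
    rw [intervalIntegral.integral_congr (g := fun y => Real.cos y + tau)]
    · rw [intervalIntegral.integral_add (Real.continuous_cos.intervalIntegrable _ _) (continuous_const.intervalIntegrable _ _)]
      simp only [integral_cos, intervalIntegral.integral_const, smul_eq_mul, Real.sin_add, sin_om, cos_om]
      ring
    · intro y hy
      rw [uIcc_of_le (by linarith)] at hy
      exact gg_extra hβ0 hβ hy.1 hy.2
  rw [s1, z1, z2, m1, m2] at h0
  linarith

/-- The two test functions (shift to the left and to the right) have the same integral bound. -/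
lemma int_psi (β : ℝ) (hβ0 : 0 ≤ β) (hβ : β ≤ π / 2) (e : ℝ) (he : e = 1 ∨ e = -1) :
    ∫ s in (0:ℝ)..2, gg (om * (s - 1) + e * β) ≤
      (2 * sig + 2 * tau * (4 * π / 5) + (sig * (1 - Real.cos β) + tau * (β - Real.sin β))) / om := by
  have hpi := Real.pi_pos
  have hom : 0 < om := by unfold om; positivity
  have key : ∫ s in (0:ℝ)..2, gg (om * (s - 1) + β) ≤
      (2 * sig + 2 * tau * (4 * π / 5) + (sig * (1 - Real.cos β) + tau * (β - Real.sin β))) / om := by
    have e1 : ∫ s in (0:ℝ)..2, gg (om * (s - 1) + β) = om⁻¹ * ∫ y in (-om + β)..(om + β), gg y := by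
      have h := intervalIntegral.integral_comp_mul_add (a := 0) (b := 2) gg hom.ne' (-om + β)
      rw [smul_eq_mul] at h
      have e2 : om * 0 + (-om + β) = -om + β := by ring
      have e3 : om * 2 + (-om + β) = om + β := by ring
      rw [e2, e3] at h
      rw [← h]
      congr 1
      ext s
      congr 1
      ring
    rw [e1, div_eq_inv_mul]
    exact mul_le_mul_of_nonneg_left (int_gg β hβ0 hβ) (by positivity)
  rcases he with rfl | rfl
  · simpa using key
  · have e1 : ∫ s in (0:ℝ)..2, gg (om * (s - 1) + -1 * β) = ∫ s in (0:ℝ)..2, gg (om * (s - 1) + β) := by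
      have h := intervalIntegral.integral_comp_sub_left (a := 0) (b := 2)
        (fun s => gg (om * (s - 1) + β)) 2
      simp only [sub_zero, sub_self] at h
      rw [← h]
      congr 1
      ext s
      rw [← gg_neg]
      congr 1
      ring
    rw [e1]
    exact key

end Pool.Agent.H63.MS
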