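import Mathlib
import Pool.Agent.H63.MSLowerA
import Pool.Agent.H63.MSLowerB

set_option autoImplicit false

open MeasureTheory Set Real

namespace Pool.Agent.H63.MS

lemma gg_abs_le (y : ℝ) : |gg y| ≤ 2 := by
  rw [abs_of_nonneg (gg_nonneg y)]
  unfold gg
  apply max_le (by norm_num)
  have h1 := Real.cos_le_one y
  have h2 : tau ≤ 1 := Real.cos_le_one _
  linarith

lemma meas_sq_le (B : Set ℝ) (hB : MeasurableSet B) (hB1 : B ⊆ Icc 0 1) (M : ℝ)
    (hM : ∀ s : ℝ, volume.real (B ∩ {x | s - x ∈ B}) ≤ M) :
    (volume.real B) ^ 2 ≤ 2 * M := by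
  have h := double_integral_le B hB hB1 M hM (fun _ => 1) continuous_const (fun _ => zero_le_one)
  simp only [integral_const, smul_eq_mul, mul_one, intervalIntegral.integral_const, sub_zero,
    measureReal_restrict_apply MeasurableSet.univ, univ_inter] at h
  nlinarith [h]

/-- The one-class inequality. -/
theorem one_class (B : Set ℝ) (hB : MeasurableSet B) (hB1 : B ⊆ Icc 0 1) (M : ℝ)
    (hM : ∀ s : ℝ, volume.real (B ∩ {x | s - x ∈ B}) ≤ M)
    (β : ℝ) (hβ0 : 0 ≤ β) (hβ : β ≤ π / 2) (e : ℝ) (he : e = 1 ∨ e = -1)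
    (C S : ℝ) (hC : C = ∫ x in B, Real.cos (om * (x - 1 / 2)))
    (hS : S = ∫ x in B, Real.sin (om * (x - 1 / 2))) :
    Real.cos β * (C ^ 2 - S ^ 2) - e * Real.sin β * (2 * C * S) + tau * (volume.real B) ^ 2 ≤
      M * ((2 * sig + 2 * tau * (4 * π / 5) + (sig * (1 - Real.cos β) + tau * (β - Real.sin β))) / om) := by
  have hvB : volume B ≠ ⊤ := by
    refine ne_top_of_le_ne_top ?_ (measure_mono hB1)
    simp
  have : IsFiniteMeasure (volume.restrict B) := ⟨by
    rw [Measure.restrict_apply_univ]; exact lt_top_iff_ne_top.mpr hvB⟩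
  have hM0 : 0 ≤ M := le_trans measureReal_nonneg (hM 0)
  set μ := volume.restrict B with hμ
  set ψ : ℝ → ℝ := fun s => gg (om * (s - 1) + e * β) with hψ
  have hψc : Continuous ψ := by
    have := gg_cont
    simp only [hψ]
    fun_prop
  have h1 := double_integral_le B hB hB1 M hM ψ hψc (fun s => gg_nonneg _)
  have h2 : M * ∫ s in (0:ℝ)..2, ψ s ≤
      M * ((2 * sig + 2 * tau * (4 * π / 5) + (sig * (1 - Real.cos β) + tau * (β - Real.sin β))) / om) :=
    mul_le_mul_of_nonneg_left (int_psi β hβ0 hβ e he) hM0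
  refine le_trans ?_ (le_trans h1 h2)
  -- integrability
  have icos : Integrable (fun x => Real.cos (om * (x - 1 / 2))) μ :=
    Integrable.mono' (integrable_const (1:ℝ)) (by fun_prop)
      (Filter.Eventually.of_forall (fun x => by simpa using Real.abs_cos_le_one _))
  have isin : Integrable (fun x => Real.sin (om * (x - 1 / 2))) μ :=
    Integrable.mono' (integrable_const (1:ℝ)) (by fun_prop)
      (Filter.Eventually.of_forall (fun x => by simpa using Real.abs_sin_le_one _))
  set w : ℝ := e * β with hw
  set f : ℝ × ℝ → ℝ := fun p => Real.cos (om * (p.1 + p.2 - 1) + w) + tau with hf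
  have hfi : Integrable f (μ.prod μ) := by
    refine Integrable.mono' (integrable_const (2:ℝ)) (by simp only [hf]; fun_prop)
      (Filter.Eventually.of_forall (fun p => ?_))
    simp only [hf, Real.norm_eq_abs]
    have h1 := Real.abs_cos_le_one (om * (p.1 + p.2 - 1) + w)
    have h2 : |tau| ≤ 1 := Real.abs_cos_le_one _
    have h3 := abs_add_le (Real.cos (om * (p.1 + p.2 - 1) + w)) tau
    linarith
  have hgi : Integrable (fun p : ℝ × ℝ => ψ (p.1 + p.2)) (μ.prod μ) := by
    refine Integrable.mono' (integrable_const (2:ℝ)) ?_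
      (Filter.Eventually.of_forall (fun p => ?_))
    · exact (hψc.comp (continuous_fst.add continuous_snd)).aestronglyMeasurable
    · exact gg_abs_le _
  have hmono : ∫ p, f p ∂(μ.prod μ) ≤ ∫ p, ψ (p.1 + p.2) ∂(μ.prod μ) := by
    apply integral_mono hfi hgi
    intro p
    exact gg_ge _
  have hR : ∫ x in B, ∫ y in B, ψ (x + y) = ∫ p, ψ (p.1 + p.2) ∂(μ.prod μ) :=
    integral_integral (f := fun x y => ψ (x + y)) hgi
  have hL : ∫ p, f p ∂(μ.prod μ) = ∫ x, ∫ y, f (x, y) ∂μ ∂μ := integral_prod f hfi
  rw [hR]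
  refine le_trans (le_of_eq ?_) hmono
  rw [hL]
  have hm : ∫ _x, (1:ℝ) ∂μ = volume.real B := by
    simp [hμ, measureReal_restrict_apply MeasurableSet.univ]
  have inner : ∀ x : ℝ, ∫ y, f (x, y) ∂μ =
      (Real.cos w * C - Real.sin w * S) * Real.cos (om * (x - 1 / 2))
        + (-(Real.cos w * S) - Real.sin w * C) * Real.sin (om * (x - 1 / 2)) + tau * volume.real B := by
    intro x
    have e1 : (fun y => f (x, y)) = fun y =>
        (Real.cos w * Real.cos (om * (x - 1 / 2)) - Real.sin w * Real.sin (om * (x - 1 / 2)))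
          * Real.cos (om * (y - 1 / 2))
        + (-(Real.cos w * Real.sin (om * (x - 1 / 2))) - Real.sin w * Real.cos (om * (x - 1 / 2)))
          * Real.sin (om * (y - 1 / 2)) + tau * 1 := by
      ext y
      simp only [hf]
      have : om * (x + y - 1) + w = om * (x - 1 / 2) + om * (y - 1 / 2) + w := by ring
      rw [this, Real.cos_add, Real.cos_add, Real.sin_add]
      ring
    rw [e1, integral_add, integral_add, integral_const_mul, integral_const_mul, integral_const_mul, hm,
      ← hC, ← hS]
    · ring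
    · exact icos.const_mul _
    · exact isin.const_mul _
    · exact (icos.const_mul _).add (isin.const_mul _)
    · exact (integrable_const (1:ℝ)).const_mul _
  simp_rw [inner]
  have e2 : (fun x => (Real.cos w * C - Real.sin w * S) * Real.cos (om * (x - 1 / 2))
        + (-(Real.cos w * S) - Real.sin w * C) * Real.sin (om * (x - 1 / 2)) + tau * volume.real B) =
      fun x => (Real.cos w * C - Real.sin w * S) * Real.cos (om * (x - 1 / 2))
        + (-(Real.cos w * S) - Real.sin w * C) * Real.sin (om * (x - 1 / 2)) + (tau * volume.real B) * 1 := by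
    ext x; ring
  rw [e2, integral_add, integral_add, integral_const_mul, integral_const_mul, integral_const_mul, hm,
      ← hC, ← hS]
  · have hcw : Real.cos w = Real.cos β := by
      rcases he with rfl | rfl
      · simp [hw]
      · simp [hw]
    have hsw : Real.sin w = e * Real.sin β := by
      rcases he with rfl | rfl
      · simp [hw]
      · simp [hw]
    rw [hcw, hsw]
    ring
  · exact icos.const_mul _
  · exact isin.const_mul _
  · exact (icos.const_mul _).add (isin.const_mul _)
  · exact (integrable_const (1:ℝ)).const_mul _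

end Pool.Agent.H63.MS
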