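import Mathlib
import Pool.Agent.H63.MSLowerC

set_option autoImplicit false

open MeasureTheory Set Real

namespace Pool.Agent.H63.MS

lemma tau_eq : tau = (1 + √5) / 4 := Real.cos_pi_div_five

lemma sqrt5_gt : 2.236 < √5 := by
  rw [Real.lt_sqrt (by norm_num)]; norm_num

lemma sqrt5_lt : √5 < 2.23607 := by
  rw [Real.sqrt_lt' (by norm_num)]; norm_num

lemma tau_gt : 0.809 < tau := by
  rw [tau_eq]; have := sqrt5_gt; linarith

lemma tau_lt : tau < 0.80902 := by
  rw [tau_eq]; have := sqrt5_lt; linarith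

lemma sig_pos : 0 < sig := by
  unfold sig
  apply Real.sin_pos_of_pos_of_lt_pi
  · positivity
  · linarith [Real.pi_pos]

lemma sig_sq : sig ^ 2 = 1 - tau ^ 2 := by
  unfold sig tau
  linarith [Real.sin_sq_add_cos_sq (π / 5)]

lemma sig_lt : sig < 0.58782 := by
  have h1 := sig_sq
  have h2 := tau_gt
  have h3 := sig_pos
  nlinarith

lemma sig_gt : 0.58777 < sig := by
  have h1 := sig_sq
  have h2 := tau_lt
  have h2' := tau_gt
  have h3 := sig_pos
  nlinarith

/-- `β - sin β ≤ tan (β/2) (1 - cos β)`. -/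
lemma sub_sin_le (β : ℝ) (h0 : 0 ≤ β) (h1 : β ≤ π / 2) :
    β - Real.sin β ≤ Real.tan (β / 2) * (1 - Real.cos β) := by
  have hpi := Real.pi_pos
  set α := β / 2 with hα
  have hβ : β = 2 * α := by rw [hα]; ring
  have hα0 : 0 ≤ α := by rw [hα]; linarith
  have hα1 : α < π / 2 := by rw [hα]; linarith
  have hle := Real.le_tan hα0 hα1
  have hc : 0 < Real.cos α := Real.cos_pos_of_mem_Ioo ⟨by linarith, hα1⟩
  rw [hβ, Real.sin_two_mul, Real.cos_two_mul]
  have ht : Real.tan α * Real.cos α = Real.sin α := Real.tan_mul_cos hc.ne'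
  have hs : Real.sin α = Real.tan α * Real.cos α := ht.symm
  have e : Real.tan α * (1 - (2 * Real.cos α ^ 2 - 1)) = 2 * Real.tan α - 2 * (Real.tan α * Real.cos α) * Real.cos α := by ring
  rw [e, ht]
  linarith

/-- The quadratic inequality behind the tangent line trick. -/
lemma quad_aux (a q k t d : ℝ) (ha : 0 < a) (ht : 0 < t) (hk0 : 0 < k) (hk1 : k ≤ 1)
    (hq : q * (t + k * a) ≤ a * (a + t)) :
    0 ≤ t * (t + k * a) * d ^ 2 - 2 * (1 - k) * a * t * d + (1 - k) * a * (a - k * q) := by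
  have hp : 0 < t * (t + k * a) := by positivity
  have key : t * (t + k * a) *
      (t * (t + k * a) * d ^ 2 - 2 * (1 - k) * a * t * d + (1 - k) * a * (a - k * q)) =
      (t * (t + k * a) * d - (1 - k) * a * t) ^ 2
        + (1 - k) * a * t * k * (a * (a + t) - q * (t + k * a)) := by ring
  have h2 : 0 ≤ (t * (t + k * a) * d - (1 - k) * a * t) ^ 2
        + (1 - k) * a * t * k * (a * (a + t) - q * (t + k * a)) := by
    have : 0 ≤ (1 - k) := by linarith
    have : 0 ≤ (a * (a + t) - q * (t + k * a)) := by linarith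
    positivity
  rw [← key] at h2
  exact nonneg_of_mul_nonneg_right h2 hp

lemma lin_of_sq (c q k t m C : ℝ) (hc : 0 < c) (ht : 0 < t) (hk0 : 0 < k) (hk1 : k ≤ 1)
    (hq : q * (t + k * c ^ 2) ≤ c ^ 2 * (c ^ 2 + t)) (hD : 0 ≤ c ^ 2 - t * (m - 1))
    (hC : C ^ 2 ≤ k * (c ^ 2 + t - t * m ^ 2 + q * (1 - k))) :
    c * C ≤ c ^ 2 - t * (m - 1) := by
  have h := quad_aux (c ^ 2) q k t (m - 1) (by positivity) ht hk0 hk1 hq
  apply le_of_sq_le_sq _ hD
  have : (c * C) ^ 2 = c ^ 2 * C ^ 2 := by ring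
  rw [this]
  have h1 : c ^ 2 * C ^ 2 ≤ c ^ 2 * (k * (c ^ 2 + t - t * m ^ 2 + q * (1 - k))) :=
    mul_le_mul_of_nonneg_left hC (by positivity)
  refine h1.trans ?_
  nlinarith [h]
where
  le_of_sq_le_sq {x y : ℝ} (h : x ^ 2 ≤ y ^ 2) (hy : 0 ≤ y) : x ≤ y := by
    exact (abs_le_of_sq_le_sq' h hy).2

/-- The linear inequality satisfied by every class (algebraic form). -/
theorem class_alg (m C S M : ℝ) (_hm0 : 0 ≤ m) (hmM : m ^ 2 ≤ 2 * M)
    (hone0 : ∀ β : ℝ, 0 ≤ β → β ≤ π / 2 → ∀ e : ℝ, (e = 1 ∨ e = -1) →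
      Real.cos β * (C ^ 2 - S ^ 2) - e * Real.sin β * (2 * C * S) + tau * m ^ 2 ≤
      M * ((2 * sig + 2 * tau * (4 * π / 5) + (sig * (1 - Real.cos β) + tau * (β - Real.sin β))) / om))
    (r : ℝ) (hr : 0 < r) (hrM : r ^ 2 * M ≤ 0.7648) :
    0.5045 * (r * C) ≤ 0.5045 ^ 2 - tau * (r * m - 1) := by
  have htau := tau_gt
  have htau' := tau_lt
  have hsig := sig_pos
  have hsig' := sig_lt
  have hpi := Real.pi_gt_d4
  have hpi0 := Real.pi_pos
  have hom : 0 < om := by unfold om; positivity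
  have hm2 : (r * m) ^ 2 ≤ 2 * 0.7648 := by
    have h := hmM
    have : (r * m) ^ 2 = r ^ 2 * m ^ 2 := by ring
    rw [this]
    have h2 : r ^ 2 * m ^ 2 ≤ r ^ 2 * (2 * M) := mul_le_mul_of_nonneg_left h (by positivity)
    linarith
  have hm3 : r * m ≤ 1.24 := by
    by_contra hcon
    push Not at hcon
    nlinarith
  have hD : (0:ℝ) ≤ 0.5045 ^ 2 - tau * (r * m - 1) := by
    nlinarith
  rcases le_or_gt C 0 with hC0 | hC0
  · have : r * C ≤ 0 := mul_nonpos_of_nonneg_of_nonpos hr.le hC0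
    linarith
  -- main case
  set R := √(C ^ 2 + S ^ 2) with hR
  have hRsq : R ^ 2 = C ^ 2 + S ^ 2 := Real.sq_sqrt (by positivity)
  have hR0 : 0 < R := Real.sqrt_pos.mpr (by positivity)
  have hCR : C ≤ R := by
    apply Real.le_sqrt_of_sq_le
    nlinarith [sq_nonneg S]
  set k := C / R with hk
  have hk0 : 0 < k := by positivity
  have hk1 : k ≤ 1 := by rw [hk, div_le_one hR0]; exact hCR
  set β := Real.arccos k with hβ
  have hβ0 : 0 ≤ β := Real.arccos_nonneg _
  have hβ1 : β ≤ π / 2 := Real.arccos_le_pi_div_two.mpr hk0.le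
  have hcosβ : Real.cos β = k := Real.cos_arccos (by linarith) hk1
  have hsinβ : Real.sin β = |S| / R := by
    rw [hβ, Real.sin_arccos, hk]
    have : 1 - (C / R) ^ 2 = (|S| / R) ^ 2 := by
      rw [div_pow, div_pow, sq_abs]
      field_simp
      linarith
    rw [this]
    exact Real.sqrt_sq (by positivity)
  -- choose the sign
  obtain ⟨e, he, heS⟩ : ∃ e : ℝ, (e = 1 ∨ e = -1) ∧ e * S = -|S| := by
    rcases le_or_gt 0 S with h | h
    · exact ⟨-1, Or.inr rfl, by rw [abs_of_nonneg h]; ring⟩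
    · exact ⟨1, Or.inl rfl, by rw [abs_of_neg h]; ring⟩
  have hone := hone0 β hβ0 hβ1 e he
  have hlhs : Real.cos β * (C ^ 2 - S ^ 2) - e * Real.sin β * (2 * C * S) = C * R := by
    have e1 : e * Real.sin β * (2 * C * S) = Real.sin β * (2 * C) * (e * S) := by ring
    rw [e1, heS, hcosβ, hsinβ, hk]
    have : |S| * |S| = S ^ 2 := by rw [abs_mul_abs_self]; ring
    field_simp
    nlinarith [hRsq, this]
  rw [hlhs] at hone
  set X := (2 * sig + 2 * tau * (4 * π / 5) + (sig * (1 - Real.cos β) + tau * (β - Real.sin β))) / om with hX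
  have hX0 : 0 ≤ X := by
    have h1 : Real.sin β ≤ β := Real.sin_le hβ0
    have h2 : Real.cos β ≤ 1 := Real.cos_le_one β
    have h3 : 0 ≤ sig * (1 - Real.cos β) := mul_nonneg hsig.le (by linarith)
    have h4 : 0 ≤ tau * (β - Real.sin β) := mul_nonneg (by linarith) (by linarith)
    rw [hX]
    have h5 : 0 ≤ 2 * tau * (4 * π / 5) := by
      have : 0 ≤ tau := by linarith
      positivity
    apply div_nonneg _ hom.le
    linarith
  have hscaled : (r * C) * (r * R) + tau * (r * m) ^ 2 ≤ 0.7648 * X := by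
    have h1 : r ^ 2 * (C * R + tau * m ^ 2) ≤ r ^ 2 * (M * X) :=
      mul_le_mul_of_nonneg_left hone (by positivity)
    have h2 : r ^ 2 * M * X ≤ 0.7648 * X := mul_le_mul_of_nonneg_right hrM hX0
    nlinarith [h1, h2]
  -- bound for X
  set t := Real.tan (β / 2) with ht
  have htc : t * Real.cos (β / 2) = Real.sin (β / 2) :=
    Real.tan_mul_cos (Real.cos_pos_of_mem_Ioo ⟨by linarith, by linarith⟩).ne'
  have hcpos : 0 < Real.cos (β / 2) := Real.cos_pos_of_mem_Ioo ⟨by linarith, by linarith⟩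
  have ht0 : 0 ≤ t := Real.tan_nonneg_of_nonneg_of_le_pi_div_two (by linarith) (by linarith)
  have hkc : k = 2 * Real.cos (β / 2) ^ 2 - 1 := by
    rw [← hcosβ, ← Real.cos_two_mul]; congr 1; ring
  have hkt : k * (1 + t ^ 2) = 1 - t ^ 2 := by
    have h1 : Real.sin (β / 2) ^ 2 + Real.cos (β / 2) ^ 2 = 1 := Real.sin_sq_add_cos_sq _
    rw [← htc] at h1
    have h2 : Real.cos (β / 2) ^ 2 * (1 + t ^ 2) = 1 := by nlinarith [h1]
    rw [hkc]
    nlinarith [h2]
  have ht1 : t ≤ 1 := by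
    by_contra hcon
    push Not at hcon
    have : 0 < k * (1 + t ^ 2) := by positivity
    nlinarith
  have hkle : k ≤ 1 - t ^ 2 := by
    have : 0 ≤ k * t ^ 2 := by positivity
    nlinarith
  set q := 0.7648 * (sig + tau * t) / om with hq
  have hXle : 0.7648 * X ≤ 0.5045 ^ 2 + tau + q * (1 - k) := by
    have h1 := sub_sin_le β hβ0 hβ1
    rw [hcosβ, ← ht] at h1
    have h2 : tau * (β - Real.sin β) ≤ tau * (t * (1 - k)) := mul_le_mul_of_nonneg_left h1 (by linarith)
    rw [hX, hq, hcosβ]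
    have h3 : 0.7648 * ((2 * sig + 2 * tau * (4 * π / 5) + (sig * (1 - k) + tau * (β - Real.sin β))) / om) ≤
        0.7648 * ((2 * sig + 2 * tau * (4 * π / 5)) / om) + 0.7648 * (sig + tau * t) / om * (1 - k) := by
      have : 0.7648 * ((2 * sig + 2 * tau * (4 * π / 5)) / om) + 0.7648 * (sig + tau * t) / om * (1 - k) =
        0.7648 * ((2 * sig + 2 * tau * (4 * π / 5) + (sig * (1 - k) + tau * (t * (1 - k)))) / om) := by
        field_simp
      rw [this]
      gcongr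
    refine h3.trans ?_
    have h4 : 0.7648 * ((2 * sig + 2 * tau * (4 * π / 5)) / om) ≤ 0.5045 ^ 2 + tau := by
      rw [← mul_div_assoc, div_le_iff₀ hom]
      unfold om
      nlinarith [mul_pos hpi0 (sub_pos.mpr htau')]
    linarith
  have hkey : q * (tau + k * 0.5045 ^ 2) ≤ 0.5045 ^ 2 * (0.5045 ^ 2 + tau) := by
    rw [hq, div_mul_eq_mul_div, div_le_iff₀ hom]
    have hom1 : 3.7698 ≤ om := by unfold om; linarith
    have h1 : 0.7648 * (sig + tau * t) * (tau + k * 0.5045 ^ 2) ≤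
        0.7648 * (0.58782 + 0.80902 * t) * (0.80902 + (1 - t ^ 2) * 0.5045 ^ 2) := by
      gcongr
    refine h1.trans ?_
    have h2 : (0.5045 : ℝ) ^ 2 * (0.5045 ^ 2 + 0.809) * 3.7698 ≤ 0.5045 ^ 2 * (0.5045 ^ 2 + tau) * om := by
      gcongr
    refine le_trans ?_ h2
    nlinarith [mul_nonneg ht0 (sub_nonneg.mpr ht1), mul_nonneg (mul_nonneg ht0 ht0) (sub_nonneg.mpr ht1),
      mul_nonneg ht0 (mul_nonneg (sub_nonneg.mpr ht1) (sub_nonneg.mpr ht1))]
  apply lin_of_sq 0.5045 q k tau (r * m) (r * C) (by norm_num) (by linarith) hk0 hk1 hkey hD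
  have hfin : (r * C) * (r * R) ≤ 0.5045 ^ 2 + tau - tau * (r * m) ^ 2 + q * (1 - k) := by linarith
  have hsq : (r * C) ^ 2 = k * ((r * C) * (r * R)) := by
    rw [hk]; field_simp
  rw [hsq]
  exact mul_le_mul_of_nonneg_left hfin hk0.le

/-- The linear inequality satisfied by every class. -/
theorem class_linear (B : Set ℝ) (hB : MeasurableSet B) (hB1 : B ⊆ Icc 0 1) (M : ℝ)
    (hM : ∀ s : ℝ, volume.real (B ∩ {x | s - x ∈ B}) ≤ M)
    (r : ℝ) (hr : 0 < r) (hrM : r ^ 2 * M ≤ 0.7648) :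
    0.5045 * (r * ∫ x in B, Real.cos (om * (x - 1 / 2))) ≤
      0.5045 ^ 2 - tau * (r * volume.real B - 1) :=
  class_alg (volume.real B) _ (∫ x in B, Real.sin (om * (x - 1 / 2))) M measureReal_nonneg
    (meas_sq_le B hB hB1 M hM)
    (fun β h0 h1 e he => one_class B hB hB1 M hM β h0 h1 e he _ _ rfl rfl) r hr hrM

end Pool.Agent.H63.MS
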