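import Mathlib
import Pool.Agent.H63.MSDefs
import Pool.Agent.H63.MSLowerD

set_option autoImplicit false

open MeasureTheory Set Real

namespace Pool.Agent.H63.MS

lemma symm_inter (B : Set ℝ) (s : ℝ) : SymmetricSet (B ∩ {x | s - x ∈ B}) := by
  refine ⟨s / 2, ?_⟩
  have : (fun t : ℝ => 2 * (s / 2) - t) = fun t => s - t := by ext t; ring
  rw [this]
  ext t
  simp only [mem_image, mem_inter_iff, mem_ofPred_eq]
  constructor
  · rintro ⟨u, ⟨h1, h2⟩, rfl⟩
    exact ⟨h2, by simpa using h1⟩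
  · rintro ⟨h1, h2⟩
    exact ⟨s - t, ⟨h2, by simpa using h1⟩, by ring⟩

lemma cos_int : ∫ x in (0:ℝ)..1, Real.cos (om * (x - 1 / 2)) = 10 / (3 * π) * (sig * tau) := by
  have hpi := Real.pi_pos
  have hom : 0 < om := by unfold om; positivity
  have e1 : ∀ x : ℝ, om * (x - 1 / 2) = om * x - om / 2 := fun x => by ring
  simp_rw [e1]
  rw [intervalIntegral.integral_comp_mul_sub (fun y => Real.cos y) hom.ne', integral_cos]
  have e2 : om * 1 - om / 2 = om / 2 := by ring
  have e3 : om * 0 - om / 2 = - (om / 2) := by ring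
  rw [e2, e3, Real.sin_neg]
  have e4 : Real.sin (om / 2) = 2 * sig * tau := by
    have : om / 2 = π - 2 * (π / 5) := by unfold om; ring
    rw [this, Real.sin_pi_sub, Real.sin_two_mul]
    rfl
  rw [e4, smul_eq_mul]
  unfold om
  field_simp
  ring

lemma c1_gt : 0.5045 < ∫ x in (0:ℝ)..1, Real.cos (om * (x - 1 / 2)) := by
  rw [cos_int]
  have h1 := tau_gt
  have h2 := sig_gt
  have h3 := Real.pi_lt_d4
  have h4 := Real.pi_pos
  have h5 : (0.58777 : ℝ) * 0.809 < sig * tau := by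
    have := sig_pos
    nlinarith
  rw [div_mul_eq_mul_div, lt_div_iff₀ (by positivity)]
  nlinarith

/-- Every measurable `r`-colouring of `[0,1]` has a large monochromatic symmetric set. -/
theorem attained_lower (r : ℕ) (hr : 1 ≤ r) : Attained r (0.7648 / (r : ℝ) ^ 2) := by
  have hr0 : (0:ℝ) < r := by exact_mod_cast hr
  refine ⟨by positivity, ?_⟩
  intro χ hχ
  by_contra hcon
  push Not at hcon
  set ε : ℝ := 0.7648 / (r : ℝ) ^ 2 with hε
  have hε0 : 0 < ε := by positivity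
  have hchoose : ∀ i : Fin r, ∃ B : Set ℝ, B ⊆ Icc (0:ℝ) 1 ∩ {t | χ t = i} ∧ MeasurableSet B ∧
      B =ᵐ[volume] (Icc (0:ℝ) 1 ∩ {t | χ t = i} : Set ℝ) :=
    fun i => (hχ i).exists_measurable_subset_ae_eq
  choose B hBs hBm hBe using hchoose
  have hB1 : ∀ i, B i ⊆ Icc 0 1 := fun i => (hBs i).trans inter_subset_left
  have hM : ∀ i, ∀ s : ℝ, volume.real (B i ∩ {x | s - x ∈ B i}) ≤ ε := by
    intro i s
    have hm : MeasurableSet {x : ℝ | s - x ∈ B i} := (measurable_const.sub measurable_id) (hBm i)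
    have h := hcon (B i ∩ {x | s - x ∈ B i}) (inter_subset_left.trans (hB1 i))
      ((hBm i).inter hm).nullMeasurableSet (symm_inter _ _)
      ⟨i, fun t ht => (hBs i ht.1).2⟩
    exact ENNReal.toReal_le_of_le_ofReal hε0.le h.le
  have hrM : (r : ℝ) ^ 2 * ε ≤ 0.7648 := by
    rw [hε]; field_simp; exact le_rfl
  have hlin := fun i => class_linear (B i) (hBm i) (hB1 i) ε (hM i) r hr0 hrM
  -- the union of the classes
  have hdisj : Pairwise (Function.onFun Disjoint B) := by
    intro i j hij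
    rw [Function.onFun, Set.disjoint_left]
    intro t hi hj
    exact hij ((hBs i hi).2.symm.trans (hBs j hj).2)
  have hU : (⋃ i, B i) =ᵐ[volume] (Icc (0:ℝ) 1) := by
    have h1 : (⋃ i, B i) =ᵐ[volume] (⋃ i, (Icc (0:ℝ) 1 ∩ {t | χ t = i})) :=
      Filter.EventuallyEq.countable_iUnion hBe
    have h2 : (⋃ i, (Icc (0:ℝ) 1 ∩ {t | χ t = i})) = Icc (0:ℝ) 1 := by
      ext t; simp
    rw [h2] at h1
    exact h1
  have hsum : ∀ f : ℝ → ℝ, Continuous f → ∑ i, ∫ x in B i, f x = ∫ x in (0:ℝ)..1, f x := by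
    intro f hf
    rw [intervalIntegral.integral_of_le zero_le_one, ← integral_Icc_eq_integral_Ioc,
      ← setIntegral_congr_set hU, integral_iUnion_fintype hBm hdisj]
    intro i
    exact (hf.continuousOn.integrableOn_Icc).mono_set (hB1 i)
  have hCs := hsum (fun x => Real.cos (om * (x - 1 / 2))) (by fun_prop)
  have hms : ∑ i, volume.real (B i) = 1 := by
    have h := hsum (fun _ => 1) continuous_const
    simpa using h
  have htot := Finset.sum_le_sum (fun i (_ : i ∈ Finset.univ) => hlin i)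
  rw [← Finset.mul_sum, ← Finset.mul_sum, hCs, Finset.sum_sub_distrib, ← Finset.mul_sum,
    Finset.sum_sub_distrib, ← Finset.mul_sum, hms] at htot
  simp only [Finset.sum_const, Finset.card_univ, Fintype.card_fin, nsmul_eq_mul, mul_one, sub_self,
    mul_zero, sub_zero] at htot
  have hc := c1_gt
  have : (r:ℝ) * (0.5045 * ∫ x in (0:ℝ)..1, Real.cos (om * (x - 1 / 2))) ≤ r * 0.5045 ^ 2 := by
    linarith
  have h2 := le_of_mul_le_mul_left this hr0
  nlinarith

lemma attained_le_one (r : ℕ) (hr : 1 ≤ r) (ε : ℝ) (h : Attained r ε) : ε ≤ 1 := by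
  obtain ⟨hε, h⟩ := h
  obtain ⟨A, hA, -, -, -, hm⟩ := h (fun _ => ⟨0, hr⟩) (by
    intro i
    by_cases hi : (⟨0, hr⟩ : Fin r) = i
    · simp [hi]
    · simp [hi])
  have h1 : volume A ≤ 1 := by
    refine (measure_mono hA).trans ?_
    simp
  have h2 := hm.trans h1
  rwa [ENNReal.ofReal_le_one] at h2

theorem ms_lower (r : ℕ) (hr : 1 ≤ r) : 0.7648 ≤ (r : ℝ) ^ 2 * ms r := by
  have hr0 : (0:ℝ) < r := by exact_mod_cast hr
  have h : 0.7648 / (r : ℝ) ^ 2 ≤ ms r :=
    le_csSup ⟨1, fun ε hε => attained_le_one r hr ε hε⟩ (attained_lower r hr)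
  rw [div_le_iff₀ (by positivity)] at h
  linarith

end Pool.Agent.H63.MS
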