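import Mathlib

set_option autoImplicit false

namespace Pool.Agent.H63.MS

open Finset

/-- Block sums: if all self-convolution values of `g ≥ 0` are at most `W`, then those of the blow-up
`a ↦ g (a / B)` are at most `B * W`. -/
theorem block_conv (g : ℕ → ℝ) (hg : ∀ t, 0 ≤ g t) (W : ℝ)
    (hW : ∀ m : ℕ, ∑ u ∈ range (m + 1), g u * g (m - u) ≤ W) (B : ℕ) (hB : 0 < B) (k : ℕ) :
    ∑ a ∈ range (k + 1), g (a / B) * g ((k - a) / B) ≤ B * W := by
  have hW0 : 0 ≤ W := le_trans (Finset.sum_nonneg fun u _ => mul_nonneg (hg _) (hg _)) (hW 0)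
  have h1 : ∑ a ∈ range (k + 1), g (a / B) * g ((k - a) / B) =
      ∑ α ∈ range B, ∑ a ∈ (range (k + 1)).filter (fun a => a % B = α), g (a / B) * g ((k - a) / B) := by
    symm
    apply Finset.sum_fiberwise_of_maps_to
    intro a _
    exact mem_range.mpr (Nat.mod_lt _ hB)
  rw [h1]
  have h2 : ∀ α ∈ range B,
      ∑ a ∈ (range (k + 1)).filter (fun a => a % B = α), g (a / B) * g ((k - a) / B) ≤ W := by
    intro α _
    by_cases hα : α ≤ k
    · have hinj : Set.InjOn (fun a => a / B) ((range (k + 1)).filter (fun a => a % B = α) : Finset ℕ) := by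
        intro a ha b hb hab
        simp only [coe_filter, mem_range, Set.mem_ofPred_eq] at ha hb hab
        rw [← Nat.div_add_mod a B, ← Nat.div_add_mod b B, ha.2, hb.2, hab]
      have h3 : ∀ a ∈ (range (k + 1)).filter (fun a => a % B = α),
          g (a / B) * g ((k - a) / B) = g (a / B) * g ((k - α) / B - a / B) := by
        intro a ha
        simp only [mem_filter, mem_range] at ha
        congr 2
        have e : k - a = (k - α) - B * (a / B) := by
          have := Nat.div_add_mod a B
          omega
        rw [e, Nat.sub_mul_div]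
      rw [Finset.sum_congr rfl h3]
      have h4 : ∑ a ∈ (range (k + 1)).filter (fun a => a % B = α), g (a / B) * g ((k - α) / B - a / B) =
          ∑ u ∈ ((range (k + 1)).filter (fun a => a % B = α)).image (fun a => a / B),
            g u * g ((k - α) / B - u) := by
        rw [Finset.sum_image hinj]
      rw [h4]
      refine le_trans ?_ (hW ((k - α) / B))
      apply Finset.sum_le_sum_of_subset_of_nonneg
      · intro u hu
        simp only [mem_image, mem_filter, mem_range] at hu ⊢
        obtain ⟨a, ⟨ha1, ha2⟩, rfl⟩ := hu
        rw [Nat.lt_succ_iff, Nat.le_div_iff_mul_le hB]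
        have := Nat.div_add_mod a B
        rw [mul_comm] at this
        omega
      · intro u _ _
        exact mul_nonneg (hg _) (hg _)
    · have : (range (k + 1)).filter (fun a => a % B = α) = ∅ := by
        apply Finset.filter_eq_empty_iff.mpr
        intro a ha hmod
        have h5 := Nat.mod_le a B
        have := mem_range.mp ha
        omega
      rw [this, Finset.sum_empty]
      exact hW0
  calc _ ≤ ∑ _α ∈ range B, W := Finset.sum_le_sum h2
    _ = B * W := by simp

end Pool.Agent.H63.MS
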