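import Mathlib

set_option autoImplicit false

namespace Pool.Agent.H63.MS

open Finset

/-- Rounding a multi-affine function to a vertex, coordinate by coordinate. -/
theorem rounding {r : ℕ} (Φ : (ℕ → Fin r → ℝ) → ℝ)
    (hΦ : ∀ (x : ℕ → Fin r → ℝ) (a : ℕ) (v : Fin r → ℝ), ∑ c, v c = 1 →
      Φ (Function.update x a v) = ∑ c, v c * Φ (Function.update x a (Pi.single c 1)))
    (p : ℕ → Fin r → ℝ) (n : ℕ) (hp0 : ∀ a c, 0 ≤ p a c) (hp1 : ∀ a < n, ∑ c, p a c = 1) :
    ∀ m ≤ n, ∃ ω : ℕ → Option (Fin r), (∀ a < m, ω a ≠ none) ∧
      Φ (fun a => if a < m then (fun c => if ω a = some c then 1 else 0) else p a) ≤ Φ p := by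
  intro m
  induction m with
  | zero => intro _; exact ⟨fun _ => none, by simp, by simp⟩
  | succ m ih =>
    intro hm
    obtain ⟨ω, hω0, hω⟩ := ih (by omega)
    set x : ℕ → Fin r → ℝ := fun a => if a < m then (fun c => if ω a = some c then 1 else 0) else p a with hx
    have hxm : Function.update x m (p m) = x := by
      rw [Function.update_eq_self_iff]
      simp [hx]
    have h1 := hΦ x m (p m) (hp1 m (by omega))
    rw [hxm] at h1
    obtain ⟨c, hc⟩ : ∃ c, Φ (Function.update x m (Pi.single c 1)) ≤ Φ x := by
      by_contra hcon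
      push Not at hcon
      have hpos : ∃ c, 0 < p m c := by
        by_contra h0
        push Not at h0
        have : ∑ c, p m c ≤ 0 := Finset.sum_nonpos fun c _ => h0 c
        rw [hp1 m (by omega)] at this
        linarith
      obtain ⟨c0, hc0⟩ := hpos
      have h2 : ∑ c, p m c * Φ x < ∑ c, p m c * Φ (Function.update x m (Pi.single c 1)) := by
        apply Finset.sum_lt_sum
        · intro c _
          exact mul_le_mul_of_nonneg_left (hcon c).le (hp0 m c)
        · exact ⟨c0, mem_univ _, mul_lt_mul_of_pos_left (hcon c0) hc0⟩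
      rw [← Finset.sum_mul, hp1 m (by omega), one_mul, ← h1] at h2
      exact lt_irrefl _ h2
    refine ⟨Function.update ω m (some c), ?_, ?_⟩
    · intro a ha
      by_cases ham : a = m
      · subst ham; simp
      · rw [Function.update_of_ne ham]
        exact hω0 a (by omega)
    · refine le_trans (le_of_eq ?_) (hc.trans hω)
      congr 1
      ext a d
      by_cases ham : a = m
      · subst ham
        simp only [lt_add_iff_pos_right, zero_lt_one, if_true, Function.update_self, Pi.single_apply,
          Option.some.injEq]
        by_cases hd : c = d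
        · simp [hd]
        · simp [hd, Ne.symm hd]
      · rw [Function.update_of_ne ham, Function.update_of_ne ham]
        simp only [hx]
        by_cases hlt : a < m
        · simp [hlt, Nat.lt_succ_of_lt hlt]
        · have : ¬ a < m + 1 := by omega
          simp [hlt, this]

/-- The indices of the pairs `(a, k - a)` with `a < k - a`. -/
def pairs (k : ℕ) : Finset ℕ := (range k).filter (fun a => 2 * a < k)

lemma mem_pairs {k a : ℕ} : a ∈ pairs k ↔ 2 * a < k := by
  simp only [pairs, mem_filter, mem_range]
  omega

/-- The pair product of one colour. -/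
noncomputable def pp {r : ℕ} (y : ℝ) (k : ℕ) (c : Fin r) (x : ℕ → Fin r → ℝ) : ℝ :=
  ∏ a ∈ pairs k, (1 + y * (x a c * x (k - a) c))

lemma pp_affine {r : ℕ} (y : ℝ) (k : ℕ) (c : Fin r) (x : ℕ → Fin r → ℝ) (b : ℕ) :
    ∃ R A : ℝ, ∀ v : Fin r → ℝ, pp y k c (Function.update x b v) = R + A * v c := by
  by_cases h1 : 2 * b < k
  · -- b itself is the index of its pair
    have hb : b ∈ pairs k := mem_pairs.mpr h1
    refine ⟨∏ a ∈ (pairs k).erase b, (1 + y * (x a c * x (k - a) c)),
      y * x (k - b) c * ∏ a ∈ (pairs k).erase b, (1 + y * (x a c * x (k - a) c)), fun v => ?_⟩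
    unfold pp
    rw [← Finset.mul_prod_erase _ _ hb]
    have h2 : ∀ a ∈ (pairs k).erase b,
        (1 + y * ((Function.update x b v) a c * (Function.update x b v) (k - a) c)) =
          (1 + y * (x a c * x (k - a) c)) := by
      intro a ha
      rw [mem_erase, mem_pairs] at ha
      rw [Function.update_of_ne ha.1, Function.update_of_ne (by omega)]
    rw [Finset.prod_congr rfl h2, Function.update_self, Function.update_of_ne (by omega)]
    ring
  · by_cases h3 : b ≤ k ∧ 2 * (k - b) < k
    · have hb : k - b ∈ pairs k := mem_pairs.mpr h3.2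
      refine ⟨∏ a ∈ (pairs k).erase (k - b), (1 + y * (x a c * x (k - a) c)),
        y * x (k - b) c * ∏ a ∈ (pairs k).erase (k - b), (1 + y * (x a c * x (k - a) c)), fun v => ?_⟩
      unfold pp
      rw [← Finset.mul_prod_erase _ _ hb]
      have h2 : ∀ a ∈ (pairs k).erase (k - b),
          (1 + y * ((Function.update x b v) a c * (Function.update x b v) (k - a) c)) =
            (1 + y * (x a c * x (k - a) c)) := by
        intro a ha
        rw [mem_erase, mem_pairs] at ha
        rw [Function.update_of_ne (by omega), Function.update_of_ne (by omega)]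
      have h4 : k - (k - b) = b := by omega
      rw [Finset.prod_congr rfl h2, h4, Function.update_self, Function.update_of_ne (by omega)]
      ring
    · refine ⟨pp y k c x, 0, fun v => ?_⟩
      unfold pp
      rw [zero_mul, add_zero]
      apply Finset.prod_congr rfl
      intro a ha
      rw [mem_pairs] at ha
      rw [Function.update_of_ne (by omega), Function.update_of_ne (by omega)]

/-- A positive combination of pair products is multi-affine. -/
lemma pp_multi {r : ℕ} (y : ℝ) (n : ℕ) (w : ℕ → Fin r → ℝ) (x : ℕ → Fin r → ℝ) (a : ℕ) (v : Fin r → ℝ)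
    (hv : ∑ c, v c = 1) :
    ∑ k ∈ range n, ∑ c, w k c * pp y k c (Function.update x a v) =
      ∑ d, v d * (∑ k ∈ range n, ∑ c, w k c * pp y k c (Function.update x a (Pi.single d 1))) := by
  have h1 : ∀ k, ∀ c : Fin r, pp y k c (Function.update x a v) =
      ∑ d, v d * pp y k c (Function.update x a (Pi.single d 1)) := by
    intro k c
    obtain ⟨R, A, h⟩ := pp_affine y k c x a
    simp_rw [h]
    have h2 : ∀ d : Fin r, v d * (R + A * (Pi.single d (1:ℝ) : Fin r → ℝ) c) =
        R * v d + (if d = c then A * v d else 0) := by
      intro d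
      by_cases hd : d = c
      · subst hd; simp; ring
      · simp [hd, Ne.symm hd]; ring
    simp_rw [h2]
    rw [Finset.sum_add_distrib, ← Finset.mul_sum, hv]
    simp
  calc ∑ k ∈ range n, ∑ c, w k c * pp y k c (Function.update x a v)
      = ∑ k ∈ range n, ∑ d, ∑ c, w k c * (v d * pp y k c (Function.update x a (Pi.single d 1))) := by
        apply Finset.sum_congr rfl
        intro k _
        rw [Finset.sum_comm]
        apply Finset.sum_congr rfl
        intro c _
        rw [h1, Finset.mul_sum]
    _ = ∑ d, ∑ k ∈ range n, ∑ c, w k c * (v d * pp y k c (Function.update x a (Pi.single d 1))) :=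
        Finset.sum_comm
    _ = _ := by
        apply Finset.sum_congr rfl
        intro d _
        rw [Finset.mul_sum]
        apply Finset.sum_congr rfl
        intro k _
        rw [Finset.mul_sum]
        apply Finset.sum_congr rfl
        intro c _
        ring

end Pool.Agent.H63.MS
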