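import Mathlib
import Pool.Agent.H63.MSDefs

set_option autoImplicit false

namespace Pool.Agent.H63.MS

open Finset MeasureTheory Set

/-- The step colouring of the real line coming from a labelling of `0, ..., n - 1`. -/
noncomputable def stepCol {r : ℕ} (hr : 0 < r) (n : ℕ) (ω : ℕ → Option (Fin r)) : ℝ → Fin r :=
  fun t => (ω ⌊t * n⌋₊).getD ⟨0, hr⟩

lemma stepCol_meas {r : ℕ} (hr : 0 < r) (n : ℕ) (ω : ℕ → Option (Fin r)) :
    MeasurableColouring r (stepCol hr n ω) := by
  intro i
  apply MeasurableSet.nullMeasurableSet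
  apply measurableSet_Icc.inter
  have h1 : Measurable (fun t : ℝ => ⌊t * n⌋₊) := Nat.measurable_floor.comp (measurable_id.mul_const _)
  have h2 : Measurable (fun m : ℕ => (ω m).getD ⟨0, hr⟩) := measurable_from_nat
  exact (h2.comp h1) (measurableSet_singleton i)

/-- The indices of the pairs of sum `k` inside colour `c`. -/
def pairSet {r : ℕ} (n : ℕ) (ω : ℕ → Option (Fin r)) (c : Fin r) (k : ℕ) : Finset ℕ :=
  (Finset.range (k + 1)).filter (fun a => (a < n ∧ ω a = some c) ∧ (k - a < n ∧ ω (k - a) = some c))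

lemma pairSet_card {r : ℕ} (n : ℕ) (ω : ℕ → Option (Fin r)) (c : Fin r) (k : ℕ) :
    ((pairSet n ω c k).card : ℝ) =
      ∑ a ∈ Finset.range (k + 1), (if a < n ∧ ω a = some c then (1:ℝ) else 0) *
          (if k - a < n ∧ ω (k - a) = some c then (1:ℝ) else 0) := by
  unfold pairSet
  rw [Finset.card_filter]
  push_cast
  apply Finset.sum_congr rfl
  intro a _
  by_cases h1 : a < n ∧ ω a = some c
  · by_cases h2 : k - a < n ∧ ω (k - a) = some c
    · rw [if_pos ⟨h1, h2⟩, if_pos h1, if_pos h2]; norm_num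
    · rw [if_neg (fun h => h2 h.2), if_pos h1, if_neg h2]; norm_num
  · rw [if_neg (fun h => h1 h.1), if_neg h1]; norm_num

lemma vol_biUnion (T : Finset ℕ) (f g : ℕ → ℝ) (d : ℝ) (h : ∀ a ∈ T, g a - f a = d) :
    volume (⋃ a ∈ T, Icc (f a) (g a)) ≤ T.card * ENNReal.ofReal d := by
  refine (measure_biUnion_finset_le _ _).trans ?_
  have : ∀ a ∈ T, volume (Icc (f a) (g a)) = ENNReal.ofReal d := by
    intro a ha
    rw [Real.volume_Icc, h a ha]
  rw [Finset.sum_congr rfl this, Finset.sum_const, nsmul_eq_mul]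

theorem realise {r : ℕ} (hr : 0 < r) (n : ℕ) (hn : 0 < n) (ω : ℕ → Option (Fin r))
    (hω : ∀ a < n, ω a ≠ none) (V : ℝ) (hV0 : 0 ≤ V)
    (hV : ∀ k : ℕ, ∀ c : Fin r,
      ∑ a ∈ Finset.range (k + 1), (if a < n ∧ ω a = some c then (1:ℝ) else 0) *
          (if k - a < n ∧ ω (k - a) = some c then (1:ℝ) else 0) ≤ V)
    (ε : ℝ) (hA : Attained r ε) : ε ≤ V / n := by
  have hn0 : (0:ℝ) < n := by exact_mod_cast hn
  have hcard : ∀ c k, ((pairSet n ω c k).card : ℝ) ≤ V := fun c k => by
    rw [pairSet_card]; exact hV k c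
  obtain ⟨A, hA1, -, ⟨x, hx⟩, ⟨c, hc⟩, hvol⟩ := hA.2 (stepCol hr n ω) (stepCol_meas hr n ω)
  set s := 2 * x with hs
  set k := ⌊s * n⌋₊ with hk
  set θ := s * n - k with hθ
  set T' : Finset ℕ := if k = 0 then ∅ else pairSet n ω c (k - 1) with hT'
  have hT'card : (T'.card : ℝ) ≤ V := by
    rw [hT']
    split_ifs
    · simpa using hV0
    · exact hcard _ _
  -- labels of points
  have hlab : ∀ t : ℝ, 0 ≤ t → t < 1 → stepCol hr n ω t = c →
      ⌊t * n⌋₊ < n ∧ ω ⌊t * n⌋₊ = some c := by
    intro t ht0 ht1 htc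
    have h1 : ⌊t * n⌋₊ < n := by
      rw [Nat.floor_lt (by positivity)]
      nlinarith
    refine ⟨h1, ?_⟩
    have h2 := hω _ h1
    obtain ⟨d, hd⟩ := Option.ne_none_iff_exists'.mp h2
    unfold stepCol at htc
    rw [hd, Option.getD_some] at htc
    rw [hd, htc]
  have hrefl : ∀ t ∈ A, s - t ∈ A := by
    intro t ht
    rw [← hx]
    exact ⟨t, ht, rfl⟩
  have hsub : A ⊆ ((⋃ a ∈ pairSet n ω c k, Icc ((a:ℝ) / n) ((a + θ) / n)) ∪
      (⋃ a ∈ T', Icc ((a + θ) / n) ((a + 1 : ℝ) / n))) ∪ {1, s - 1} := by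
    intro t ht
    by_cases h1 : t = 1
    · right; simp [h1]
    by_cases h2 : s - t = 1
    · right
      have : t = s - 1 := by linarith
      simp [this]
    left
    have ht2 := hrefl t ht
    have htI := hA1 ht
    have htI2 := hA1 ht2
    have ht1 : t < 1 := lt_of_le_of_ne htI.2 h1
    have hst1 : s - t < 1 := lt_of_le_of_ne htI2.2 h2
    obtain ⟨ha, ha2⟩ := hlab t htI.1 ht1 (hc t ht)
    obtain ⟨hb, hb2⟩ := hlab (s - t) htI2.1 hst1 (hc _ ht2)
    set a := ⌊t * n⌋₊ with hadef
    set b := ⌊(s - t) * n⌋₊ with hbdef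
    have f1 : (a:ℝ) ≤ t * n := Nat.floor_le (mul_nonneg htI.1 hn0.le)
    have f2 : t * n < a + 1 := Nat.lt_floor_add_one _
    have f3 : (b:ℝ) ≤ (s - t) * n := Nat.floor_le (mul_nonneg htI2.1 hn0.le)
    have f4 : (s - t) * n < b + 1 := Nat.lt_floor_add_one _
    have hsn : 0 ≤ s * n := by
      have : 0 ≤ s := by linarith [htI.1, htI2.1]
      positivity
    have f5 : (k:ℝ) ≤ s * n := Nat.floor_le hsn
    have f6 : s * n < k + 1 := Nat.lt_floor_add_one _
    have f7 : a + b < k + 1 := by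
      have : ((a + b : ℕ) : ℝ) < ((k + 1 : ℕ) : ℝ) := by push_cast; linarith
      exact_mod_cast this
    have f8 : k < a + b + 2 := by
      have : ((k : ℕ) : ℝ) < ((a + b + 2 : ℕ) : ℝ) := by push_cast; linarith
      exact_mod_cast this
    have hcases : a + b = k ∨ a + b + 1 = k := by omega
    rcases hcases with h | h
    · left
      rw [mem_iUnion₂]
      refine ⟨a, ?_, ?_, ?_⟩
      · unfold pairSet
        rw [Finset.mem_filter, Finset.mem_range]
        have : k - a = b := by omega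
        rw [this]
        exact ⟨by omega, ⟨ha, ha2⟩, ⟨hb, hb2⟩⟩
      · rw [div_le_iff₀ hn0]; exact f1
      · rw [le_div_iff₀ hn0]
        have : ((a + b : ℕ) : ℝ) = k := by rw [h]
        push_cast at this
        linarith
    · right
      rw [mem_iUnion₂]
      have hk0 : k ≠ 0 := by omega
      refine ⟨a, ?_, ?_, ?_⟩
      · rw [hT', if_neg hk0]
        unfold pairSet
        rw [Finset.mem_filter, Finset.mem_range]
        have : k - 1 - a = b := by omega
        rw [this]
        exact ⟨by omega, ⟨ha, ha2⟩, ⟨hb, hb2⟩⟩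
      · rw [div_le_iff₀ hn0]
        have : ((a + b + 1 : ℕ) : ℝ) = k := by rw [h]
        push_cast at this
        linarith
      · rw [le_div_iff₀ hn0]; linarith
  have hvol2 : ENNReal.ofReal ε ≤ (pairSet n ω c k).card * ENNReal.ofReal (θ / n) +
      T'.card * ENNReal.ofReal ((1 - θ) / n) := by
    refine hvol.trans ((measure_mono hsub).trans ?_)
    refine (measure_union_le _ _).trans ?_
    have h0 : volume ({1, s - 1} : Set ℝ) = 0 := (Set.toFinite _).measure_zero _
    rw [h0, add_zero]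
    refine (measure_union_le _ _).trans ?_
    apply add_le_add
    · apply vol_biUnion
      intro a _
      field_simp
      ring
    · apply vol_biUnion
      intro a _
      field_simp
      ring
  by_cases hs0 : 0 ≤ s * n
  · have f5 : (k:ℝ) ≤ s * n := Nat.floor_le hs0
    have f6 : s * n < k + 1 := Nat.lt_floor_add_one _
    have hθ0 : 0 ≤ θ := by rw [hθ]; linarith
    have hθ1 : θ ≤ 1 := by rw [hθ]; linarith
    have h3 : (pairSet n ω c k).card * ENNReal.ofReal (θ / n) + T'.card * ENNReal.ofReal ((1 - θ) / n)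
        ≤ ENNReal.ofReal (V / n) := by
      rw [← ENNReal.ofReal_natCast, ← ENNReal.ofReal_natCast, ← ENNReal.ofReal_mul (Nat.cast_nonneg _),
        ← ENNReal.ofReal_mul (Nat.cast_nonneg _), ← ENNReal.ofReal_add]
      · apply ENNReal.ofReal_le_ofReal
        have e1 : ((pairSet n ω c k).card : ℝ) * (θ / n) ≤ V * (θ / n) :=
          mul_le_mul_of_nonneg_right (hcard c k) (by positivity)
        have e2 : (T'.card : ℝ) * ((1 - θ) / n) ≤ V * ((1 - θ) / n) :=
          mul_le_mul_of_nonneg_right hT'card (div_nonneg (by linarith) hn0.le)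
        have e3 : V * (θ / n) + V * ((1 - θ) / n) = V / n := by ring
        linarith
      · exact mul_nonneg (Nat.cast_nonneg _) (div_nonneg hθ0 hn0.le)
      · exact mul_nonneg (Nat.cast_nonneg _) (div_nonneg (by linarith) hn0.le)
    have h4 := hvol2.trans h3
    rwa [ENNReal.ofReal_le_ofReal_iff (by positivity)] at h4
  · -- then `A` is empty
    exfalso
    have hAe : A = ∅ := by
      rw [Set.eq_empty_iff_forall_notMem]
      intro t ht
      have h1 := (hA1 ht).1
      have h2 := (hA1 (hrefl t ht)).1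
      apply hs0
      have : 0 ≤ s := by linarith
      positivity
    rw [hAe, measure_empty] at hvol
    have := hA.1
    rw [nonpos_iff_eq_zero, ENNReal.ofReal_eq_zero] at hvol
    linarith

end Pool.Agent.H63.MS
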