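import Mathlib
import Pool.Agent.H63.MSUpperA
import Pool.Agent.H63.MSUpperC
import Pool.Agent.H63.MSUpperD

set_option autoImplicit false

namespace Pool.Agent.H63.MS

open Finset

lemma sum_div_blocks (f : ℕ → ℝ) (q : ℕ) (hq : 0 < q) (K : ℕ) :
    ∑ v ∈ range (K * q), f (v / q) = q * ∑ i ∈ range K, f i := by
  induction K with
  | zero => simp
  | succ K ih =>
    rw [Nat.succ_mul, Finset.sum_range_add, ih, Finset.sum_range_succ, mul_add]
    congr 1
    have : ∀ x ∈ range q, f ((K * q + x) / q) = f K := by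
      intro x hx
      congr 1
      rw [mul_comm, Nat.mul_add_div hq, Nat.div_eq_of_lt (mem_range.mp hx), add_zero]
    rw [Finset.sum_congr rfl this]
    simp

lemma eventually_small (C κ : ℝ) (_hC : 0 ≤ C) (hκ : 0 < κ) :
    ∀ᶠ n : ℕ in Filter.atTop, C * (n:ℝ) * Real.exp (-(κ * n)) < 1 := by
  have h1 := Real.tendsto_pow_mul_exp_neg_atTop_nhds_zero 1
  have h2 : Filter.Tendsto (fun n : ℕ => κ * (n:ℝ)) Filter.atTop Filter.atTop :=
    Filter.Tendsto.const_mul_atTop hκ tendsto_natCast_atTop_atTop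
  have h3 := (h1.comp h2).const_mul (C / κ)
  rw [mul_zero] at h3
  have h4 := h3.eventually (gt_mem_nhds (zero_lt_one))
  filter_upwards [h4] with n hn
  simp only [Function.comp, pow_one] at hn
  have : C * (n:ℝ) * Real.exp (-(κ * n)) = C / κ * (κ * n * Real.exp (-(κ * n))) := by
    field_simp
  rw [this]
  exact hn

/-- Upper bound for `ms` from a table `G` of nonnegative integers with constant column sums. -/
theorem upper_abstract (K N D U : ℕ) (G : ℕ → ℕ → ℕ) (hK : 0 < K) (hN : 0 < N) (hD : 0 < D)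
    (hG : ∀ t < N, ∑ i ∈ range K, G i t = K * D) (hG0 : ∀ i < K, ∀ t, N ≤ t → G i t = 0)
    (hU : ∀ i < K, ∀ m, ∑ u ∈ range (m + 1), G i u * G i (m - u) ≤ U)
    (q : ℕ) (hq : 0 < q) (r : ℕ) (hr : K * q ≤ r) (ε : ℝ) (hA : Attained r ε) :
    ε ≤ U / (N * ((K * q * D : ℕ) : ℝ) ^ 2) := by
  have hr0 : 0 < r := lt_of_lt_of_le (by positivity) hr
  have hN0 : (0:ℝ) < N := by exact_mod_cast hN
  have hE0 : (0:ℝ) < ((K * q * D : ℕ) : ℝ) := by
    have : 0 < K * q * D := by positivity
    exact_mod_cast this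
  set E : ℝ := ((K * q * D : ℕ) : ℝ) with hE
  set W : ℝ := U / E ^ 2 with hW
  have hW0 : 0 ≤ W := by positivity
  -- the density of class `i`
  set g : ℕ → ℕ → ℝ := fun i t => (G i t : ℝ) / E with hg
  have hg0 : ∀ i t, 0 ≤ g i t := fun i t => by positivity
  have hgW : ∀ i < K, ∀ m : ℕ, ∑ u ∈ range (m + 1), g i u * g i (m - u) ≤ W := by
    intro i hi m
    have h1 : ∑ u ∈ range (m + 1), g i u * g i (m - u) =
        ((∑ u ∈ range (m + 1), G i u * G i (m - u) : ℕ) : ℝ) / E ^ 2 := by
      push_cast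
      rw [Finset.sum_div]
      apply Finset.sum_congr rfl
      intro u _
      simp only [hg]
      field_simp
    rw [h1, hW]
    have := hU i hi m
    gcongr
  -- probability weights
  set p : ℕ → ℕ → Fin r → ℝ := fun B a c => if c.val < K * q then g (c.val / q) (a / B) else 0 with hp
  have main : ∀ δ : ℝ, 0 < δ → δ ≤ 1 → ε ≤ W / N + 3 * δ := by
    intro δ hδ0 hδ1
    have hev := eventually_small (2 * r) (δ ^ 2 / 4) (by positivity) (by positivity)
    obtain ⟨n0, hn0⟩ := Filter.eventually_atTop.mp hev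
    obtain ⟨n1, hn1⟩ := exists_nat_gt (1 / δ)
    set B := n0 + n1 + 1 with hB
    have hB0 : 0 < B := by omega
    set n := N * B with hn
    have hnB : B ≤ n := by
      rw [hn]; exact Nat.le_mul_of_pos_left _ hN
    have hnpos : 0 < n := by omega
    have hnr : (0:ℝ) < n := by exact_mod_cast hnpos
    have hbig : 2 * (n:ℝ) * r * Real.exp (-(δ ^ 2 * n / 4)) < 1 := by
      have h := hn0 n (by omega)
      have e : 2 * (n:ℝ) * r * Real.exp (-(δ ^ 2 * n / 4)) = 2 * r * n * Real.exp (-(δ ^ 2 / 4 * n)) := by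
        have : δ ^ 2 * n / 4 = δ ^ 2 / 4 * n := by ring
        rw [this]; ring
      rw [e]; exact h
    have hp0 : ∀ a c, 0 ≤ p B a c := by
      intro a c
      simp only [hp]
      split_ifs
      · exact hg0 _ _
      · exact le_rfl
    have hp1 : ∀ a < n, ∑ c, p B a c = 1 := by
      intro a ha
      have haN : a / B < N := by
        rw [Nat.div_lt_iff_lt_mul hB0]; exact ha
      simp only [hp]
      have h1 : ∑ c : Fin r, (if c.val < K * q then g (c.val / q) (a / B) else 0) =
          ∑ v ∈ range r, (if v < K * q then g (v / q) (a / B) else 0) := by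
        rw [Finset.sum_range]
      rw [h1, ← Finset.sum_filter]
      have h2 : (range r).filter (fun v => v < K * q) = range (K * q) := by
        ext v; simp only [mem_filter, mem_range]; omega
      rw [h2, sum_div_blocks (fun i => g i (a / B)) q hq K]
      simp only [hg]
      rw [← Finset.sum_div]
      have h3 : ∑ i ∈ range K, (G i (a / B) : ℝ) = ((K * D : ℕ) : ℝ) := by
        rw [← hG _ haN]; push_cast; rfl
      rw [h3, hE]
      push_cast
      have hK' : (K:ℝ) ≠ 0 := by exact_mod_cast hK.ne'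
      have hq' : (q:ℝ) ≠ 0 := by exact_mod_cast hq.ne'
      have hD' : (D:ℝ) ≠ 0 := by exact_mod_cast hD.ne'
      field_simp
    have hpn : ∀ a, n ≤ a → ∀ c, p B a c = 0 := by
      intro a ha c
      simp only [hp]
      split_ifs with h
      · have haN : N ≤ a / B := by
          rw [Nat.le_div_iff_mul_le hB0]; exact ha
        have hi : c.val / q < K := by
          rw [Nat.div_lt_iff_lt_mul hq]; exact h
        simp only [hg]
        rw [hG0 _ hi _ haN]
        simp
      · rfl
    obtain ⟨ω, hω, hcount⟩ := good_labelling (p B) n δ hδ0 hδ1 hp0 hp1 hpn hbig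
    have hV : ∀ k : ℕ, ∀ c : Fin r,
        ∑ a ∈ Finset.range (k + 1), (if a < n ∧ ω a = some c then (1:ℝ) else 0) *
          (if k - a < n ∧ ω (k - a) = some c then (1:ℝ) else 0) ≤ B * W + 2 * δ * n + 1 := by
      intro k c
      refine (hcount k c).trans ?_
      have h1 : ∑ a ∈ range (k + 1), p B a c * p B (k - a) c ≤ B * W := by
        by_cases hc : c.val < K * q
        · have hi : c.val / q < K := by
            rw [Nat.div_lt_iff_lt_mul hq]; exact hc
          simp only [hp, hc, if_true]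
          exact block_conv (g (c.val / q)) (hg0 _) W (hgW _ hi) B hB0 k
        · simp only [hp, hc, if_false, mul_zero, Finset.sum_const_zero]
          positivity
      linarith
    have hfin := realise hr0 n hnpos ω hω (B * W + 2 * δ * n + 1) (by positivity) hV ε hA
    refine hfin.trans ?_
    have hBr : (0:ℝ) < B := by exact_mod_cast hB0
    have h1 : (B * W + 2 * δ * n + 1) / n = W / N + 2 * δ + 1 / n := by
      rw [hn]; push_cast
      field_simp
    rw [h1]
    have h2 : 1 / (n:ℝ) ≤ δ := by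
      rw [div_le_iff₀ hnr]
      have h3 : 1 / δ < (n:ℝ) := by
        refine lt_of_lt_of_le hn1 ?_
        have : n1 ≤ n := by omega
        exact_mod_cast this
      rw [div_lt_iff₀ hδ0] at h3
      linarith
    linarith
  have hfin : ε ≤ W / N := by
    apply le_of_forall_pos_le_add
    intro η hη
    have h := main (min 1 (η / 3)) (by positivity) (min_le_left _ _)
    have h2 : min 1 (η / 3) ≤ η / 3 := min_le_right _ _
    linarith
  refine hfin.trans (le_of_eq ?_)
  rw [hW]
  field_simp

theorem ms_upper_abstract (K N D U : ℕ) (G : ℕ → ℕ → ℕ) (hK : 0 < K) (hN : 0 < N) (hD : 0 < D)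
    (hG : ∀ t < N, ∑ i ∈ range K, G i t = K * D) (hG0 : ∀ i < K, ∀ t, N ≤ t → G i t = 0)
    (hU : ∀ i < K, ∀ m, ∑ u ∈ range (m + 1), G i u * G i (m - u) ≤ U)
    (q : ℕ) (hq : 0 < q) (r : ℕ) (hr : K * q ≤ r) :
    ms r ≤ U / (N * ((K * q * D : ℕ) : ℝ) ^ 2) := by
  apply Real.sSup_le
  · intro ε hε
    exact upper_abstract K N D U G hK hN hD hG hG0 hU q hq r hr ε hε
  · positivity

end Pool.Agent.H63.MS
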