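import Mathlib

/-!
Polynomial tools: a Lagrange functional on a finite grid and isolating products of linear factors.
-/

set_option autoImplicit false

namespace Pool.Agent.H63.UWC

open MvPolynomial Finset

/-- Lagrange nodal weights on a finite set of reals. -/
noncomputable def psi (S : Finset ℝ) (s : ℝ) : ℝ := (∏ t ∈ S.erase s, (s - t))⁻¹

lemma psi_ne_zero (S : Finset ℝ) (s : ℝ) : psi S s ≠ 0 := by
  unfold psi
  apply inv_ne_zero
  rw [Finset.prod_ne_zero_iff]
  intro t ht
  exact sub_ne_zero.mpr (Finset.ne_of_mem_erase ht).symm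

lemma sum_psi_pow {S : Finset ℝ} {k : ℕ} (hk : k + 1 < S.card) :
    ∑ s ∈ S, psi S s * s ^ k = 0 := by
  have h := Lagrange.coeff_eq_sum (s := S) (v := (id : ℝ → ℝ)) (Function.injective_id.injOn)
    (P := Polynomial.X ^ k) (by
      rw [Polynomial.degree_X_pow]
      exact_mod_cast (by omega : k < S.card))
  rw [Polynomial.coeff_X_pow, if_neg (by omega)] at h
  simp only [Polynomial.eval_pow, Polynomial.eval_X, id] at h
  rw [h]
  refine Finset.sum_congr rfl ?_
  intro s _
  unfold psi
  rw [div_eq_mul_inv, mul_comm]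

/-- The tensor power of the Lagrange functional kills polynomials of small degree. -/
lemma sum_functional_eq_zero {E : Type*} [Fintype E] [DecidableEq E] (S : Finset ℝ)
    (F : MvPolynomial E ℝ) (h : F.totalDegree < (S.card - 1) * Fintype.card E) :
    ∑ w ∈ Fintype.piFinset (fun _ : E => S), (∏ e, psi S (w e)) * eval w F = 0 := by
  have h1 : ∀ w : E → ℝ, (∏ e, psi S (w e)) * eval w F
      = ∑ d ∈ F.support, coeff d F * ∏ e, (psi S (w e) * w e ^ d e) := by
    intro w
    rw [MvPolynomial.eval_eq', Finset.mul_sum]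
    refine Finset.sum_congr rfl ?_
    intro d _
    rw [Finset.prod_mul_distrib]
    ring
  rw [Finset.sum_congr rfl (fun w _ => h1 w), Finset.sum_comm]
  refine Finset.sum_eq_zero ?_
  intro d hd
  rw [← Finset.mul_sum]
  have h2 : ∑ w ∈ Fintype.piFinset (fun _ : E => S), ∏ e, (psi S (w e) * w e ^ d e)
      = ∏ e, ∑ s ∈ S, psi S s * s ^ d e := by
    rw [Finset.prod_univ_sum]
  rw [h2]
  have h3 : ∃ e, d e + 1 < S.card := by
    by_contra hcon
    push Not at hcon
    have hdeg : (∑ e, d e) ≤ F.totalDegree := by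
      have := MvPolynomial.le_totalDegree hd
      rw [Finsupp.sum_fintype] at this
      · exact this
      · intro i; rfl
    have : (S.card - 1) * Fintype.card E ≤ ∑ e, d e := by
      calc (S.card - 1) * Fintype.card E = ∑ _e : E, (S.card - 1) := by
            rw [Finset.sum_const, Finset.card_univ, smul_eq_mul, mul_comm]
        _ ≤ ∑ e, d e := Finset.sum_le_sum (fun e _ => by have := hcon e; omega)
    omega
  obtain ⟨e, he⟩ := h3
  rw [Finset.prod_eq_zero (Finset.mem_univ e) (sum_psi_pow he), mul_zero]

/-- In a nonempty set `W` of points of `S ^ E`, `|S| ≤ 3`, some point can be isolated by a product of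
at most `t` linear factors with `3 ^ t ≤ |W| ^ 2`. -/
lemma exists_isolating {E : Type*} [Fintype E] [DecidableEq E] (S : Finset ℝ) (hS : S.card ≤ 3) :
    ∀ (n : ℕ) (W : Finset (E → ℝ)), W.card = n → W.Nonempty → (∀ w ∈ W, ∀ e, w e ∈ S) →
    ∃ (g : MvPolynomial E ℝ) (t : ℕ), g.totalDegree ≤ t ∧ 3 ^ t ≤ W.card ^ 2 ∧
      ∃ w₀ ∈ W, eval w₀ g ≠ 0 ∧ ∀ w ∈ W, w ≠ w₀ → eval w g = 0 := by
  intro n
  induction n using Nat.strong_induction_on with
  | _ n ih =>
    intro W hWn hW hWS
    classical
    by_cases h1 : W.card = 1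
    · obtain ⟨w, hw⟩ := Finset.card_eq_one.mp h1
      refine ⟨1, 0, ?_, ?_, w, ?_, ?_, ?_⟩
      · simp
      · rw [h1]; norm_num
      · rw [hw]; simp
      · simp
      · intro w' hw' hne
        rw [hw, Finset.mem_singleton] at hw'
        exact absurd hw' hne
    · have h2 : 1 < W.card := by
        have := hW.card_pos
        omega
      obtain ⟨w1, hw1, w2, hw2, hne⟩ := Finset.one_lt_card.mp h2
      obtain ⟨e, he⟩ := Function.ne_iff.mp hne
      set T := W.image (fun w => w e) with hT
      have hT2 : 1 < T.card := by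
        rw [Finset.one_lt_card]
        exact ⟨w1 e, Finset.mem_image_of_mem _ hw1, w2 e, Finset.mem_image_of_mem _ hw2, he⟩
      have hTS : T ⊆ S := by
        intro x hx
        obtain ⟨w, hw, rfl⟩ := Finset.mem_image.mp hx
        exact hWS w hw e
      have hT3 : T.card ≤ 3 := le_trans (Finset.card_le_card hTS) hS
      have hcard : W.card = ∑ c ∈ T, (W.filter (fun w => w e = c)).card :=
        Finset.card_eq_sum_card_image (fun w => w e) W
      have hex : ∃ c ∈ T, T.card * (W.filter (fun w => w e = c)).card ≤ W.card := by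
        by_contra hcon
        push Not at hcon
        have hTne : T.Nonempty := Finset.card_pos.mp (by omega)
        have hlt : ∑ c ∈ T, W.card < ∑ c ∈ T, T.card * (W.filter (fun w => w e = c)).card :=
          Finset.sum_lt_sum_of_nonempty hTne hcon
        rw [Finset.sum_const, smul_eq_mul, ← Finset.mul_sum, ← hcard] at hlt
        exact lt_irrefl _ hlt
      obtain ⟨c, hcT, hc⟩ := hex
      set W' := W.filter (fun w => w e = c) with hW'
      have hW'ne : W'.Nonempty := by
        obtain ⟨w, hw, hwc⟩ := Finset.mem_image.mp hcT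
        exact ⟨w, Finset.mem_filter.mpr ⟨hw, hwc⟩⟩
      have hW'pos := hW'ne.card_pos
      have hlt : W'.card < n := by
        rw [← hWn]
        nlinarith
      obtain ⟨g', t', hg't', ht', w₀, hw₀, hw₀g, huniq⟩ :=
        ih W'.card hlt W' rfl hW'ne (fun w hw => hWS w (Finset.mem_filter.mp hw).1)
      refine ⟨(∏ c' ∈ T.erase c, (X e - C c')) * g', (T.card - 1) + t', ?_, ?_, w₀,
        (Finset.mem_filter.mp hw₀).1, ?_, ?_⟩
      · refine le_trans (totalDegree_mul _ _) (Nat.add_le_add ?_ hg't')
        refine le_trans (totalDegree_finsetProd _ _) ?_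
        calc ∑ c' ∈ T.erase c, (X e - C c' : MvPolynomial E ℝ).totalDegree
            ≤ ∑ c' ∈ T.erase c, 1 := by
              refine Finset.sum_le_sum (fun c' _ => ?_)
              refine le_trans (totalDegree_sub _ _) ?_
              rw [totalDegree_X, totalDegree_C]
              simp
          _ = T.card - 1 := by
              rw [Finset.sum_const, smul_eq_mul, mul_one, Finset.card_erase_of_mem hcT]
      · have h3 : 3 ^ (T.card - 1) ≤ T.card ^ 2 := by
          have : T.card = 2 ∨ T.card = 3 := by omega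
          rcases this with h | h <;> rw [h] <;> norm_num
        calc 3 ^ (T.card - 1 + t') = 3 ^ (T.card - 1) * 3 ^ t' := pow_add _ _ _
          _ ≤ T.card ^ 2 * W'.card ^ 2 := Nat.mul_le_mul h3 ht'
          _ = (T.card * W'.card) ^ 2 := by ring
          _ ≤ W.card ^ 2 := Nat.pow_le_pow_left hc 2
      · rw [map_mul, map_prod]
        refine mul_ne_zero ?_ hw₀g
        rw [Finset.prod_ne_zero_iff]
        intro c' hc'
        rw [map_sub, eval_X, eval_C, (Finset.mem_filter.mp hw₀).2]
        exact sub_ne_zero.mpr (Finset.ne_of_mem_erase hc').symm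
      · intro w hw hwne
        rw [map_mul, map_prod]
        by_cases hwc : w e = c
        · rw [huniq w (Finset.mem_filter.mpr ⟨hw, hwc⟩) hwne, mul_zero]
        · have : w e ∈ T.erase c :=
            Finset.mem_erase.mpr ⟨hwc, Finset.mem_image_of_mem _ hw⟩
          rw [Finset.prod_eq_zero this, zero_mul]
          rw [map_sub, eval_X, eval_C, sub_self]

/-- A polynomial of total degree at most `|E|` that is nonzero somewhere on `S ^ E`, `|S| = 3`, is
nonzero at at least `3 ^ (|E| / 2)` points of the grid. -/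
lemma card_nonzero_sq_ge {E : Type*} [Fintype E] [DecidableEq E] (S : Finset ℝ) (hS : S.card = 3)
    (P : MvPolynomial E ℝ) (hP : P.totalDegree ≤ Fintype.card E) (W : Finset (E → ℝ))
    (hW : ∀ w, w ∈ W ↔ (∀ e, w e ∈ S) ∧ eval w P ≠ 0) (hWne : W.Nonempty) :
    3 ^ Fintype.card E ≤ W.card ^ 2 := by
  obtain ⟨g, t, hgt, ht, w₀, hw₀, hw₀g, huniq⟩ :=
    exists_isolating S (le_of_eq hS) W.card W rfl hWne (fun w hw => ((hW w).mp hw).1)
  by_contra hcon
  push Not at hcon
  have htE : t < Fintype.card E := by
    by_contra hge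
    push Not at hge
    have := Nat.pow_le_pow_right (n := 3) (by norm_num) hge
    omega
  have hdeg : (P * g).totalDegree < (S.card - 1) * Fintype.card E := by
    refine lt_of_le_of_lt (totalDegree_mul _ _) ?_
    rw [hS]
    omega
  have hsum := sum_functional_eq_zero S (P * g) hdeg
  rw [Finset.sum_eq_single w₀] at hsum
  · rw [map_mul] at hsum
    have h1 : ∏ e, psi S (w₀ e) ≠ 0 := by
      rw [Finset.prod_ne_zero_iff]
      intro e _
      exact psi_ne_zero S _
    exact (mul_ne_zero h1 (mul_ne_zero ((hW w₀).mp hw₀).2 hw₀g)) hsum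
  · intro w hw hne
    rw [map_mul]
    by_cases hwW : w ∈ W
    · rw [huniq w hwW hne, mul_zero, mul_zero]
    · have : eval w P = 0 := by
        by_contra hP0
        exact hwW ((hW w).mpr ⟨fun e => (Fintype.mem_piFinset.mp hw) e, hP0⟩)
      rw [this, zero_mul, mul_zero]
  · intro hnot
    exact absurd (Fintype.mem_piFinset.mpr ((hW w₀).mp hw₀).1) hnot

end Pool.Agent.H63.UWC
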