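import Mathlib

/-!
Edge weightings of finite simple graphs, vertex sums, and unique weight colourability.
-/

set_option autoImplicit false

namespace Pool.Agent.H63.UWC

variable {V : Type*} [Fintype V]

open scoped Classical in
/-- `vertexSum G w v` is the sum of the weights `w e` over all edges `e` of `G` incident with the
vertex `v`. -/
noncomputable def vertexSum (G : SimpleGraph V) (w : G.edgeSet → ℝ) (v : V) : ℝ :=
  ∑ e : G.edgeSet, if v ∈ (e : Sym2 V) then w e else 0

/-- The edge weighting `w` properly colours the vertices by sums: adjacent vertices have different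
sums. -/
def ProperBySums (G : SimpleGraph V) (w : G.edgeSet → ℝ) : Prop :=
  ∀ u v, G.Adj u v → vertexSum G w u ≠ vertexSum G w v

/-- Two edge weightings `w`, `w'` are isomorphic if `w' (φ e) = w e` for all edges `e`, for some
automorphism `φ` of `G`. -/
def IsoWeightings (G : SimpleGraph V) (w w' : G.edgeSet → ℝ) : Prop :=
  ∃ φ : G ≃g G, ∀ e : G.edgeSet, w' (φ.mapEdgeSet e) = w e

/-- `G` is uniquely `S`-weight colourable: it has an edge weighting with values in `S` that properly
colours the vertices by sums, and any two such weightings are isomorphic. -/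
def UniquelyWeightColourable (G : SimpleGraph V) (S : Set ℝ) : Prop :=
  (∃ w : G.edgeSet → ℝ, (∀ e, w e ∈ S) ∧ ProperBySums G w) ∧
  ∀ w w' : G.edgeSet → ℝ, (∀ e, w e ∈ S) → ProperBySums G w →
    (∀ e, w' e ∈ S) → ProperBySums G w' → IsoWeightings G w w'

end Pool.Agent.H63.UWC
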