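import Mathlib
import Pool.Agent.H63.UWC1
import Pool.Agent.H63.UWCDefs

/-!
Edge weightings, vertex sums, and the invariant-dart argument.
-/

set_option autoImplicit false

namespace Pool.Agent.H63.UWC

open MvPolynomial Finset

variable {V : Type*} [Fintype V]

lemma mem_mapEdgeSet {G : SimpleGraph V} (φ : G ≃g G) (e : G.edgeSet) (v : V) :
    φ v ∈ (φ.mapEdgeSet e : Sym2 V) ↔ v ∈ (e : Sym2 V) := by
  obtain ⟨e, he⟩ := e
  induction e using Sym2.ind with
  | _ x y =>
    simp [SimpleGraph.Iso.mapEdgeSet, SimpleGraph.Hom.mapEdgeSet]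

lemma vertexSum_iso {G : SimpleGraph V} {w w' : G.edgeSet → ℝ} (φ : G ≃g G)
    (h : ∀ e : G.edgeSet, w' (φ.mapEdgeSet e) = w e) (v : V) :
    vertexSum G w' (φ v) = vertexSum G w v := by
  classical
  unfold vertexSum
  rw [← Equiv.sum_comp φ.mapEdgeSet]
  refine Finset.sum_congr rfl ?_
  intro e _
  rw [h e]
  by_cases hv : v ∈ (e : Sym2 V)
  · rw [if_pos hv, if_pos ((mem_mapEdgeSet φ e v).mpr hv)]
  · rw [if_neg hv, if_neg (fun h' => hv ((mem_mapEdgeSet φ e v).mp h'))]

open scoped Classical in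
/-- The linear form giving the sum at `v`. -/
noncomputable def sigmaPoly (G : SimpleGraph V) (v : V) : MvPolynomial G.edgeSet ℝ :=
  ∑ e : G.edgeSet, if v ∈ (e : Sym2 V) then X e else 0

lemma eval_sigmaPoly (G : SimpleGraph V) (w : G.edgeSet → ℝ) (v : V) :
    eval w (sigmaPoly G v) = vertexSum G w v := by
  classical
  unfold sigmaPoly vertexSum
  rw [map_sum]
  refine Finset.sum_congr rfl ?_
  intro e _
  by_cases hv : v ∈ (e : Sym2 V)
  · rw [if_pos hv, if_pos hv, eval_X]
  · rw [if_neg hv, if_neg hv, map_zero]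

lemma totalDegree_sigmaPoly_le (G : SimpleGraph V) (v : V) :
    (sigmaPoly G v).totalDegree ≤ 1 := by
  classical
  unfold sigmaPoly
  refine totalDegree_finsetSum_le ?_
  intro e _
  by_cases hv : v ∈ (e : Sym2 V)
  · rw [if_pos hv, totalDegree_X]
  · rw [if_neg hv, totalDegree_zero]
    exact Nat.zero_le _

/-- Product over ordered pairs in `D` of the differences of sums. -/
noncomputable def dartPoly (G : SimpleGraph V) (D : Finset (V × V)) : MvPolynomial G.edgeSet ℝ :=
  ∏ p ∈ D, (sigmaPoly G p.1 - sigmaPoly G p.2)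

lemma eval_dartPoly (G : SimpleGraph V) (D : Finset (V × V)) (w : G.edgeSet → ℝ) :
    eval w (dartPoly G D) = ∏ p ∈ D, (vertexSum G w p.1 - vertexSum G w p.2) := by
  unfold dartPoly
  rw [map_prod]
  refine Finset.prod_congr rfl ?_
  intro p _
  rw [map_sub, eval_sigmaPoly, eval_sigmaPoly]

lemma totalDegree_dartPoly_le (G : SimpleGraph V) (D : Finset (V × V)) :
    (dartPoly G D).totalDegree ≤ D.card := by
  unfold dartPoly
  refine le_trans (totalDegree_finsetProd _ _) ?_
  calc ∑ p ∈ D, (sigmaPoly G p.1 - sigmaPoly G p.2).totalDegree ≤ ∑ p ∈ D, 1 := by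
        refine Finset.sum_le_sum (fun p _ => ?_)
        refine le_trans (totalDegree_sub _ _) ?_
        exact max_le (totalDegree_sigmaPoly_le G _) (totalDegree_sigmaPoly_le G _)
    _ = D.card := by rw [Finset.sum_const, smul_eq_mul, mul_one]

/-- If `D` is a set of ordered adjacent pairs containing at least one orientation of each edge then
`dartPoly` is nonzero exactly at the weightings that are proper. -/
lemma eval_dartPoly_ne_zero_iff (G : SimpleGraph V) (D : Finset (V × V))
    (hD1 : ∀ p ∈ D, G.Adj p.1 p.2) (hD2 : ∀ u v, G.Adj u v → (u, v) ∈ D ∨ (v, u) ∈ D)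
    (w : G.edgeSet → ℝ) : eval w (dartPoly G D) ≠ 0 ↔ ProperBySums G w := by
  rw [eval_dartPoly, Finset.prod_ne_zero_iff]
  constructor
  · intro h u v huv
    rcases hD2 u v huv with h' | h'
    · exact sub_ne_zero.mp (h _ h')
    · exact (sub_ne_zero.mp (h _ h')).symm
  · intro h p hp
    exact sub_ne_zero.mpr (h _ _ (hD1 p hp))

/-- The main symmetry argument. -/
lemma card_invariant_darts_ge (G : SimpleGraph V) (S : Finset ℝ)
    (hG : UniquelyWeightColourable G (S : Set ℝ)) (D : Finset (V × V))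
    (hD1 : ∀ p ∈ D, G.Adj p.1 p.2) (hD2 : ∀ u v, G.Adj u v → (u, v) ∈ D ∨ (v, u) ∈ D)
    (hD3 : ∀ (φ : G ≃g G), ∀ p ∈ D, (φ p.1, φ p.2) ∈ D) :
    (S.card - 1) * Nat.card G.edgeSet ≤ D.card := by
  classical
  by_contra hcon
  push Not at hcon
  have hdeg : (dartPoly G D).totalDegree < (S.card - 1) * Fintype.card G.edgeSet := by
    rw [← Nat.card_eq_fintype_card]
    exact lt_of_le_of_lt (totalDegree_dartPoly_le G D) hcon
  have hsum := sum_functional_eq_zero S (dartPoly G D) hdeg
  obtain ⟨⟨w₀, hw₀S, hw₀⟩, huniq⟩ := hG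
  have hne0 := (eval_dartPoly_ne_zero_iff G D hD1 hD2 w₀).mpr hw₀
  -- each term is either zero or equal to the term at w₀
  have hterm : ∀ w ∈ Fintype.piFinset (fun _ : G.edgeSet => S),
      (∏ e, psi S (w e)) * eval w (dartPoly G D)
        = if ProperBySums G w then (∏ e, psi S (w₀ e)) * eval w₀ (dartPoly G D) else 0 := by
    intro w hw
    by_cases hp : ProperBySums G w
    · rw [if_pos hp]
      obtain ⟨φ, hφ⟩ := huniq w₀ w hw₀S hw₀ (fun e => Fintype.mem_piFinset.mp hw e) hp
      have h1 : ∏ e, psi S (w e) = ∏ e, psi S (w₀ e) := by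
        rw [← Equiv.prod_comp φ.mapEdgeSet]
        refine Finset.prod_congr rfl ?_
        intro e _
        rw [hφ e]
      have h2 : eval w (dartPoly G D) = eval w₀ (dartPoly G D) := by
        rw [eval_dartPoly, eval_dartPoly]
        symm
        refine Finset.prod_bij (fun p _ => (φ p.1, φ p.2)) ?_ ?_ ?_ ?_
        · intro p hp'
          exact hD3 φ p hp'
        · intro p _ q _ hpq
          rw [Prod.mk.injEq] at hpq
          exact Prod.ext (φ.injective hpq.1) (φ.injective hpq.2)
        · intro q hq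
          refine ⟨(φ.symm q.1, φ.symm q.2), hD3 φ.symm q hq, ?_⟩
          simp
        · intro p _
          rw [vertexSum_iso φ hφ, vertexSum_iso φ hφ]
      rw [h1, h2]
    · rw [if_neg hp]
      have : eval w (dartPoly G D) = 0 := by
        by_contra h0
        exact hp ((eval_dartPoly_ne_zero_iff G D hD1 hD2 w).mp h0)
      rw [this, mul_zero]
  rw [Finset.sum_congr rfl hterm, ← Finset.sum_filter, Finset.sum_const, nsmul_eq_mul] at hsum
  have hpsi : ∏ e, psi S (w₀ e) ≠ 0 := by
    rw [Finset.prod_ne_zero_iff]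
    intro e _
    exact psi_ne_zero S _
  have hcard : ((Fintype.piFinset (fun _ : G.edgeSet => S)).filter
      (fun w => ProperBySums G w)).card ≠ 0 := by
    rw [← Nat.pos_iff_ne_zero, Finset.card_pos]
    exact ⟨w₀, Finset.mem_filter.mpr ⟨Fintype.mem_piFinset.mpr hw₀S, hw₀⟩⟩
  exact (mul_ne_zero (by exact_mod_cast hcard) (mul_ne_zero hpsi hne0)) hsum

open scoped Classical in
/-- All ordered adjacent pairs. -/
noncomputable def allDarts (G : SimpleGraph V) : Finset (V × V) :=
  Finset.univ.filter (fun p => G.Adj p.1 p.2)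

lemma card_allDarts (G : SimpleGraph V) : (allDarts G).card = 2 * Nat.card G.edgeSet := by
  classical
  have h := G.dart_card_eq_twice_card_edges
  have h2 : Nat.card G.edgeSet = G.edgeFinset.card := by
    rw [Nat.card_eq_fintype_card, SimpleGraph.edgeFinset_card]
  rw [h2, ← h]
  unfold allDarts
  symm
  rw [← Finset.card_univ]
  refine Finset.card_bij (fun d _ => d.toProd) ?_ ?_ ?_
  · intro d _
    exact Finset.mem_filter.mpr ⟨Finset.mem_univ _, d.adj⟩
  · intro d _ d' _ hdd
    exact SimpleGraph.Dart.ext _ _ hdd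
  · intro p hp
    exact ⟨⟨p, (Finset.mem_filter.mp hp).2⟩, Finset.mem_univ _, rfl⟩

/-- With at least four weights nothing with an edge is uniquely weight colourable. -/
lemma not_unique_of_four (G : SimpleGraph V) (S : Finset ℝ) (hS : 4 ≤ S.card)
    (hE : G.edgeSet.Nonempty) : ¬ UniquelyWeightColourable G (S : Set ℝ) := by
  classical
  intro hG
  have h := card_invariant_darts_ge G S hG (allDarts G)
    (fun p hp => (Finset.mem_filter.mp hp).2)
    (fun u v huv => Or.inl (Finset.mem_filter.mpr ⟨Finset.mem_univ _, huv⟩))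
    (fun φ p hp => Finset.mem_filter.mpr ⟨Finset.mem_univ _,
      φ.map_adj_iff.mpr (Finset.mem_filter.mp hp).2⟩)
  rw [card_allDarts] at h
  have hpos : 0 < Nat.card G.edgeSet := by
    rw [Nat.card_pos_iff]
    exact ⟨hE.to_subtype, inferInstance⟩
  have h3 : 3 ≤ S.card - 1 := by omega
  nlinarith

/-- With three weights every edge of a uniquely weight colourable graph can be reversed by an
automorphism. -/
lemma reversible_of_three (G : SimpleGraph V) (S : Finset ℝ) (hS : S.card = 3)
    (hG : UniquelyWeightColourable G (S : Set ℝ)) (x y : V) (hxy : G.Adj x y) :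
    ∃ φ : G ≃g G, φ x = y ∧ φ y = x := by
  classical
  by_contra hcon
  push Not at hcon
  set D : Finset (V × V) := (allDarts G).filter (fun p => ¬ ∃ φ : G ≃g G, (φ y, φ x) = p) with hD
  have h := card_invariant_darts_ge G S hG D ?_ ?_ ?_
  · have hlt : D.card < (allDarts G).card := by
      refine Finset.card_lt_card ?_
      rw [Finset.ssubset_iff_of_subset (Finset.filter_subset _ _)]
      refine ⟨(y, x), Finset.mem_filter.mpr ⟨Finset.mem_univ _, hxy.symm⟩, ?_⟩
      intro hmem
      exact (Finset.mem_filter.mp hmem).2 ⟨RelIso.refl _, rfl⟩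
    rw [card_allDarts] at hlt
    rw [hS] at h
    omega
  · intro p hp
    exact (Finset.mem_filter.mp (Finset.mem_filter.mp hp).1).2
  · intro u v huv
    by_contra hno
    push Not at hno
    have h1 : ∃ φ : G ≃g G, (φ y, φ x) = (u, v) := by
      by_contra hne
      exact hno.1 (Finset.mem_filter.mpr ⟨Finset.mem_filter.mpr ⟨Finset.mem_univ _, huv⟩, hne⟩)
    have h2 : ∃ φ : G ≃g G, (φ y, φ x) = (v, u) := by
      by_contra hne
      exact hno.2 (Finset.mem_filter.mpr ⟨Finset.mem_filter.mpr ⟨Finset.mem_univ _, huv.symm⟩,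
        hne⟩)
    obtain ⟨φ, hφ⟩ := h1
    obtain ⟨ψ, hψ⟩ := h2
    rw [Prod.mk.injEq] at hφ hψ
    have ha : (ψ.trans φ.symm) y = x := by
      change φ.symm (ψ y) = x
      rw [hψ.1, ← hφ.2]
      exact φ.symm_apply_apply x
    have hb : (ψ.trans φ.symm) x = y := by
      change φ.symm (ψ x) = y
      rw [hψ.2, ← hφ.1]
      exact φ.symm_apply_apply y
    exact hcon _ hb ha
  · intro φ p hp
    rw [Finset.mem_filter] at hp ⊢
    refine ⟨Finset.mem_filter.mpr ⟨Finset.mem_univ _,
      φ.map_adj_iff.mpr (Finset.mem_filter.mp hp.1).2⟩, ?_⟩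
    rintro ⟨ψ, hψ⟩
    refine hp.2 ⟨ψ.trans φ.symm, ?_⟩
    rw [Prod.mk.injEq] at hψ
    refine Prod.ext ?_ ?_
    · change φ.symm (ψ y) = p.1
      rw [hψ.1]
      exact φ.symm_apply_apply p.1
    · change φ.symm (ψ x) = p.2
      rw [hψ.2]
      exact φ.symm_apply_apply p.2

end Pool.Agent.H63.UWC
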