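import Mathlib
import Pool.Agent.H63.UWC2

/-!
Counting automorphisms of a connected regular graph.
-/

set_option autoImplicit false

namespace Pool.Agent.H63.UWC

open Finset

variable {V : Type*} [Fintype V]

open scoped Classical in
/-- The automorphisms as a finite set of functions. -/
noncomputable def autSet (G : SimpleGraph V) : Finset (V → V) :=
  Finset.univ.filter (fun f => ∃ φ : G ≃g G, ∀ v, φ v = f v)

open scoped Classical in
/-- `mask v₀ S f` agrees with `f` on `S` and is constantly `v₀` elsewhere. -/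
noncomputable def mask (v₀ : V) (S : Finset V) (f : V → V) : V → V :=
  fun v => if v ∈ S then f v else v₀

lemma mem_autSet {G : SimpleGraph V} {f : V → V} :
    f ∈ autSet G ↔ ∃ φ : G ≃g G, ∀ v, φ v = f v := by
  classical
  unfold autSet
  simp

open scoped Classical in
/-- number of restrictions of automorphisms to `S` -/
noncomputable def restr (G : SimpleGraph V) (v₀ : V) (S : Finset V) : Finset (V → V) :=
  (autSet G).image (mask v₀ S)

lemma mask_mask_of_subset (v₀ : V) {S S' : Finset V} (h : S ⊆ S') (f : V → V) :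
    mask v₀ S (mask v₀ S' f) = mask v₀ S f := by
  classical
  funext v
  unfold mask
  by_cases hv : v ∈ S
  · rw [if_pos hv, if_pos (h hv), if_pos hv]
  · rw [if_neg hv, if_neg hv]

open scoped Classical in
lemma restr_growth (G : SimpleGraph V) (v₀ : V) (S : Finset V) (x : V) (hx : x ∈ S) :
    (restr G v₀ (S ∪ G.neighborFinset x)).card ≤
      (G.neighborFinset x \ S).card.factorial * (restr G v₀ S).card := by
  have himg : (restr G v₀ (S ∪ G.neighborFinset x)).image (mask v₀ S) = restr G v₀ S := by
    unfold restr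
    rw [Finset.image_image]
    refine Finset.image_congr ?_
    intro f _
    exact mask_mask_of_subset v₀ Finset.subset_union_left f
  rw [← himg]
  refine Finset.card_le_mul_card_image _ _ ?_
  intro b hb
  rw [himg] at hb
  obtain ⟨f₀, hf₀, rfl⟩ := Finset.mem_image.mp hb
  obtain ⟨φ₀, hφ₀⟩ := mem_autSet.mp hf₀
  set T := G.neighborFinset x \ S with hT
  set T' := G.neighborFinset (f₀ x) \ (G.neighborFinset x ∩ S).image f₀ with hT'
  have hf₀inj : Function.Injective f₀ := by
    intro a b hab
    rw [← hφ₀ a, ← hφ₀ b] at hab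
    exact φ₀.injective hab
  have hcardT' : T'.card = T.card := by
    have hsub : (G.neighborFinset x ∩ S).image f₀ ⊆ G.neighborFinset (f₀ x) := by
      intro y hy
      obtain ⟨z, hz, rfl⟩ := Finset.mem_image.mp hy
      rw [SimpleGraph.mem_neighborFinset, ← hφ₀ x, ← hφ₀ z]
      exact φ₀.map_adj_iff.mpr (by
        have := (Finset.mem_inter.mp hz).1
        rwa [SimpleGraph.mem_neighborFinset] at this)
    have hdeg : (G.neighborFinset (f₀ x)).card = (G.neighborFinset x).card := by
      rw [SimpleGraph.card_neighborFinset_eq_degree, SimpleGraph.card_neighborFinset_eq_degree,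
        ← hφ₀ x]
      exact φ₀.degree_eq x
    rw [hT', Finset.card_sdiff_of_subset hsub, Finset.card_image_of_injective _ hf₀inj, hdeg, hT]
    have := Finset.card_sdiff_add_card_inter (G.neighborFinset x) S
    omega
  set F := {a ∈ restr G v₀ (S ∪ G.neighborFinset x) | mask v₀ S a = mask v₀ S f₀} with hF
  -- properties of members of the fibre
  have hprop : ∀ a ∈ F, ∃ f : V → V, (∃ φ : G ≃g G, ∀ v, φ v = f v) ∧
      (∀ v ∈ S, f v = f₀ v) ∧ (∀ v ∈ S ∪ G.neighborFinset x, a v = f v) ∧
      (∀ v, v ∉ S ∪ G.neighborFinset x → a v = v₀) := by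
    intro a ha
    rw [hF, Finset.mem_filter] at ha
    obtain ⟨ha1, ha2⟩ := ha
    obtain ⟨f, hf, rfl⟩ := Finset.mem_image.mp ha1
    refine ⟨f, mem_autSet.mp hf, ?_, ?_, ?_⟩
    · intro v hv
      have := congrFun ha2 v
      rw [mask_mask_of_subset v₀ Finset.subset_union_left] at this
      unfold mask at this
      rwa [if_pos hv, if_pos hv] at this
    · intro v hv
      unfold mask
      rw [if_pos hv]
    · intro v hv
      unfold mask
      rw [if_neg hv]
  have hmem : ∀ a ∈ F, ∀ t ∈ T, a t ∈ T' := by
    intro a ha t ht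
    obtain ⟨f, ⟨φ, hφ⟩, hfS, haf, _⟩ := hprop a ha
    rw [hT, Finset.mem_sdiff] at ht
    have hat : a t = f t := haf t (Finset.mem_union_right _ ht.1)
    rw [hat, hT', Finset.mem_sdiff]
    constructor
    · rw [SimpleGraph.mem_neighborFinset, ← hfS x hx, ← hφ x, ← hφ t]
      exact φ.map_adj_iff.mpr (by
        have := ht.1
        rwa [SimpleGraph.mem_neighborFinset] at this)
    · intro hmem
      obtain ⟨s, hs, hst⟩ := Finset.mem_image.mp hmem
      have hs' := Finset.mem_inter.mp hs
      rw [← hfS s hs'.2, ← hφ s, ← hφ t] at hst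
      have := φ.injective hst
      rw [this] at hs'
      exact ht.2 hs'.2
  have hinj : ∀ a ∈ F, ∀ t ∈ T, ∀ t' ∈ T, a t = a t' → t = t' := by
    intro a ha t ht t' ht' h
    obtain ⟨f, ⟨φ, hφ⟩, hfS, haf, _⟩ := hprop a ha
    rw [hT, Finset.mem_sdiff] at ht ht'
    rw [haf t (Finset.mem_union_right _ ht.1), haf t' (Finset.mem_union_right _ ht'.1),
      ← hφ t, ← hφ t'] at h
    exact φ.injective h
  have hcard : Fintype.card F ≤ Fintype.card (T ↪ T') := by
    refine Fintype.card_le_of_injective
      (fun a => (⟨fun t => ⟨a.1 t.1, hmem a.1 a.2 t.1 t.2⟩, ?_⟩ : T ↪ T')) ?_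
    · intro t t' h
      have := congrArg Subtype.val h
      exact Subtype.ext (hinj a.1 a.2 t.1 t.2 t'.1 t'.2 this)
    · intro a a' h
      have hT_eq : ∀ t ∈ T, a.1 t = a'.1 t := by
        intro t ht
        have := DFunLike.congr_fun h ⟨t, ht⟩
        exact congrArg Subtype.val this
      obtain ⟨f, _, hfS, haf, haout⟩ := hprop a.1 a.2
      obtain ⟨f', _, hfS', haf', haout'⟩ := hprop a'.1 a'.2
      refine Subtype.ext (funext fun v => ?_)
      by_cases hv : v ∈ S ∪ G.neighborFinset x
      · by_cases hvS : v ∈ S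
        · rw [haf v hv, haf' v hv, hfS v hvS, hfS' v hvS]
        · refine hT_eq v ?_
          rw [hT, Finset.mem_sdiff]
          exact ⟨(Finset.mem_union.mp hv).resolve_left hvS, hvS⟩
      · rw [haout v hv, haout' v hv]
  rw [Fintype.card_embedding_eq, Fintype.card_coe, Fintype.card_coe, Fintype.card_coe, hcardT',
    Nat.descFactorial_self] at hcard
  exact hcard

lemma factorial_ineq (c : ℕ) (hc : 1 ≤ c) : c.factorial ^ 4 * 6 ^ c ≤ 3 ^ (c * (c + 1)) := by
  induction c, hc using Nat.le_induction with
  | base => norm_num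
  | succ k hk ih =>
    by_cases h2 : k = 1
    · subst h2
      norm_num [Nat.factorial]
    · have hk2 : 2 ≤ k := by omega
      have h3 : 6 * (k + 1) ^ 4 ≤ 9 ^ (k + 1) := by
        clear ih
        induction k, hk2 using Nat.le_induction with
        | base => norm_num
        | succ j hj ihj =>
          have hj' := ihj (by omega) (by omega)
          calc 6 * (j + 1 + 1) ^ 4 ≤ 9 * (6 * (j + 1) ^ 4) := by
                have h5 := Nat.pow_le_pow_left (show 2 * (j + 1 + 1) ≤ 3 * (j + 1) by omega) 4
                rw [Nat.mul_pow, Nat.mul_pow] at h5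
                omega
            _ ≤ 9 * 9 ^ (j + 1) := Nat.mul_le_mul_left _ hj'
            _ = 9 ^ (j + 1 + 1) := by ring
      calc (k + 1).factorial ^ 4 * 6 ^ (k + 1)
          = (k.factorial ^ 4 * 6 ^ k) * (6 * (k + 1) ^ 4) := by
            rw [Nat.factorial_succ]; ring
        _ ≤ 3 ^ (k * (k + 1)) * 9 ^ (k + 1) := Nat.mul_le_mul ih h3
        _ = 3 ^ ((k + 1) * (k + 1 + 1)) := by
            rw [show (9 : ℕ) = 3 ^ 2 by norm_num, ← pow_mul, ← pow_add]
            congr 1
            ring

lemma factorial_ineq' (c d : ℕ) (hc : 1 ≤ c) (hcd : c + 1 ≤ d) :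
    c.factorial ^ 4 * 6 ^ c ≤ 3 ^ (d * c) := by
  refine le_trans (factorial_ineq c hc) ?_
  refine Nat.pow_le_pow_right (by norm_num) ?_
  nlinarith

open scoped Classical in
lemma restr_univ (G : SimpleGraph V) (v₀ : V) : restr G v₀ Finset.univ = autSet G := by
  unfold restr
  have : mask v₀ (Finset.univ : Finset V) = id := by
    funext f v
    unfold mask
    rw [if_pos (Finset.mem_univ v)]
    rfl
  rw [this, Finset.image_id]

open scoped Classical in
/-- Potential argument. -/
lemma aut_potential (G : SimpleGraph V) (hconn : G.Connected) (d : ℕ)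
    (hreg : ∀ v, G.degree v = d) (v₀ : V) :
    ∀ (k : ℕ) (S : Finset V), Fintype.card V - S.card = k → S.Nonempty →
      (∀ x ∈ S, ∃ y ∈ S, G.Adj x y) →
      (autSet G).card ^ 4 * 6 ^ (Fintype.card V - S.card) ≤
        (restr G v₀ S).card ^ 4 * 3 ^ (d * (Fintype.card V - S.card)) := by
  intro k
  induction k using Nat.strong_induction_on with
  | _ k ih =>
    intro S hk hSne hS
    by_cases hSu : S = Finset.univ
    · subst hSu
      rw [restr_univ, Finset.card_univ, Nat.sub_self]
      simp
    · -- find a boundary dart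
      obtain ⟨z, hz⟩ : ∃ z, z ∉ S := by
        by_contra hcon
        push Not at hcon
        exact hSu (Finset.eq_univ_iff_forall.mpr hcon)
      obtain ⟨x₀, hx₀⟩ := hSne
      obtain ⟨p⟩ := hconn.preconnected x₀ z
      obtain ⟨dt, _, hd1, hd2⟩ := p.exists_boundary_dart (S : Set V) hx₀ hz
      set x := dt.fst with hxdef
      have hx : x ∈ S := hd1
      have hzN : dt.snd ∈ G.neighborFinset x \ S := by
        rw [Finset.mem_sdiff, SimpleGraph.mem_neighborFinset]
        exact ⟨dt.adj, hd2⟩
      set c := (G.neighborFinset x \ S).card with hc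
      have hc1 : 1 ≤ c := Finset.card_pos.mpr ⟨_, hzN⟩
      have hcd : c + 1 ≤ d := by
        obtain ⟨y, hyS, hxy⟩ := hS x hx
        have h1 := Finset.card_sdiff_add_card_inter (G.neighborFinset x) S
        have h2 : 1 ≤ (G.neighborFinset x ∩ S).card :=
          Finset.card_pos.mpr ⟨y, Finset.mem_inter.mpr
            ⟨by rw [SimpleGraph.mem_neighborFinset]; exact hxy, hyS⟩⟩
        rw [SimpleGraph.card_neighborFinset_eq_degree, hreg x] at h1
        omega
      have hcardS' : (S ∪ G.neighborFinset x).card = S.card + c := by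
        rw [Finset.union_comm, ← Finset.sdiff_union_self_eq_union, Finset.card_union_of_disjoint
          Finset.sdiff_disjoint]
        omega
      have hle : S.card + c ≤ Fintype.card V := by
        rw [← hcardS']
        exact Finset.card_le_univ _
      have hih := ih (Fintype.card V - (S ∪ G.neighborFinset x).card) (by omega)
        (S ∪ G.neighborFinset x) rfl ⟨x, Finset.mem_union_left _ hx⟩ (by
          intro u hu
          rcases Finset.mem_union.mp hu with hu | hu
          · obtain ⟨y, hy, huy⟩ := hS u hu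
            exact ⟨y, Finset.mem_union_left _ hy, huy⟩
          · rw [SimpleGraph.mem_neighborFinset] at hu
            exact ⟨x, Finset.mem_union_left _ hx, hu.symm⟩)
      have hgrow := restr_growth G v₀ S x hx
      rw [← hc] at hgrow
      have hfac := factorial_ineq' c d hc1 hcd
      obtain ⟨r, hr⟩ := Nat.exists_eq_add_of_le hle
      have e1 : Fintype.card V - (S ∪ G.neighborFinset x).card = r := by omega
      have e2 : Fintype.card V - S.card = c + r := by omega
      rw [e1] at hih
      rw [e2]
      calc (autSet G).card ^ 4 * 6 ^ (c + r) = ((autSet G).card ^ 4 * 6 ^ r) * 6 ^ c := by ring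
        _ ≤ ((restr G v₀ (S ∪ G.neighborFinset x)).card ^ 4 * 3 ^ (d * r)) * 6 ^ c :=
            Nat.mul_le_mul_right _ hih
        _ ≤ ((c.factorial * (restr G v₀ S).card) ^ 4 * 3 ^ (d * r)) * 6 ^ c :=
            Nat.mul_le_mul_right _ (Nat.mul_le_mul_right _ (Nat.pow_le_pow_left hgrow 4))
        _ = (restr G v₀ S).card ^ 4 * 3 ^ (d * r) * (c.factorial ^ 4 * 6 ^ c) := by ring
        _ ≤ (restr G v₀ S).card ^ 4 * 3 ^ (d * r) * 3 ^ (d * c) := Nat.mul_le_mul_left _ hfac
        _ = (restr G v₀ S).card ^ 4 * 3 ^ (d * (c + r)) := by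
            rw [mul_assoc, ← pow_add]
            congr 2
            ring

open scoped Classical in
lemma aut_bound (G : SimpleGraph V) (hconn : G.Connected) (d : ℕ) (hd : 1 ≤ d)
    (hreg : ∀ v, G.degree v = d) :
    (autSet G).card ^ 4 * 6 ^ (Fintype.card V - (d + 1)) ≤
      (Fintype.card V * d.factorial) ^ 4 * 3 ^ (d * (Fintype.card V - (d + 1))) := by
  obtain ⟨v₀⟩ := hconn.nonempty
  have hN : (G.neighborFinset v₀ \ {v₀}) = G.neighborFinset v₀ := by
    rw [Finset.sdiff_singleton_eq_erase, Finset.erase_eq_of_notMem]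
    rw [SimpleGraph.mem_neighborFinset]
    exact G.loopless.irrefl v₀
  have hcardS : (({v₀} : Finset V) ∪ G.neighborFinset v₀).card = d + 1 := by
    rw [Finset.union_comm, ← Finset.sdiff_union_self_eq_union, Finset.card_union_of_disjoint
          Finset.sdiff_disjoint, hN, SimpleGraph.card_neighborFinset_eq_degree, hreg v₀,
          Finset.card_singleton]
  have h1 := aut_potential G hconn d hreg v₀ _ (({v₀} : Finset V) ∪ G.neighborFinset v₀) rfl
    ⟨v₀, Finset.mem_union_left _ (Finset.mem_singleton_self _)⟩ (by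
      intro u hu
      rcases Finset.mem_union.mp hu with hu | hu
      · rw [Finset.mem_singleton] at hu
        subst hu
        have : (G.neighborFinset u).Nonempty := by
          rw [← Finset.card_pos, SimpleGraph.card_neighborFinset_eq_degree, hreg u]
          exact hd
        obtain ⟨y, hy⟩ := this
        exact ⟨y, Finset.mem_union_right _ hy, by rwa [SimpleGraph.mem_neighborFinset] at hy⟩
      · rw [SimpleGraph.mem_neighborFinset] at hu
        exact ⟨v₀, Finset.mem_union_left _ (Finset.mem_singleton_self _), hu.symm⟩)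
  rw [hcardS] at h1
  have h2 := restr_growth G v₀ {v₀} v₀ (Finset.mem_singleton_self _)
  rw [hN, SimpleGraph.card_neighborFinset_eq_degree, hreg v₀] at h2
  have h3 : (restr G v₀ {v₀}).card ≤ Fintype.card V := by
    have : ((restr G v₀ {v₀}).image (fun f => f v₀)).card = (restr G v₀ {v₀}).card := by
      refine Finset.card_image_of_injOn ?_
      intro f hf g hg hfg
      rw [Finset.mem_coe] at hf hg
      obtain ⟨f', _, rfl⟩ := Finset.mem_image.mp hf
      obtain ⟨g', _, rfl⟩ := Finset.mem_image.mp hg
      funext v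
      by_cases hv : v = v₀
      · subst hv
        exact hfg
      · unfold mask
        rw [if_neg (by simpa using hv), if_neg (by simpa using hv)]
    rw [← this]
    exact Finset.card_le_univ _
  refine le_trans h1 (Nat.mul_le_mul_right _ (Nat.pow_le_pow_left ?_ 4))
  calc (restr G v₀ ({v₀} ∪ G.neighborFinset v₀)).card
      ≤ d.factorial * (restr G v₀ {v₀}).card := h2
    _ ≤ d.factorial * Fintype.card V := Nat.mul_le_mul_left _ h3
    _ = Fintype.card V * d.factorial := mul_comm _ _

/-- The numerical contradiction. -/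
lemma numeric_d3 (d : ℕ) (hd : 3 ≤ d) : ((d + 1) * d.factorial) ^ 4 < 3 ^ (d * (d + 1)) := by
  induction d, hd using Nat.le_induction with
  | base => norm_num [Nat.factorial]
  | succ k hk ih =>
    have h3 : (k + 2) ^ 4 ≤ 9 ^ (k + 1) := by
      clear ih
      induction k, hk using Nat.le_induction with
      | base => norm_num
      | succ j hj ihj =>
        calc (j + 1 + 2) ^ 4 ≤ 9 * (j + 2) ^ 4 := by
              have h5 := Nat.pow_le_pow_left (show 2 * (j + 1 + 2) ≤ 3 * (j + 2) by omega) 4
              rw [Nat.mul_pow, Nat.mul_pow] at h5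
              omega
          _ ≤ 9 * 9 ^ (j + 1) := Nat.mul_le_mul_left _ ihj
          _ = 9 ^ (j + 1 + 1) := by ring
    calc ((k + 1 + 1) * (k + 1).factorial) ^ 4 = ((k + 1) * k.factorial) ^ 4 * (k + 2) ^ 4 := by
          rw [Nat.factorial_succ]; ring
      _ < 3 ^ (k * (k + 1)) * 9 ^ (k + 1) := by
          refine Nat.mul_lt_mul_of_lt_of_le ih h3 (by positivity)
      _ = 3 ^ ((k + 1) * (k + 1 + 1)) := by
          rw [show (9 : ℕ) = 3 ^ 2 by norm_num, ← pow_mul, ← pow_add]
          congr 1
          ring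

lemma numeric_step (n d r : ℕ) (hn : 3 ≤ n) (h : (n * d.factorial) ^ 4 < 3 ^ (d * (d + 1)) * 6 ^ r) :
    ((n + 1) * d.factorial) ^ 4 < 3 ^ (d * (d + 1)) * 6 ^ (r + 1) := by
  calc ((n + 1) * d.factorial) ^ 4 = (n + 1) ^ 4 * d.factorial ^ 4 := by ring
    _ ≤ (6 * n ^ 4) * d.factorial ^ 4 := by
        refine Nat.mul_le_mul_right _ ?_
        have h5 := Nat.pow_le_pow_left (show 3 * (n + 1) ≤ 4 * n by omega) 4
        rw [Nat.mul_pow, Nat.mul_pow] at h5
        omega
    _ = 6 * (n * d.factorial) ^ 4 := by ring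
    _ < 6 * (3 ^ (d * (d + 1)) * 6 ^ r) := by
        exact Nat.mul_lt_mul_of_pos_left h (by norm_num)
    _ = 3 ^ (d * (d + 1)) * 6 ^ (r + 1) := by ring

lemma numeric_final (n d : ℕ) (hd : 2 ≤ d) (hn : d + 1 ≤ n) (hex : ¬ (n = 3 ∧ d = 2)) :
    (n * d.factorial) ^ 4 < 3 ^ (d * (d + 1)) * 6 ^ (n - (d + 1)) := by
  by_cases h2 : d = 2
  · subst h2
    have hn4 : 4 ≤ n := by omega
    induction n, hn4 using Nat.le_induction with
    | base => norm_num [Nat.factorial]
    | succ k hk ih =>
      have := numeric_step k 2 (k - (2 + 1)) (by omega) (ih (by omega) (by omega))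
      have e : k + 1 - (2 + 1) = k - (2 + 1) + 1 := by omega
      rw [e]
      exact this
  · have hd3 : 3 ≤ d := by omega
    clear hex
    induction n, hn using Nat.le_induction with
    | base =>
      rw [Nat.sub_self, pow_zero, mul_one]
      exact numeric_d3 d hd3
    | succ k hk ih =>
      have := numeric_step k d (k - (d + 1)) (by omega) ih
      have e : k + 1 - (d + 1) = k - (d + 1) + 1 := by omega
      rw [e]
      exact this

end Pool.Agent.H63.UWC
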