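import Mathlib
import Pool.Agent.H63.UWC3

/-!
The connected case.
-/

set_option autoImplicit false

namespace Pool.Agent.H63.UWC

open Finset MvPolynomial

variable {V : Type*} [Fintype V]

/-- An orientation of the edges. -/
noncomputable def orient (G : SimpleGraph V) : Finset (V × V) := by
  classical
  exact Finset.univ.image (fun e : G.edgeSet => Quot.out (e : Sym2 V))

lemma card_orient_le (G : SimpleGraph V) : (orient G).card ≤ Nat.card G.edgeSet := by
  classical
  unfold orient
  refine le_trans Finset.card_image_le ?_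
  rw [Finset.card_univ, Nat.card_eq_fintype_card]

lemma out_mk {α : Type*} (e : Sym2 α) : s((Quot.out e).1, (Quot.out e).2) = e := by
  have h : (Quot.mk _ (Quot.out e) : Sym2 α) = e := Quot.out_eq e
  exact h

lemma orient_adj (G : SimpleGraph V) : ∀ p ∈ orient G, G.Adj p.1 p.2 := by
  classical
  intro p hp
  unfold orient at hp
  obtain ⟨e, _, rfl⟩ := Finset.mem_image.mp hp
  rw [← SimpleGraph.mem_edgeSet, out_mk]
  exact e.2

lemma orient_cover (G : SimpleGraph V) : ∀ u v, G.Adj u v → (u, v) ∈ orient G ∨ (v, u) ∈ orient G := by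
  classical
  intro u v huv
  unfold orient
  have h := out_mk s(u, v)
  rw [Sym2.eq_iff] at h
  have hmem : Quot.out (s(u, v)) ∈ Finset.univ.image (fun e : G.edgeSet => Quot.out (e : Sym2 V)) :=
    Finset.mem_image.mpr ⟨⟨s(u, v), huv⟩, Finset.mem_univ _, rfl⟩
  rcases h with ⟨h1, h2⟩ | ⟨h1, h2⟩
  · left
    have : Quot.out (s(u, v)) = (u, v) := Prod.ext h1 h2
    rwa [this] at hmem
  · right
    have : Quot.out (s(u, v)) = (v, u) := Prod.ext h1 h2
    rwa [this] at hmem

/-- Any finite graph with a proper weighting from a three element set has many. -/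
lemma card_proper_ge (G : SimpleGraph V) (S : Finset ℝ) (hS : S.card = 3)
    (W : Finset (G.edgeSet → ℝ)) (hW : ∀ w, w ∈ W ↔ (∀ e, w e ∈ S) ∧ ProperBySums G w)
    (hWne : W.Nonempty) : 3 ^ Nat.card G.edgeSet ≤ W.card ^ 2 := by
  classical
  rw [Nat.card_eq_fintype_card]
  refine card_nonzero_sq_ge S hS (dartPoly G (orient G)) ?_ W ?_ hWne
  · refine le_trans (totalDegree_dartPoly_le G _) ?_
    rw [← Nat.card_eq_fintype_card]
    exact card_orient_le G
  · intro w
    rw [hW w, eval_dartPoly_ne_zero_iff G _ (orient_adj G) (orient_cover G)]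

/-- Uniqueness bounds the number of proper weightings by the number of automorphisms. -/
lemma card_proper_le (G : SimpleGraph V) (S : Finset ℝ)
    (hG : UniquelyWeightColourable G (S : Set ℝ))
    (W : Finset (G.edgeSet → ℝ)) (hW : ∀ w, w ∈ W ↔ (∀ e, w e ∈ S) ∧ ProperBySums G w) :
    W.card ≤ (autSet G).card := by
  classical
  obtain ⟨⟨w₀, hw₀S, hw₀⟩, huniq⟩ := hG
  have hex : ∀ w : G.edgeSet → ℝ, ∃ f : V → V, w ∈ W →
      ∃ φ : G ≃g G, (∀ v, φ v = f v) ∧ ∀ e, w (φ.mapEdgeSet e) = w₀ e := by
    intro w
    by_cases hw : w ∈ W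
    · obtain ⟨φ, hφ⟩ := huniq w₀ w hw₀S hw₀ ((hW w).mp hw).1 ((hW w).mp hw).2
      exact ⟨φ, fun _ => ⟨φ, fun _ => rfl, hφ⟩⟩
    · exact ⟨id, fun h => absurd h hw⟩
  choose F hF using hex
  refine Finset.card_le_card_of_injOn F ?_ ?_
  · intro w hw
    obtain ⟨φ, hφ, _⟩ := hF w hw
    exact mem_autSet.mpr ⟨φ, hφ⟩
  · intro w hw w' hw' hww
    obtain ⟨φ, hφ, hφe⟩ := hF w hw
    obtain ⟨φ', hφ', hφe'⟩ := hF w' hw'
    have hφφ' : φ = φ' := by
      ext v
      rw [hφ v, hφ' v, hww]
    subst hφφ'
    funext e
    obtain ⟨e', rfl⟩ := φ.mapEdgeSet.surjective e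
    rw [hφe e', hφe' e']

lemma degree_const (G : SimpleGraph V) [DecidableRel G.Adj] (hconn : G.Connected)
    (h : ∀ x y, G.Adj x y → G.degree x = G.degree y) (x y : V) : G.degree x = G.degree y := by
  obtain ⟨p⟩ := hconn.preconnected x y
  induction p with
  | nil => rfl
  | cons hadj _ ih => exact (h _ _ hadj).trans ih

/-- A connected uniquely `S`-weight colourable graph with an edge, `|S| = 3`, is a triangle. -/
theorem connected_triangle (G : SimpleGraph V) (hconn : G.Connected) (hE : G.edgeSet.Nonempty)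
    (S : Finset ℝ) (hS : S.card = 3) (hG : UniquelyWeightColourable G (S : Set ℝ)) :
    Nonempty (G ≃g (⊤ : SimpleGraph (Fin 3))) := by
  classical
  have hrev := reversible_of_three G S hS hG
  have hdeg : ∀ x y, G.Adj x y → G.degree x = G.degree y := by
    intro x y hxy
    obtain ⟨φ, hφ, _⟩ := hrev x y hxy
    rw [← hφ]
    exact (φ.degree_eq x).symm
  obtain ⟨v₀⟩ := hconn.nonempty
  set d := G.degree v₀ with hd
  have hreg : ∀ v, G.degree v = d := fun v => degree_const G hconn hdeg v v₀
  obtain ⟨e, he⟩ := hE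
  have hd1 : 1 ≤ d := by
    induction e using Sym2.ind with
    | _ x y =>
      rw [SimpleGraph.mem_edgeSet] at he
      rw [← hreg x, Nat.one_le_iff_ne_zero, ← Nat.pos_iff_ne_zero,
        ← SimpleGraph.card_neighborFinset_eq_degree, Finset.card_pos]
      exact ⟨y, by rwa [SimpleGraph.mem_neighborFinset]⟩
  set W : Finset (G.edgeSet → ℝ) :=
    (Fintype.piFinset (fun _ : G.edgeSet => S)).filter (fun w => ProperBySums G w) with hWdef
  have hW : ∀ w, w ∈ W ↔ (∀ e, w e ∈ S) ∧ ProperBySums G w := by
    intro w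
    rw [hWdef, Finset.mem_filter, Fintype.mem_piFinset]
  have hWne : W.Nonempty := by
    obtain ⟨⟨w₀, hw₀S, hw₀⟩, _⟩ := hG
    exact ⟨w₀, (hW w₀).mpr ⟨hw₀S, hw₀⟩⟩
  have hlow := card_proper_ge G S hS W hW hWne
  have hup := card_proper_le G S hG W hW
  have haut := aut_bound G hconn d hd1 hreg
  set n := Fintype.card V with hn
  have hcount : n * d = 2 * Nat.card G.edgeSet := by
    have h1 := G.sum_degrees_eq_twice_card_edges
    rw [Finset.sum_congr rfl (fun v _ => hreg v), Finset.sum_const, Finset.card_univ,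
      smul_eq_mul] at h1
    rw [Nat.card_eq_fintype_card, ← SimpleGraph.edgeFinset_card]
    exact h1
  have hdn : d + 1 ≤ n := by
    rw [hd]
    have := G.degree_lt_card_verts v₀
    omega
  have hA4 : 3 ^ (n * d) ≤ (autSet G).card ^ 4 := by
    calc 3 ^ (n * d) = (3 ^ Nat.card G.edgeSet) ^ 2 := by rw [hcount, ← pow_mul]; ring
      _ ≤ (W.card ^ 2) ^ 2 := Nat.pow_le_pow_left hlow 2
      _ = W.card ^ 4 := by ring
      _ ≤ (autSet G).card ^ 4 := Nat.pow_le_pow_left hup 4
  have hkey : 3 ^ (d * (d + 1)) * 6 ^ (n - (d + 1)) ≤ (n * d.factorial) ^ 4 := by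
    have h1 : 3 ^ (n * d) * 6 ^ (n - (d + 1)) ≤
        (n * d.factorial) ^ 4 * 3 ^ (d * (n - (d + 1))) :=
      le_trans (Nat.mul_le_mul_right _ hA4) haut
    have h2 : n * d = d * (d + 1) + d * (n - (d + 1)) := by
      obtain ⟨r, hr⟩ := Nat.exists_eq_add_of_le hdn
      rw [hr, Nat.add_sub_cancel_left]
      ring
    rw [h2, pow_add] at h1
    have h3 : 3 ^ (d * (d + 1)) * 6 ^ (n - (d + 1)) * 3 ^ (d * (n - (d + 1))) ≤
        (n * d.factorial) ^ 4 * 3 ^ (d * (n - (d + 1))) := by
      calc _ = 3 ^ (d * (d + 1)) * 3 ^ (d * (n - (d + 1))) * 6 ^ (n - (d + 1)) := by ring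
        _ ≤ _ := h1
    exact Nat.le_of_mul_le_mul_right h3 (by positivity)
  by_cases hd2 : d = 1
  · -- an isolated edge has no proper weighting
    exfalso
    obtain ⟨⟨w₀, hw₀S, hw₀⟩, _⟩ := hG
    induction e using Sym2.ind with
    | _ x y =>
      rw [SimpleGraph.mem_edgeSet] at he
      have hone : ∀ a b, G.Adj a b → ∀ c, G.Adj a c → c = b := by
        intro a b hab c hac
        have h1 := hreg a
        rw [hd2, ← SimpleGraph.card_neighborFinset_eq_degree, Finset.card_eq_one] at h1
        obtain ⟨z, hz⟩ := h1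
        have hb : b ∈ G.neighborFinset a := by rwa [SimpleGraph.mem_neighborFinset]
        have hc : c ∈ G.neighborFinset a := by rwa [SimpleGraph.mem_neighborFinset]
        rw [hz, Finset.mem_singleton] at hb hc
        rw [hb, hc]
      refine hw₀ x y he ?_
      unfold vertexSum
      refine Finset.sum_congr rfl ?_
      intro f _
      obtain ⟨f, hf⟩ := f
      have hiff : x ∈ f ↔ y ∈ f := by
        induction f using Sym2.ind with
        | _ a b =>
          rw [SimpleGraph.mem_edgeSet] at hf
          rw [Sym2.mem_iff, Sym2.mem_iff]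
          constructor
          · rintro (h | h)
            · subst h
              right
              exact (hone _ _ he _ hf).symm
            · subst h
              left
              exact (hone _ _ he _ hf.symm).symm
          · rintro (h | h)
            · subst h
              right
              exact (hone _ _ he.symm _ hf).symm
            · subst h
              left
              exact (hone _ _ he.symm _ hf.symm).symm
      by_cases hx : x ∈ f
      · rw [if_pos hx, if_pos (hiff.mp hx)]
      · rw [if_neg hx, if_neg (fun h => hx (hiff.mpr h))]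
  · by_cases hex : n = 3 ∧ d = 2
    · obtain ⟨hn3, hd2'⟩ := hex
      have htop : G = ⊤ := by
        ext a b
        rw [SimpleGraph.top_adj]
        constructor
        · exact fun h => h.ne
        · intro hab
          by_contra hnot
          have h1 : G.neighborFinset a ⊆ (Finset.univ.erase a).erase b := by
            intro c hc
            rw [SimpleGraph.mem_neighborFinset] at hc
            refine Finset.mem_erase.mpr ⟨?_, Finset.mem_erase.mpr ⟨hc.ne', Finset.mem_univ _⟩⟩
            rintro rfl
            exact hnot hc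
          have h2 := Finset.card_le_card h1
          rw [SimpleGraph.card_neighborFinset_eq_degree, hreg a,
            Finset.card_erase_of_mem (Finset.mem_erase.mpr ⟨hab.symm, Finset.mem_univ _⟩),
            Finset.card_erase_of_mem (Finset.mem_univ _), Finset.card_univ, ← hn, hn3, hd2'] at h2
          omega
      subst htop
      have hcard : Fintype.card V = Fintype.card (Fin 3) := by
        rw [← hn, hn3, Fintype.card_fin]
      exact ⟨SimpleGraph.Iso.completeGraph (Fintype.equivOfCardEq hcard)⟩
    · exfalso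
      have := numeric_final n d (by omega) hdn hex
      omega

end Pool.Agent.H63.UWC
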