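import Mathlib
import Pool.Agent.H63.UWC4

/-!
Reduction to connected components.
-/

set_option autoImplicit false

namespace Pool.Agent.H63.UWC

open Finset

variable {V : Type*} [Fintype V]

/-- Edges of a component are edges of the graph. -/
def liftEdge (G : SimpleGraph V) (c : G.ConnectedComponent) :
    (G.induce c.supp).edgeSet ↪ G.edgeSet :=
  (SimpleGraph.Embedding.induce c.supp).mapEdgeSet

lemma liftEdge_val (G : SimpleGraph V) (c : G.ConnectedComponent) (e : (G.induce c.supp).edgeSet) :
    (liftEdge G c e : Sym2 V) = Sym2.map Subtype.val (e : Sym2 c.supp) := rfl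

lemma mem_liftEdge (G : SimpleGraph V) (c : G.ConnectedComponent) (e : (G.induce c.supp).edgeSet)
    (v : c.supp) : (v : V) ∈ (liftEdge G c e : Sym2 V) ↔ v ∈ (e : Sym2 c.supp) := by
  rw [liftEdge_val, Sym2.mem_map]
  constructor
  · rintro ⟨a, ha, hav⟩
    rwa [← Subtype.ext hav]
  · intro h
    exact ⟨v, h, rfl⟩

lemma exists_liftEdge (G : SimpleGraph V) (c : G.ConnectedComponent) (e : G.edgeSet) (v : V)
    (hv : v ∈ (e : Sym2 V)) (hvc : v ∈ c.supp) : ∃ e', liftEdge G c e' = e := by
  obtain ⟨e, he⟩ := e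
  induction e using Sym2.ind with
  | _ x y =>
    rw [SimpleGraph.mem_edgeSet] at he
    have hxy : x ∈ c.supp ∧ y ∈ c.supp := by
      rw [SimpleGraph.ConnectedComponent.mem_supp_iff] at hvc
      rw [SimpleGraph.ConnectedComponent.mem_supp_iff, SimpleGraph.ConnectedComponent.mem_supp_iff]
      have hreach : G.connectedComponentMk x = G.connectedComponentMk y :=
        SimpleGraph.ConnectedComponent.eq.mpr he.reachable
      rcases Sym2.mem_iff.mp hv with h | h
      · subst h
        exact ⟨hvc, hreach ▸ hvc⟩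
      · subst h
        exact ⟨hreach.trans hvc, hvc⟩
    refine ⟨⟨s(⟨x, hxy.1⟩, ⟨y, hxy.2⟩), ?_⟩, ?_⟩
    · rw [SimpleGraph.mem_edgeSet]
      exact he
    · apply Subtype.ext
      rw [liftEdge_val]
      rfl

lemma vertexSum_restrict (G : SimpleGraph V) (c : G.ConnectedComponent) [Fintype c.supp]
    (w : G.edgeSet → ℝ)
    (v : c.supp) : vertexSum (G.induce c.supp) (fun e => w (liftEdge G c e)) v =
      vertexSum G w v := by
  classical
  unfold vertexSum
  symm
  rw [← Finset.sum_subset (Finset.subset_univ (Finset.univ.map (liftEdge G c)))]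
  · rw [Finset.sum_map]
    refine Finset.sum_congr rfl ?_
    intro e _
    by_cases hv : v ∈ (e : Sym2 c.supp)
    · rw [if_pos hv, if_pos ((mem_liftEdge G c e v).mpr hv)]
    · rw [if_neg hv, if_neg (fun h => hv ((mem_liftEdge G c e v).mp h))]
  · intro e _ he
    rw [if_neg]
    intro hv
    obtain ⟨e', he'⟩ := exists_liftEdge G c e v hv v.2
    exact he (Finset.mem_map.mpr ⟨e', Finset.mem_univ _, he'⟩)

/-- Properness can be tested on components. -/
lemma proper_iff_components (G : SimpleGraph V) (w : G.edgeSet → ℝ) :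
    ProperBySums G w ↔ ∀ c : G.ConnectedComponent,
      @ProperBySums c.supp (Fintype.ofFinite _) (G.induce c.supp)
        (fun e => w (liftEdge G c e)) := by
  constructor
  · intro h c
    let _ : Fintype c.supp := Fintype.ofFinite _
    intro u v huv
    have hu := vertexSum_restrict G c w u
    have hv := vertexSum_restrict G c w v
    have := h u v huv
    intro heq
    apply this
    rw [← hu, ← hv]
    exact heq
  · intro h u v huv heq
    have hreach : G.connectedComponentMk u = G.connectedComponentMk v :=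
        SimpleGraph.ConnectedComponent.eq.mpr huv.reachable
    set c := G.connectedComponentMk u with hc
    have hu : u ∈ c.supp := rfl
    have hv : v ∈ c.supp := by
      rw [SimpleGraph.ConnectedComponent.mem_supp_iff]
      exact hreach.symm
    have h1 := h c ⟨u, hu⟩ ⟨v, hv⟩ huv
    apply h1
    let _ : Fintype c.supp := Fintype.ofFinite _
    have hu' := vertexSum_restrict G c w ⟨u, hu⟩
    have hv' := vertexSum_restrict G c w ⟨v, hv⟩
    exact hu'.trans (heq.trans hv'.symm)

lemma liftEdge_eq (G : SimpleGraph V) (c₁ c₂ : G.ConnectedComponent)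
    (e₁ : (G.induce c₁.supp).edgeSet) (e₂ : (G.induce c₂.supp).edgeSet)
    (h : liftEdge G c₁ e₁ = liftEdge G c₂ e₂) :
    (⟨c₁, e₁⟩ : Σ c : G.ConnectedComponent, (G.induce c.supp).edgeSet) = ⟨c₂, e₂⟩ := by
  have hc : c₁ = c₂ := by
    obtain ⟨e₁, he₁⟩ := e₁
    induction e₁ using Sym2.ind with
    | _ x y =>
      have hx : (x : V) ∈ (liftEdge G c₁ ⟨s(x, y), he₁⟩ : Sym2 V) := by
        rw [mem_liftEdge]
        exact Sym2.mem_mk_left _ _
      rw [h, liftEdge_val, Sym2.mem_map] at hx
      obtain ⟨a, _, ha⟩ := hx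
      have h1 := x.2
      have h2 := a.2
      rw [SimpleGraph.ConnectedComponent.mem_supp_iff] at h1 h2
      rw [← h1, ← h2, ha]
  subst hc
  rw [(liftEdge G c₁).injective h]

/-- Glue weightings of the components. -/
lemma exists_glue (G : SimpleGraph V)
    (w : ∀ c : G.ConnectedComponent, (G.induce c.supp).edgeSet → ℝ) :
    ∃ W : G.edgeSet → ℝ, ∀ c e, W (liftEdge G c e) = w c e := by
  have hex : ∀ e : G.edgeSet, ∃ p : Σ c : G.ConnectedComponent, (G.induce c.supp).edgeSet,
      liftEdge G p.1 p.2 = e := by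
    intro e
    obtain ⟨x, hx⟩ : ∃ x, x ∈ (e : Sym2 V) := by
      obtain ⟨e, he⟩ := e
      induction e using Sym2.ind with
      | _ x y => exact ⟨x, Sym2.mem_mk_left _ _⟩
    obtain ⟨e', he'⟩ := exists_liftEdge G (G.connectedComponentMk x) e x hx rfl
    exact ⟨⟨_, e'⟩, he'⟩
  choose p hp using hex
  refine ⟨fun e => w (p e).1 (p e).2, ?_⟩
  intro c e
  have h := liftEdge_eq G _ _ _ _ (hp (liftEdge G c e))
  exact congrArg (fun q : (Σ c : G.ConnectedComponent, (G.induce c.supp).edgeSet) => w q.1 q.2) h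

/-- Glue automorphisms of the components. -/
lemma exists_glue_iso (G : SimpleGraph V)
    (φ : ∀ c : G.ConnectedComponent, (G.induce c.supp) ≃g (G.induce c.supp)) :
    ∃ Φ : G ≃g G, ∀ c (v : c.supp), Φ v = φ c v := by
  have key : ∀ (ψ : ∀ c : G.ConnectedComponent, (G.induce c.supp) ≃g (G.induce c.supp))
      (c : G.ConnectedComponent) (v : c.supp),
      ((ψ (G.connectedComponentMk (v : V)) ⟨v, rfl⟩ : _) : V) = ψ c v := by
    intro ψ c v
    obtain ⟨v, hv⟩ := v
    rw [SimpleGraph.ConnectedComponent.mem_supp_iff] at hv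
    subst hv
    rfl
  let f : (∀ c : G.ConnectedComponent, (G.induce c.supp) ≃g (G.induce c.supp)) → V → V :=
    fun ψ v => (ψ (G.connectedComponentMk v) ⟨v, rfl⟩ : V)
  have hcomp : ∀ ψ v, G.connectedComponentMk (f ψ v) = G.connectedComponentMk v := by
    intro ψ v
    have := (ψ (G.connectedComponentMk v) ⟨v, rfl⟩).2
    rwa [SimpleGraph.ConnectedComponent.mem_supp_iff] at this
  have hinv : ∀ ψ v, f (fun c => (ψ c).symm) (f ψ v) = v := by
    intro ψ v
    have h1 := key (fun c => (ψ c).symm) (G.connectedComponentMk v)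
      (ψ (G.connectedComponentMk v) ⟨v, rfl⟩)
    have h2 : (ψ (G.connectedComponentMk v)).symm (ψ (G.connectedComponentMk v) ⟨v, rfl⟩)
        = ⟨v, rfl⟩ := RelIso.symm_apply_apply _ _
    exact h1.trans (congrArg Subtype.val h2)
  have hadj : ∀ ψ u v, G.Adj u v → G.Adj (f ψ u) (f ψ v) := by
    intro ψ u v huv
    have hreach : G.connectedComponentMk v = G.connectedComponentMk u :=
        SimpleGraph.ConnectedComponent.eq.mpr huv.symm.reachable
    have hv : v ∈ (G.connectedComponentMk u).supp := by
      rw [SimpleGraph.ConnectedComponent.mem_supp_iff]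
      exact hreach
    have h1 := key ψ (G.connectedComponentMk u) ⟨v, hv⟩
    have h2 : (G.induce (G.connectedComponentMk u).supp).Adj ⟨u, rfl⟩ ⟨v, hv⟩ := huv
    have h3 := (ψ (G.connectedComponentMk u)).map_adj_iff.mpr h2
    have h4 : G.Adj (ψ (G.connectedComponentMk u) ⟨u, rfl⟩ : V)
      (ψ (G.connectedComponentMk u) ⟨v, hv⟩ : V) := h3
    rw [← h1] at h4
    exact h4
  refine ⟨⟨⟨f φ, f (fun c => (φ c).symm), hinv φ, ?_⟩, ?_⟩, ?_⟩
  · intro v
    exact hinv (fun c => (φ c).symm) v
  · intro u v
    constructor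
    · intro h
      have h1 := hadj (fun c => (φ c).symm) _ _ h
      change G.Adj (f (fun c => (φ c).symm) (f φ u)) (f (fun c => (φ c).symm) (f φ v)) at h1
      rwa [hinv, hinv] at h1
    · exact hadj φ u v
  · intro c v
    exact key φ c v

/-- Unique weight colourability of a component. -/
def CompUWC (G : SimpleGraph V) (c : G.ConnectedComponent) (S : Set ℝ) : Prop :=
  @UniquelyWeightColourable c.supp (Fintype.ofFinite _) (G.induce c.supp) S

lemma exists_liftEdge' (G : SimpleGraph V) (e : G.edgeSet) :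
    ∃ (c : G.ConnectedComponent) (e' : (G.induce c.supp).edgeSet), liftEdge G c e' = e := by
  obtain ⟨x, hx⟩ : ∃ x, x ∈ (e : Sym2 V) := by
    obtain ⟨e, he⟩ := e
    induction e using Sym2.ind with
    | _ x y => exact ⟨x, Sym2.mem_mk_left _ _⟩
  obtain ⟨e', he'⟩ := exists_liftEdge G (G.connectedComponentMk x) e x hx rfl
  exact ⟨_, e', he'⟩

lemma mapEdgeSet_val (G : SimpleGraph V) (Φ : G ≃g G) (e : G.edgeSet) :
    (Φ.mapEdgeSet e : Sym2 V) = Sym2.map Φ (e : Sym2 V) := rfl

lemma mapEdgeSet_lift (G : SimpleGraph V) (c : G.ConnectedComponent) (Φ : G ≃g G)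
    (φ : (G.induce c.supp) ≃g (G.induce c.supp)) (h : ∀ v : c.supp, Φ v = φ v)
    (e : (G.induce c.supp).edgeSet) :
    Φ.mapEdgeSet (liftEdge G c e) = liftEdge G c (φ.mapEdgeSet e) := by
  obtain ⟨e, he⟩ := e
  apply Subtype.ext
  rw [mapEdgeSet_val, liftEdge_val, liftEdge_val]
  induction e using Sym2.ind with
  | _ x y =>
    change Sym2.map Φ (Sym2.map Subtype.val s(x, y)) = Sym2.map Subtype.val (Sym2.map φ s(x, y))
    rw [Sym2.map_mk, Sym2.map_mk, Sym2.map_mk, Sym2.map_mk]
    change s(Φ x, Φ y) = s((φ x : V), (φ y : V))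
    rw [h, h]

lemma uwc_of_components (G : SimpleGraph V) (S : Set ℝ)
    (h : ∀ c : G.ConnectedComponent, CompUWC G c S) : UniquelyWeightColourable G S := by
  constructor
  · have hex : ∀ c : G.ConnectedComponent, ∃ w : (G.induce c.supp).edgeSet → ℝ,
        (∀ e, w e ∈ S) ∧ @ProperBySums c.supp (Fintype.ofFinite _) (G.induce c.supp) w :=
      fun c => (h c).1
    choose w hwS hw using hex
    obtain ⟨W, hW⟩ := exists_glue G w
    refine ⟨W, ?_, ?_⟩
    · intro e
      obtain ⟨c, e', rfl⟩ := exists_liftEdge' G e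
      rw [hW]
      exact hwS c e'
    · rw [proper_iff_components]
      intro c
      have : (fun e => W (liftEdge G c e)) = w c := by
        funext e
        exact hW c e
      rw [this]
      exact hw c
  · intro w w' hwS hw hwS' hw'
    rw [proper_iff_components] at hw hw'
    have hex : ∀ c : G.ConnectedComponent, ∃ φ : (G.induce c.supp) ≃g (G.induce c.supp),
        ∀ e, w' (liftEdge G c (φ.mapEdgeSet e)) = w (liftEdge G c e) := by
      intro c
      exact (h c).2 _ _ (fun e => hwS _) (hw c) (fun e => hwS' _) (hw' c)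
    choose φ hφ using hex
    obtain ⟨Φ, hΦ⟩ := exists_glue_iso G φ
    refine ⟨Φ, ?_⟩
    intro e
    obtain ⟨c, e', rfl⟩ := exists_liftEdge' G e
    rw [mapEdgeSet_lift G c Φ (φ c) (hΦ c), hφ c]

open scoped Classical in
/-- replace the weights inside one component -/
noncomputable def patch (G : SimpleGraph V) (c : G.ConnectedComponent) (w : G.edgeSet → ℝ)
    (u : (G.induce c.supp).edgeSet → ℝ) : G.edgeSet → ℝ :=
  fun e => if h : ∃ e', liftEdge G c e' = e then u h.choose else w e

lemma patch_lift (G : SimpleGraph V) (c : G.ConnectedComponent) (w : G.edgeSet → ℝ)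
    (u : (G.induce c.supp).edgeSet → ℝ) (e : (G.induce c.supp).edgeSet) :
    patch G c w u (liftEdge G c e) = u e := by
  unfold patch
  have h : ∃ e', liftEdge G c e' = liftEdge G c e := ⟨e, rfl⟩
  rw [dif_pos h, (liftEdge G c).injective h.choose_spec]

lemma patch_of_not (G : SimpleGraph V) (c : G.ConnectedComponent) (w : G.edgeSet → ℝ)
    (u : (G.induce c.supp).edgeSet → ℝ) (e : G.edgeSet) (h : ¬ ∃ e', liftEdge G c e' = e) :
    patch G c w u e = w e := by
  unfold patch
  rw [dif_neg h]

lemma patch_lift_ne (G : SimpleGraph V) (c d : G.ConnectedComponent) (hcd : c ≠ d)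
    (w : G.edgeSet → ℝ)
    (u : (G.induce c.supp).edgeSet → ℝ) (e : (G.induce d.supp).edgeSet) :
    patch G c w u (liftEdge G d e) = w (liftEdge G d e) := by
  refine patch_of_not G c w u _ ?_
  rintro ⟨e', he'⟩
  have := liftEdge_eq G _ _ _ _ he'
  rw [Sigma.mk.injEq] at this
  exact hcd this.1

lemma patch_proper (G : SimpleGraph V) (c : G.ConnectedComponent) (w : G.edgeSet → ℝ)
    (u : (G.induce c.supp).edgeSet → ℝ) (hw : ProperBySums G w)
    (hu : @ProperBySums c.supp (Fintype.ofFinite _) (G.induce c.supp) u) :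
    ProperBySums G (patch G c w u) := by
  rw [proper_iff_components] at hw ⊢
  intro d
  by_cases hcd : c = d
  · subst hcd
    have : (fun e => patch G c w u (liftEdge G c e)) = u := by
      funext e
      exact patch_lift G c w u e
    rw [this]
    exact hu
  · have : (fun e => patch G c w u (liftEdge G d e)) = fun e => w (liftEdge G d e) := by
      funext e
      exact patch_lift_ne G c d hcd w u e
    rw [this]
    exact hw d

lemma patch_mem (G : SimpleGraph V) (c : G.ConnectedComponent) (w : G.edgeSet → ℝ)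
    (u : (G.induce c.supp).edgeSet → ℝ) (S : Set ℝ) (hw : ∀ e, w e ∈ S) (hu : ∀ e, u e ∈ S) :
    ∀ e, patch G c w u e ∈ S := by
  intro e
  by_cases h : ∃ e', liftEdge G c e' = e
  · obtain ⟨e', rfl⟩ := h
    rw [patch_lift]
    exact hu e'
  · rw [patch_of_not G c w u e h]
    exact hw e

/-- iterate of an automorphism -/
def isoPow (G : SimpleGraph V) (φ : G ≃g G) : ℕ → (G ≃g G)
  | 0 => RelIso.refl _
  | n + 1 => (isoPow G φ n).trans φ

lemma isoPow_apply (G : SimpleGraph V) (φ : G ≃g G) (n : ℕ) (v : V) :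
    isoPow G φ n v = (φ : V → V)^[n] v := by
  induction n with
  | zero => rfl
  | succ k ih =>
    rw [Function.iterate_succ_apply']
    change φ (isoPow G φ k v) = _
    rw [ih]

lemma exists_isoPow_eq (G : SimpleGraph V) (φ : G ≃g G) (v : V) :
    ∃ n, 1 ≤ n ∧ isoPow G φ n v = v := by
  have hfin : (orderOf (φ.toEquiv : Equiv.Perm V)) ≠ 0 := (orderOf_pos _).ne'
  refine ⟨orderOf (φ.toEquiv : Equiv.Perm V), Nat.one_le_iff_ne_zero.mpr hfin, ?_⟩
  rw [isoPow_apply]
  have h := pow_orderOf_eq_one (φ.toEquiv : Equiv.Perm V)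
  have h2 := congrArg (fun σ : Equiv.Perm V => σ v) h
  rw [← Equiv.Perm.iterate_eq_pow] at h2
  exact h2

lemma comp_uwc_of_uwc (G : SimpleGraph V) (S : Set ℝ) (hG : UniquelyWeightColourable G S)
    (c : G.ConnectedComponent) : CompUWC G c S := by
  classical
  obtain ⟨⟨w₀, hw₀S, hw₀⟩, huniq⟩ := hG
  constructor
  · refine ⟨fun e => w₀ (liftEdge G c e), fun e => hw₀S _, ?_⟩
    exact (proper_iff_components G w₀).mp hw₀ c
  · intro u u' huS hu huS' hu'
    obtain ⟨φ, hφ⟩ := huniq (patch G c w₀ u) (patch G c w₀ u')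
      (patch_mem G c w₀ u S hw₀S huS) (patch_proper G c w₀ u hw₀ hu)
      (patch_mem G c w₀ u' S hw₀S huS') (patch_proper G c w₀ u' hw₀ hu')
    obtain ⟨v₀, hv₀⟩ := c.nonempty_supp
    have hex : ∃ k, 1 ≤ k ∧ isoPow G φ k v₀ ∈ c.supp := by
      obtain ⟨n, hn, hnv⟩ := exists_isoPow_eq G φ v₀
      exact ⟨n, hn, by rw [hnv]; exact hv₀⟩
    set k := Nat.find hex with hk
    obtain ⟨hk1, hkc⟩ := Nat.find_spec hex
    have hmin : ∀ j, 1 ≤ j → j < k → isoPow G φ j v₀ ∉ c.supp := by
      intro j hj hjk hmem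
      exact Nat.find_min hex hjk ⟨hj, hmem⟩
    -- automorphisms move components as blocks
    have hblock : ∀ (ψ : G ≃g G) (a b : V), G.connectedComponentMk a = G.connectedComponentMk b →
        G.connectedComponentMk (ψ a) = G.connectedComponentMk (ψ b) := by
      intro ψ a b hab
      rw [SimpleGraph.ConnectedComponent.eq] at hab ⊢
      exact hab.map ψ.toHom
    have hblock' : ∀ (ψ : G ≃g G) (a b : V),
        G.connectedComponentMk (ψ a) = G.connectedComponentMk (ψ b) →
        G.connectedComponentMk a = G.connectedComponentMk b := by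
      intro ψ a b hab
      have := hblock ψ.symm _ _ hab
      rwa [RelIso.symm_apply_apply, RelIso.symm_apply_apply] at this
    have hsupp : ∀ a, a ∈ c.supp ↔ G.connectedComponentMk a = G.connectedComponentMk v₀ := by
      intro a
      rw [SimpleGraph.ConnectedComponent.mem_supp_iff] at hv₀ ⊢
      rw [hv₀]
    set σ := isoPow G φ k with hσ
    have hσc : ∀ a, a ∈ c.supp ↔ σ a ∈ c.supp := by
      intro a
      have h1 : G.connectedComponentMk (σ v₀) = G.connectedComponentMk v₀ := (hsupp _).mp hkc
      rw [hsupp, hsupp]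
      constructor
      · intro h
        exact (hblock σ _ _ h).trans h1
      · intro h
        exact hblock' σ _ _ (h.trans h1.symm)
    let ψ : (G.induce c.supp) ≃g (G.induce c.supp) :=
      ⟨σ.toEquiv.subtypeEquiv hσc, by
        intro a b
        exact σ.map_adj_iff⟩
    refine ⟨ψ, ?_⟩
    intro e
    have hlift : σ.mapEdgeSet (liftEdge G c e) = liftEdge G c (ψ.mapEdgeSet e) :=
      mapEdgeSet_lift G c σ ψ (fun v => rfl) e
    have h1 : patch G c w₀ u' (σ.mapEdgeSet (liftEdge G c e)) = u' (ψ.mapEdgeSet e) := by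
      rw [hlift, patch_lift]
    have h2 : ∀ j, 1 ≤ j → j ≤ k →
        patch G c w₀ u' ((isoPow G φ j).mapEdgeSet (liftEdge G c e)) = u e := by
      intro j hj
      induction j, hj using Nat.le_induction with
      | base =>
        intro _
        have h3 : (isoPow G φ 1).mapEdgeSet (liftEdge G c e) =
            φ.mapEdgeSet (liftEdge G c e) := by
          apply Subtype.ext
          rfl
        rw [h3, hφ, patch_lift]
      | succ j hj ih =>
        intro hjk
        have h3 : (isoPow G φ (j + 1)).mapEdgeSet (liftEdge G c e) =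
            φ.mapEdgeSet ((isoPow G φ j).mapEdgeSet (liftEdge G c e)) := by
          apply Subtype.ext
          rw [mapEdgeSet_val, mapEdgeSet_val, mapEdgeSet_val, Sym2.map_map]
          rfl
        rw [h3, hφ]
        have h4 : ¬ ∃ e', liftEdge G c e' = (isoPow G φ j).mapEdgeSet (liftEdge G c e) := by
          rintro ⟨e', he'⟩
          obtain ⟨x, hx⟩ : ∃ x : c.supp, x ∈ (e : Sym2 c.supp) := by
            obtain ⟨e, he⟩ := e
            induction e using Sym2.ind with
            | _ x y => exact ⟨x, Sym2.mem_mk_left _ _⟩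
          have hx1 : (isoPow G φ j) x ∈ ((isoPow G φ j).mapEdgeSet (liftEdge G c e) : Sym2 V) := by
            rw [mem_mapEdgeSet, mem_liftEdge]
            exact hx
          rw [← he', liftEdge_val, Sym2.mem_map] at hx1
          obtain ⟨a, _, ha⟩ := hx1
          have hmem : (isoPow G φ j) x ∈ c.supp := by
            rw [← ha]
            exact a.2
          refine hmin j hj (by omega) ?_
          rw [hsupp] at hmem ⊢
          have hxv : G.connectedComponentMk (x : V) = G.connectedComponentMk v₀ :=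
            (hsupp _).mp x.2
          exact (hblock (isoPow G φ j) _ _ hxv).symm.trans hmem
        rw [patch_of_not G c w₀ u _ h4]
        rw [← ih (by omega), patch_of_not G c w₀ u' _ h4]
    rw [← h1]
    exact h2 k hk1 le_rfl

theorem uwc_iff_components (G : SimpleGraph V) (S : Set ℝ) :
    UniquelyWeightColourable G S ↔ ∀ c : G.ConnectedComponent, CompUWC G c S :=
  ⟨fun h c => comp_uwc_of_uwc G S h c, uwc_of_components G S⟩

end Pool.Agent.H63.UWC
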