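import Mathlib
import Pool.Agent.H63.UWC5

/-!
Triangles and the classification.
-/

set_option autoImplicit false

namespace Pool.Agent.H63.UWC

open Finset

lemma vertexSum_iso' {V W : Type*} [Fintype V] [Fintype W] {G : SimpleGraph V} {H : SimpleGraph W}
    (φ : G ≃g H) (w : H.edgeSet → ℝ) (v : V) :
    vertexSum G (fun e => w (φ.mapEdgeSet e)) v = vertexSum H w (φ v) := by
  classical
  unfold vertexSum
  rw [← Equiv.sum_comp φ.mapEdgeSet (fun e => if φ v ∈ (e : Sym2 W) then w e else 0)]
  refine Finset.sum_congr rfl ?_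
  intro e _
  have hiff : φ v ∈ (φ.mapEdgeSet e : Sym2 W) ↔ v ∈ (e : Sym2 V) := by
    change φ v ∈ Sym2.map φ (e : Sym2 V) ↔ _
    rw [Sym2.mem_map]
    constructor
    · rintro ⟨a, ha, hav⟩
      rwa [← φ.injective hav]
    · intro h
      exact ⟨v, h, rfl⟩
  by_cases hv : v ∈ (e : Sym2 V)
  · rw [if_pos hv, if_pos (hiff.mpr hv)]
  · rw [if_neg hv, if_neg (fun h => hv (hiff.mp h))]

lemma proper_iso {V W : Type*} [Fintype V] [Fintype W] {G : SimpleGraph V} {H : SimpleGraph W}
    (φ : G ≃g H) (w : H.edgeSet → ℝ) :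
    ProperBySums G (fun e => w (φ.mapEdgeSet e)) ↔ ProperBySums H w := by
  constructor
  · intro h u v huv
    have h1 := h (φ.symm u) (φ.symm v) (φ.symm.map_adj_iff.mpr huv)
    rw [vertexSum_iso', vertexSum_iso', RelIso.apply_symm_apply, RelIso.apply_symm_apply] at h1
    exact h1
  · intro h u v huv
    rw [vertexSum_iso', vertexSum_iso']
    exact h _ _ (φ.map_adj_iff.mpr huv)

lemma mapEdgeSet_symm_apply {V W : Type*} {G : SimpleGraph V} {H : SimpleGraph W}
    (φ : G ≃g H) (e : H.edgeSet) : φ.mapEdgeSet (φ.symm.mapEdgeSet e) = e :=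
  φ.mapEdgeSet.apply_symm_apply e

/-- Unique weight colourability is invariant under graph isomorphism. -/
lemma uwc_of_iso {V W : Type*} [Fintype V] [Fintype W] {G : SimpleGraph V} {H : SimpleGraph W}
    (φ : G ≃g H) (S : Set ℝ) (h : UniquelyWeightColourable H S) :
    UniquelyWeightColourable G S := by
  obtain ⟨⟨w₀, hw₀S, hw₀⟩, huniq⟩ := h
  constructor
  · exact ⟨fun e => w₀ (φ.mapEdgeSet e), fun e => hw₀S _, (proper_iso φ w₀).mpr hw₀⟩
  · intro w w' hwS hw hwS' hw'
    have key : ∀ u : G.edgeSet → ℝ, u = fun e => (fun f => u (φ.symm.mapEdgeSet f)) (φ.mapEdgeSet e) := by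
      intro u
      funext e
      exact congrArg u (φ.mapEdgeSet.symm_apply_apply e).symm
    have h1 : ProperBySums H (fun f => w (φ.symm.mapEdgeSet f)) := by
      rw [key w] at hw
      exact (proper_iso φ _).mp hw
    have h2 : ProperBySums H (fun f => w' (φ.symm.mapEdgeSet f)) := by
      rw [key w'] at hw'
      exact (proper_iso φ _).mp hw'
    obtain ⟨ψ, hψ⟩ := huniq _ _ (fun e => hwS _) h1 (fun e => hwS' _) h2
    refine ⟨(φ.trans ψ).trans φ.symm, ?_⟩
    intro e
    have h3 := hψ (φ.mapEdgeSet e)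
    have h4 : φ.symm.mapEdgeSet (φ.mapEdgeSet e) = e := φ.mapEdgeSet.symm_apply_apply e
    change w' (φ.symm.mapEdgeSet (ψ.mapEdgeSet (φ.mapEdgeSet e))) =
      w (φ.symm.mapEdgeSet (φ.mapEdgeSet e)) at h3
    rw [h4] at h3
    rw [← h3]
    congr 1
    apply Subtype.ext
    change Sym2.map _ (e : Sym2 V) = Sym2.map φ.symm (Sym2.map ψ (Sym2.map φ (e : Sym2 V)))
    rw [Sym2.map_map, Sym2.map_map]
    rfl

/-- The edge of the triangle opposite to `i`. -/
def opp (i : Fin 3) : (⊤ : SimpleGraph (Fin 3)).edgeSet :=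
  ⟨s(i + 1, i + 2), by
    rw [SimpleGraph.mem_edgeSet, SimpleGraph.top_adj]
    fin_cases i <;> decide⟩

lemma opp_bijective : Function.Bijective opp := by
  constructor
  · intro i j h
    have h1 : s(i + 1, i + 2) = s(j + 1, j + 2) := congrArg Subtype.val h
    revert h1
    clear h
    revert i j
    decide
  · intro e
    obtain ⟨e, he⟩ := e
    induction e using Sym2.ind with
    | _ x y =>
      have hxy : x ≠ y := he
      have h1 : ∃ i : Fin 3, s(i + 1, i + 2) = s(x, y) := by
        revert hxy
        clear he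
        revert x y
        decide
      obtain ⟨i, hi⟩ := h1
      exact ⟨i, Subtype.ext hi⟩

lemma mem_opp (x i : Fin 3) : x ∈ (opp i : Sym2 (Fin 3)) ↔ x ≠ i := by
  change x ∈ s(i + 1, i + 2) ↔ x ≠ i
  revert x i
  decide

lemma vertexSum_eq {V : Type*} [Fintype V] (G : SimpleGraph V) [Fintype G.edgeSet] [DecidableEq V]
    (w : G.edgeSet → ℝ) (v : V) :
    vertexSum G w v = ∑ e : G.edgeSet, if v ∈ (e : Sym2 V) then w e else 0 := by
  unfold vertexSum
  refine Finset.sum_congr
    (Finset.ext fun e => by simp only [Finset.mem_univ]) ?_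
  intro e _
  by_cases hv : v ∈ (e : Sym2 V)
  · rw [if_pos hv, if_pos hv]
  · rw [if_neg hv, if_neg hv]

lemma vertexSum_triangle (w : (⊤ : SimpleGraph (Fin 3)).edgeSet → ℝ) (x : Fin 3) :
    vertexSum ⊤ w x = (w (opp 0) + w (opp 1) + w (opp 2)) - w (opp x) := by
  rw [vertexSum_eq]
  rw [← Equiv.sum_comp (Equiv.ofBijective opp opp_bijective)]
  have h1 : ∀ i, (if x ∈ ((Equiv.ofBijective opp opp_bijective i : _) : Sym2 (Fin 3)) then
      w (Equiv.ofBijective opp opp_bijective i) else 0) = if x ≠ i then w (opp i) else 0 := by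
    intro i
    rw [Equiv.ofBijective_apply]
    by_cases h : x ≠ i
    · rw [if_pos h, if_pos ((mem_opp x i).mpr h)]
    · rw [if_neg h, if_neg (fun h' => h ((mem_opp x i).mp h'))]
  rw [Finset.sum_congr rfl (fun i _ => h1 i), Fin.sum_univ_three]
  fin_cases x <;> simp <;> ring

lemma proper_triangle (w : (⊤ : SimpleGraph (Fin 3)).edgeSet → ℝ) :
    ProperBySums ⊤ w ↔ Function.Injective (fun i => w (opp i)) := by
  constructor
  · intro h i j hij
    by_contra hne
    have := h i j hne
    rw [vertexSum_triangle, vertexSum_triangle] at this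
    apply this
    have hij' : w (opp i) = w (opp j) := hij
    rw [hij']
  · intro h u v huv heq
    rw [vertexSum_triangle, vertexSum_triangle] at heq
    have h1 : w (opp u) = w (opp v) := by linarith
    exact huv (h h1)

lemma opp_perm (φ : Equiv.Perm (Fin 3)) (i : Fin 3) :
    s(φ (i + 1), φ (i + 2)) = s(φ i + 1, φ i + 2) := by
  revert φ i
  decide

/-- The triangle is uniquely weight colourable from any three real weights. -/
theorem triangle_uwc (S : Set ℝ) (hS : S.encard = 3) :
    UniquelyWeightColourable (⊤ : SimpleGraph (Fin 3)) S := by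
  classical
  have hSfin : S.Finite := Set.finite_of_encard_eq_coe (by exact_mod_cast hS)
  have : Fintype S := hSfin.fintype
  have hcard : Fintype.card S = 3 := by
    have h1 := Set.coe_fintypeCard S
    rw [hS] at h1
    exact_mod_cast h1
  constructor
  · have e : Fin 3 ≃ S := Fintype.equivOfCardEq (by rw [hcard, Fintype.card_fin])
    refine ⟨fun f => e ((Equiv.ofBijective opp opp_bijective).symm f), fun f => Subtype.prop _, ?_⟩
    rw [proper_triangle]
    intro i j hij
    have h1 : ∀ i, (Equiv.ofBijective opp opp_bijective).symm (opp i) = i := by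
      intro i
      exact (Equiv.ofBijective opp opp_bijective).symm_apply_apply i
    simp only [h1] at hij
    exact e.injective (Subtype.ext hij)
  · intro w w' hwS hw hwS' hw'
    rw [proper_triangle] at hw hw'
    have hb : Function.Bijective (fun i => (⟨w (opp i), hwS _⟩ : S)) := by
      rw [Fintype.bijective_iff_injective_and_card]
      refine ⟨fun i j hij => hw (congrArg Subtype.val hij), ?_⟩
      rw [hcard, Fintype.card_fin]
    have hb' : Function.Bijective (fun i => (⟨w' (opp i), hwS' _⟩ : S)) := by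
      rw [Fintype.bijective_iff_injective_and_card]
      refine ⟨fun i j hij => hw' (congrArg Subtype.val hij), ?_⟩
      rw [hcard, Fintype.card_fin]
    let φ : Equiv.Perm (Fin 3) := (Equiv.ofBijective _ hb).trans (Equiv.ofBijective _ hb').symm
    have hφ : ∀ i, w' (opp (φ i)) = w (opp i) := by
      intro i
      have h1 : (Equiv.ofBijective _ hb') (φ i) = (Equiv.ofBijective _ hb) i := by
        change (Equiv.ofBijective _ hb') ((Equiv.ofBijective _ hb').symm _) = _
        rw [Equiv.apply_symm_apply]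
      exact congrArg Subtype.val h1
    refine ⟨SimpleGraph.Iso.completeGraph φ, ?_⟩
    intro e
    obtain ⟨i, rfl⟩ := opp_bijective.2 e
    rw [← hφ i]
    congr 1
    apply Subtype.ext
    change Sym2.map φ s(i + 1, i + 2) = s(φ i + 1, φ i + 2)
    rw [Sym2.map_mk]
    exact opp_perm φ i

/-- A graph without edges is uniquely weight colourable. -/
lemma uwc_of_no_edge {V : Type*} [Fintype V] (G : SimpleGraph V) (S : Set ℝ)
    (h : ¬ G.edgeSet.Nonempty) : UniquelyWeightColourable G S := by
  have hempty : IsEmpty G.edgeSet := ⟨fun e => h ⟨e.1, e.2⟩⟩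
  constructor
  · refine ⟨fun _ => 0, fun e => (hempty.false e).elim, ?_⟩
    intro u v huv
    exact absurd ⟨s(u, v), huv⟩ h
  · intro w w' _ _ _ _
    exact ⟨RelIso.refl _, fun e => (hempty.false e).elim⟩

/-- Restricting the set of weights. -/
lemma uwc_mono {V : Type*} [Fintype V] (G : SimpleGraph V) (S T : Set ℝ) (hST : S ⊆ T)
    (hT : UniquelyWeightColourable G T)
    (hex : ∃ w : G.edgeSet → ℝ, (∀ e, w e ∈ S) ∧ ProperBySums G w) :
    UniquelyWeightColourable G S :=
  ⟨hex, fun w w' hwS hw hwS' hw' =>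
    hT.2 w w' (fun e => hST (hwS e)) hw (fun e => hST (hwS' e)) hw'⟩

/-- More than three weights: never unique. -/
lemma encard_eq_three {V : Type*} [Fintype V] (G : SimpleGraph V) (hE : G.edgeSet.Nonempty)
    (S : Set ℝ) (hS : 3 ≤ S.encard) (hG : UniquelyWeightColourable G S) : S.encard = 3 := by
  classical
  by_contra hne
  have h4 : (4 : ℕ∞) ≤ S.encard := by
    have hlt : (3 : ℕ∞) < S.encard := lt_of_le_of_ne hS (Ne.symm hne)
    have := Order.add_one_le_of_lt hlt
    calc (4 : ℕ∞) = 3 + 1 := by norm_num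
      _ ≤ S.encard := this
  obtain ⟨w₀, hw₀S, hw₀⟩ := hG.1
  obtain ⟨T, hTS, hT4⟩ := Set.exists_subset_encard_eq h4
  have hTfin : T.Finite := Set.finite_of_encard_eq_coe (by exact_mod_cast hT4)
  have hRfin : (Set.range w₀).Finite := Set.finite_range w₀
  have hUfin : (T ∪ Set.range w₀).Finite := hTfin.union hRfin
  set U : Finset ℝ := hUfin.toFinset with hU
  have hUS : (U : Set ℝ) ⊆ S := by
    rw [hU, Set.Finite.coe_toFinset]
    refine Set.union_subset hTS ?_
    rintro x ⟨e, rfl⟩
    exact hw₀S e
  have hUcard : 4 ≤ U.card := by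
    have h1 : T.encard ≤ (U : Set ℝ).encard := by
      refine Set.encard_le_encard ?_
      rw [hU, Set.Finite.coe_toFinset]
      exact Set.subset_union_left
    rw [hT4, Set.encard_coe_eq_coe_finsetCard] at h1
    exact_mod_cast h1
  refine not_unique_of_four G U hUcard hE ?_
  refine uwc_mono G _ _ hUS hG ⟨w₀, ?_, hw₀⟩
  intro e
  rw [hU, Set.Finite.coe_toFinset]
  exact Set.mem_union_right _ ⟨e, rfl⟩

/-- The classification. -/
theorem classification {V : Type*} [Fintype V] (G : SimpleGraph V) (hE : G.edgeSet.Nonempty)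
    (S : Set ℝ) (hS : 3 ≤ S.encard) :
    UniquelyWeightColourable G S ↔ S.encard = 3 ∧
      ∀ c : G.ConnectedComponent, c.supp.ncard = 1 ∨
        Nonempty (G.induce c.supp ≃g (⊤ : SimpleGraph (Fin 3))) := by
  classical
  constructor
  · intro hG
    have h3 := encard_eq_three G hE S hS hG
    refine ⟨h3, ?_⟩
    have hSfin : S.Finite := Set.finite_of_encard_eq_coe (by exact_mod_cast h3)
    have hScard : hSfin.toFinset.card = 3 := by
      have h1 : ((hSfin.toFinset : Finset ℝ) : Set ℝ).encard = 3 := by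
        rw [Set.Finite.coe_toFinset]
        exact h3
      rw [Set.encard_coe_eq_coe_finsetCard] at h1
      exact_mod_cast h1
    intro c
    have hc := (uwc_iff_components G S).mp hG c
    let _ : Fintype c.supp := Fintype.ofFinite _
    have hconn : (G.induce c.supp).Connected := c.connected_toSimpleGraph
    by_cases hEc : (G.induce c.supp).edgeSet.Nonempty
    · right
      refine connected_triangle (G.induce c.supp) hconn hEc hSfin.toFinset hScard ?_
      rw [Set.Finite.coe_toFinset]
      exact hc
    · left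
      rw [Set.ncard_eq_one]
      obtain ⟨v, hv⟩ := c.nonempty_supp
      refine ⟨v, ?_⟩
      ext u
      rw [Set.mem_singleton_iff]
      constructor
      · intro hu
        by_contra hne
        obtain ⟨p⟩ := hconn.preconnected ⟨u, hu⟩ ⟨v, hv⟩
        cases p with
        | nil => exact hne rfl
        | @cons _ b _ hadj _ => exact hEc ⟨s(⟨u, hu⟩, b), hadj⟩
      · rintro rfl
        exact hv
  · rintro ⟨h3, hc⟩
    rw [uwc_iff_components]
    intro c
    let _ : Fintype c.supp := Fintype.ofFinite _
    rcases hc c with h1 | ⟨⟨φ⟩⟩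
    · refine uwc_of_no_edge _ S ?_
      rintro ⟨e, he⟩
      rw [Set.ncard_eq_one] at h1
      obtain ⟨v, hv⟩ := h1
      induction e using Sym2.ind with
      | _ x y =>
        rw [SimpleGraph.mem_edgeSet] at he
        refine he.ne (Subtype.ext ?_)
        have hx : (x : V) ∈ ({v} : Set V) := by
          rw [← hv]
          exact x.2
        have hy : (y : V) ∈ ({v} : Set V) := by
          rw [← hv]
          exact y.2
        rw [Set.mem_singleton_iff] at hx hy
        rw [hx, hy]
    · exact uwc_of_iso φ S (triangle_uwc S h3)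

end Pool.Agent.H63.UWC
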